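import Mathlib

set_option autoImplicit false
open CategoryTheory

namespace Pool.Agent.Helper426Tach

/-- IsHull C E: the C-module E is an injective hull of C / rad C. -/
def IsHull (C : Type) [CommRing C] (E : Type) [AddCommGroup E] [Module C E] : Prop :=
  Module.Injective C E ∧ ∃ f : (C ⧸ (⊥ : Ideal C).jacobson) →ₗ[C] E,
    Function.Injective f ∧ ∀ K : Submodule C E, K ≠ ⊥ → K ⊓ LinearMap.range f ≠ ⊥

/-- SES f g: the sequence 0 → X → Y → Z → 0 given by f and g is exact. -/
def SES {R : Type} [Ring R] {X Y Z : ModuleCat.{0} R} (f : X →ₗ[R] Y) (g : Y →ₗ[R] Z) : Prop :=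
  Function.Injective f ∧ Function.Exact f g ∧ Function.Surjective g

/-- Syz R n M Y: the module Y is an n-th syzygy of M, that is, there is an exact sequence
0 → Y → P_(n-1) → ... → P_0 → M → 0 with all P_j finitely generated and projective. -/
inductive Syz (R : Type) [Ring R] : ℕ → ModuleCat.{0} R → ModuleCat.{0} R → Prop
  | zero (M : ModuleCat.{0} R) : Syz R 0 M M
  | succ {n : ℕ} {M X P Y : ModuleCat.{0} R} (hX : Syz R n M X) (f : Y →ₗ[R] P) (g : P →ₗ[R] X)
      (hfin : Module.Finite R P) (hproj : Module.Projective R P) (h : SES f g) :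
      Syz R (n + 1) M Y

/-- Cosyz R n M Y: the module Y is an n-th cosyzygy of M, that is, there is an exact sequence
0 → M → I_0 → ... → I_(n-1) → Y → 0 with all I_j finitely generated and injective. -/
inductive Cosyz (R : Type) [Ring R] : ℕ → ModuleCat.{0} R → ModuleCat.{0} R → Prop
  | zero (M : ModuleCat.{0} R) : Cosyz R 0 M M
  | succ {n : ℕ} {M X I Y : ModuleCat.{0} R} (hX : Cosyz R n M X) (f : X →ₗ[R] I) (g : I →ₗ[R] Y)
      (hfin : Module.Finite R I) (hinj : Module.Injective R I) (h : SES f g) :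
      Cosyz R (n + 1) M Y

/-- Blk G m D: the product of m a copies of each G a, times D. -/
def Blk {R : Type} [Ring R] {N : ℕ} (G : Fin N → ModuleCat.{0} R) (m : Fin N → ℕ)
    (D : ModuleCat.{0} R) : ModuleCat.{0} R :=
  ModuleCat.of R ((∀ a, Fin (m a) → G a) × D)

/-- EZ X Y s t: Ext^m(X, Y) = 0 for all m with s ≤ m ≤ t. -/
def EZ {R : Type} [Ring R] [HasExt.{0} (ModuleCat.{0} R)] (X Y : ModuleCat.{0} R) (s t : ℕ) :
    Prop :=
  ∀ m : ℕ, s ≤ m → m ≤ t → Subsingleton (Abelian.Ext.{0} X Y m)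

/-- TwoSyz A G s t Y: there is an exact sequence 0 → B1 → B0 → Y × W → 0 in which W is
finitely generated projective and, for c = 0, 1, Bc is the product of finitely many copies of the
G a with a finitely generated module Dc satisfying Ext^m(A, Dc) = 0 for s ≤ m ≤ t. -/
def TwoSyz {R : Type} [Ring R] [HasExt.{0} (ModuleCat.{0} R)] (A : ModuleCat.{0} R) {N : ℕ}
    (G : Fin N → ModuleCat.{0} R) (s t : ℕ) (Y : ModuleCat.{0} R) : Prop :=
  ∃ (W D0 D1 : ModuleCat.{0} R) (m0 m1 : Fin N → ℕ) (f : Blk G m1 D1 →ₗ[R] Blk G m0 D0)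
    (g : Blk G m0 D0 →ₗ[R] ModuleCat.of R (Y × W)),
    SES f g ∧ Module.Finite R W ∧ Module.Projective R W ∧ Module.Finite R D0 ∧
    Module.Finite R D1 ∧ EZ A D0 s t ∧ EZ A D1 s t

/-- TwoCosyz G s t Y: there is an exact sequence 0 → Y × W → B0 → B1 → 0 in which W is finitely
generated injective and, for c = 0, 1, Bc is the product of finitely many copies of the G a with
a finitely generated module Dc satisfying Ext^m(Dc, R) = 0 for s ≤ m ≤ t. -/
def TwoCosyz {R : Type} [Ring R] [HasExt.{0} (ModuleCat.{0} R)] {N : ℕ}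
    (G : Fin N → ModuleCat.{0} R) (s t : ℕ) (Y : ModuleCat.{0} R) : Prop :=
  ∃ (W D0 D1 : ModuleCat.{0} R) (m0 m1 : Fin N → ℕ)
    (f : ModuleCat.of R (Y × W) →ₗ[R] Blk G m0 D0) (g : Blk G m0 D0 →ₗ[R] Blk G m1 D1),
    SES f g ∧ Module.Finite R W ∧ Module.Injective R W ∧ Module.Finite R D0 ∧
    Module.Finite R D1 ∧ EZ D0 (ModuleCat.of R R) s t ∧ EZ D1 (ModuleCat.of R R) s t

/-- SyzTwoStep A N S J: there are N finitely generated modules G such that for every j in S every
j-th syzygy of A is two-step over G. -/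
def SyzTwoStep {R : Type} [Ring R] [HasExt.{0} (ModuleCat.{0} R)] (A : ModuleCat.{0} R) (N : ℕ)
    (S : Finset ℕ) (J : ℕ) : Prop :=
  ∃ G : Fin N → ModuleCat.{0} R, (∀ a, Module.Finite R (G a)) ∧
    ∀ j ∈ S, ∀ Y : ModuleCat.{0} R, Syz R j A Y → TwoSyz A G j (J + 1) Y

/-- CosyzTwoStep R N S J: there are N finitely generated modules G such that for every j in S every
j-th cosyzygy of R is two-step over G (dual form). -/
def CosyzTwoStep (R : Type) [Ring R] [HasExt.{0} (ModuleCat.{0} R)] (N : ℕ)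
    (S : Finset ℕ) (J : ℕ) : Prop :=
  ∃ G : Fin N → ModuleCat.{0} R, (∀ a, Module.Finite R (G a)) ∧
    ∀ j ∈ S, ∀ Y : ModuleCat.{0} R, Cosyz R j (ModuleCat.of R R) Y → TwoCosyz G j (J + 1) Y

end Pool.Agent.Helper426Tach
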