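import Pool.Agent.Helper426_Tach.Core

set_option autoImplicit false

namespace Pool.Agent.Helper426Tach

section Main
variable {k : Type} [CommRing k] [IsArtinianRing k] {R : Type} [Ring R] [Algebra k R]
variable {N : ℕ} {G : Fin N → Type} [∀ a, AddCommGroup (G a)] [∀ a, Module R (G a)]
  [∀ a, Module.Finite R (G a)]
variable {Z I : ℕ → Type} [∀ i, AddCommGroup (Z i)] [∀ i, Module R (Z i)]
  [∀ i, Module k (Z i)] [∀ i, IsScalarTower k R (Z i)] [∀ i, Module.Finite k (Z i)]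
  [∀ i, Module.Finite R (Z i)]
  [∀ i, AddCommGroup (I i)] [∀ i, Module R (I i)]
  [∀ i, Module k (I i)] [∀ i, IsScalarTower k R (I i)] [∀ i, Module.Finite k (I i)]
variable {Wt D0 D1 : Type} [AddCommGroup Wt] [Module R Wt] [Module.Finite R Wt]
  [AddCommGroup D0] [Module R D0] [Module.Finite R D0]
  [AddCommGroup D1] [Module R D1] [Module.Finite R D1]

/-- One index of the cosyzygy argument, with negligible summands D0 and D1 allowed. -/
theorem step2 (ι : ∀ i, Z i →ₗ[R] I i) (π : ∀ i, I i →ₗ[R] Z (i + 1))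
    (hι : ∀ i, Function.Injective (ι i))
    (hex : ∀ i, Function.Exact (ι i) (π i))
    (hI : ∀ i, Module.Injective R (I i))
    (p M : ℕ) (hp : p ≤ M)
    (lift : ∀ i, p < i → i ≤ M + 1 → ∀ φ : Z (p + 1) →ₗ[R] Z (i + 1),
      ∃ ψ : Z (p + 1) →ₗ[R] I i, π i ∘ₗ ψ = φ)
    (ext : ∀ i, p + 1 < i → i ≤ M + 2 → ∀ φ : Z (p + 1) →ₗ[R] Z i,
      ∃ ψ : I (p + 1) →ₗ[R] Z i, ψ ∘ₗ ι (p + 1) = φ)
    (hW : Module.Injective R Wt)
    (liftW : ∀ i, p ≤ i → i ≤ M + 1 → ∀ φ : Wt →ₗ[R] Z (i + 1),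
      ∃ ψ : Wt →ₗ[R] I i, π i ∘ₗ ψ = φ)
    (liftD0 : ∀ i, p ≤ i → i ≤ M + 1 → ∀ φ : D0 →ₗ[R] Z (i + 1),
      ∃ ψ : D0 →ₗ[R] I i, π i ∘ₗ ψ = φ)
    (liftD1 : ∀ i, p ≤ i → i ≤ M + 1 → ∀ φ : D1 →ₗ[R] Z (i + 1),
      ∃ ψ : D1 →ₗ[R] I i, π i ∘ₗ ψ = φ)
    (m0 m1 : Fin N → ℕ)
    (f : (Z (p + 1) × Wt) →ₗ[R] ((∀ a, Fin (m0 a) → G a) × D0))
    (g : ((∀ a, Fin (m0 a) → G a) × D0) →ₗ[R] ((∀ a, Fin (m1 a) → G a) × D1))
    (hf : Function.Injective f) (hfg : Function.Exact f g) (hg : Function.Surjective g)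
    (hns : ¬ ∃ s : Z (p + 1) →ₗ[R] I p, π p ∘ₗ s = LinearMap.id) :
    ((∑ a, ((m1 a : ℤ) - m0 a) * dfc k R (G a) (Z (p + 1)) (I (p + 1)) (Z (p + 1 + 1)) ≠ 0) ∧
      ∀ i, p < i → i ≤ M →
        ∑ a, ((m1 a : ℤ) - m0 a) * dfc k R (G a) (Z (i + 1)) (I (i + 1)) (Z (i + 1 + 1)) = 0) ∨
    ((∑ a, ((m1 a : ℤ) - m0 a) * dfc k R (G a) (Z p) (I p) (Z (p + 1)) ≠ 0) ∧
      ∀ i, p < i → i ≤ M →
        ∑ a, ((m1 a : ℤ) - m0 a) * dfc k R (G a) (Z i) (I i) (Z (i + 1)) = 0) := by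
  -- abbreviations
  let Y := Z (p + 1) × Wt
  let B0 := (∀ a, Fin (m0 a) → G a) × D0
  let B1 := (∀ a, Fin (m1 a) → G a) × D1
  have hsplit : ∀ (i : ℕ) (A B : Type) [AddCommGroup A] [Module R A] [Module.Finite R A]
      [AddCommGroup B] [Module R B] [Module.Finite R B],
      dfc k R (A × B) (Z i) (I i) (Z (i + 1)) =
      dfc k R A (Z i) (I i) (Z (i + 1)) + dfc k R B (Z i) (I i) (Z (i + 1)) := by
    intro i A B _ _ _ _ _ _
    unfold dfc
    rw [hl_prod, hl_prod, hl_prod]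
    ring
  have hWz : ∀ i, p ≤ i → i ≤ M + 1 → dfc k R Wt (Z i) (I i) (Z (i + 1)) = 0 := by
    intro i h1 h2
    exact (hl_cov (k := k) (ι i) (π i) (hι i) (hex i)).mpr (liftW i h1 h2)
  have hD0z : ∀ i, p ≤ i → i ≤ M + 1 → dfc k R D0 (Z i) (I i) (Z (i + 1)) = 0 := by
    intro i h1 h2
    exact (hl_cov (k := k) (ι i) (π i) (hι i) (hex i)).mpr (liftD0 i h1 h2)
  have hD1z : ∀ i, p ≤ i → i ≤ M + 1 → dfc k R D1 (Z i) (I i) (Z (i + 1)) = 0 := by
    intro i h1 h2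
    exact (hl_cov (k := k) (ι i) (π i) (hι i) (hex i)).mpr (liftD1 i h1 h2)
  have hZz : ∀ i, p < i → i ≤ M + 1 → dfc k R (Z (p + 1)) (Z i) (I i) (Z (i + 1)) = 0 := by
    intro i h1 h2
    exact (hl_cov (k := k) (ι i) (π i) (hι i) (hex i)).mpr (lift i h1 h2)
  have hYsplit : ∀ i, dfc k R Y (Z i) (I i) (Z (i + 1)) =
      dfc k R (Z (p + 1)) (Z i) (I i) (Z (i + 1)) + dfc k R Wt (Z i) (I i) (Z (i + 1)) := by
    intro i
    exact hsplit i (Z (p + 1)) Wt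
  have hYz : ∀ i, p < i → i ≤ M + 1 → dfc k R Y (Z i) (I i) (Z (i + 1)) = 0 := by
    intro i h1 h2
    rw [hYsplit, hWz i h1.le h2, hZz i h1 h2, add_zero]
  have hcI : ∀ i, hl k R Y (I i) - hl k R B0 (I i) + hl k R B1 (I i) = 0 := by
    intro i
    exact (hl_contra (k := k) f g hg hfg).mpr (inj_ext (hI i) f hf)
  have hcZ : ∀ i, p + 1 < i → i ≤ M + 2 →
      hl k R Y (Z i) - hl k R B0 (Z i) + hl k R B1 (Z i) = 0 := by
    intro i h1 h2
    refine (hl_contra (k := k) f g hg hfg).mpr ?_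
    intro φ
    -- extend φ to I (p+1) × Wt
    obtain ⟨ψ1, hψ1⟩ := ext i h1 h2 (φ ∘ₗ LinearMap.inl R (Z (p + 1)) Wt)
    obtain ⟨u, hu⟩ := inj_ext (hI (p + 1)) f hf (ι (p + 1) ∘ₗ LinearMap.fst R (Z (p + 1)) Wt)
    obtain ⟨w, hw⟩ := inj_ext hW f hf (LinearMap.snd R (Z (p + 1)) Wt)
    refine ⟨ψ1 ∘ₗ u + (φ ∘ₗ LinearMap.inr R (Z (p + 1)) Wt) ∘ₗ w, ?_⟩
    ext x
    · have h3 := LinearMap.congr_fun hu (x, 0)
      have h4 := LinearMap.congr_fun hw (x, 0)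
      have h5 := LinearMap.congr_fun hψ1 x
      simp only [LinearMap.comp_apply, LinearMap.fst_apply, LinearMap.snd_apply,
        LinearMap.inl_apply] at h3 h4 h5
      simp only [LinearMap.comp_apply, LinearMap.add_apply, LinearMap.inl_apply,
        LinearMap.inr_apply, h3, h4, h5]
      have h6 : φ (0, 0) = 0 := map_zero φ
      rw [h6, add_zero]
    · have h3 := LinearMap.congr_fun hu (0, x)
      have h4 := LinearMap.congr_fun hw (0, x)
      simp only [LinearMap.comp_apply, LinearMap.fst_apply, LinearMap.snd_apply] at h3 h4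
      simp only [LinearMap.comp_apply, LinearMap.add_apply, LinearMap.inr_apply, h3, h4]
      simp
  have key : ∀ i, p ≤ i → i ≤ M + 1 →
      ∑ a, ((m1 a : ℤ) - m0 a) * dfc k R (G a) (Z i) (I i) (Z (i + 1)) =
      (hl k R Y (Z (i + 1)) - hl k R B0 (Z (i + 1)) + hl k R B1 (Z (i + 1)))
      - (hl k R Y (I i) - hl k R B0 (I i) + hl k R B1 (I i))
      + (hl k R Y (Z i) - hl k R B0 (Z i) + hl k R B1 (Z i)) - dfc k R Y (Z i) (I i) (Z (i + 1))
      := by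
    intro i h1 h2
    rw [pairing_eq]
    have h3 := hsplit i (∀ a, Fin (m0 a) → G a) D0
    have h4 := hsplit i (∀ a, Fin (m1 a) → G a) D1
    rw [hD0z i h1 h2, add_zero] at h3
    rw [hD1z i h1 h2, add_zero] at h4
    rw [← h3, ← h4]
    exact dfc_change
  by_cases hsp : hl k R Y (Z (p + 1)) - hl k R B0 (Z (p + 1)) + hl k R B1 (Z (p + 1)) = 0
  · -- split case
    right
    have hext := (hl_contra (k := k) f g hg hfg).mp hsp
    obtain ⟨r1, hr1⟩ := hext (LinearMap.fst R (Z (p + 1)) Wt)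
    obtain ⟨r2, hr2⟩ := inj_ext hW f hf (LinearMap.snd R (Z (p + 1)) Wt)
    have hretr : ∀ y, (r1 (f y), r2 (f y)) = y := by
      intro y
      have h1 := LinearMap.congr_fun hr1 y
      have h2 := LinearMap.congr_fun hr2 y
      simp only [LinearMap.comp_apply, LinearMap.fst_apply, LinearMap.snd_apply] at h1 h2
      rw [h1, h2]
    have hall : ∀ i, hl k R Y (Z i) - hl k R B0 (Z i) + hl k R B1 (Z i) = 0 := by
      intro i
      refine (hl_contra (k := k) f g hg hfg).mpr ?_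
      intro φ
      refine ⟨φ ∘ₗ (r1.prod r2), ?_⟩
      refine LinearMap.ext fun y => ?_
      change φ (r1 (f y), r2 (f y)) = φ y
      rw [hretr]
    refine ⟨?_, ?_⟩
    · rw [key p le_rfl (by omega), hall, hall, hcI, hYsplit, hWz p le_rfl (by omega)]
      intro h0
      have h1 : dfc k R (Z (p + 1)) (Z p) (I p) (Z (p + 1)) = 0 := by omega
      have h2 := (hl_cov (k := k) (ι p) (π p) (hι p) (hex p)).mp h1
      exact hns (h2 LinearMap.id)
    · intro i h1 h2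
      rw [key i h1.le (by omega), hall, hall, hcI, hYz i h1 (by omega)]
      ring
  · left
    refine ⟨?_, ?_⟩
    · rw [key (p + 1) (by omega) (by omega), hcZ (p + 1 + 1) (by omega) (by omega), hcI,
        hYz (p + 1) (by omega) (by omega)]
      simpa using hsp
    · intro i h1 h2
      rw [key (i + 1) (by omega) (by omega), hcZ (i + 1 + 1) (by omega) (by omega), hcI,
        hcZ (i + 1) (by omega) (by omega), hYz (i + 1) (by omega) (by omega)]
      ring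

end Main

end Pool.Agent.Helper426Tach
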