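import Mathlib

set_option autoImplicit false
open CategoryTheory

namespace Pool.Agent.Helper426Tach

section
variable {R : Type} [Ring R] [HasExt.{0} (ModuleCat.{0} R)]
variable {A B C : ModuleCat.{0} R} (f : A →ₗ[R] B) (g : B →ₗ[R] C)
  (hf : Function.Injective f) (hfg : Function.Exact f g) (hg : Function.Surjective g)

/-- the short complex of a short exact sequence of linear maps -/
abbrev sc (hfg : Function.Exact f g) : ShortComplex (ModuleCat.{0} R) :=
  ModuleCat.shortComplexOfCompEqZero f g hfg.linearMap_comp_eq_zero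

include hf hg in
omit [HasExt.{0} (ModuleCat.{0} R)] in
theorem sc_shortExact : (sc f g hfg).ShortExact :=
  ModuleCat.shortComplex_shortExact _ hfg hf hg

include hf hg hfg in
theorem ez_cov3 {X : ModuleCat.{0} R} {n : ℕ} (h2 : Subsingleton (Abelian.Ext.{0} X B n))
    (h1 : Subsingleton (Abelian.Ext.{0} X A (n + 1))) : Subsingleton (Abelian.Ext.{0} X C n) := by
  have hS := sc_shortExact f g hf hfg hg
  refine subsingleton_of_forall_eq 0 fun x => ?_
  obtain ⟨y, hy⟩ := Abelian.Ext.covariant_sequence_exact₃ X hS x rfl (h1.elim _ _)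
  have : y = 0 := h2.elim _ _
  rw [← hy, this, Abelian.Ext.zero_comp]

include hf hg hfg in
theorem ez_contra3 {Y : ModuleCat.{0} R} {n : ℕ} (h1 : Subsingleton (Abelian.Ext.{0} A Y n))
    (h2 : Subsingleton (Abelian.Ext.{0} B Y (n + 1))) :
    Subsingleton (Abelian.Ext.{0} C Y (n + 1)) := by
  have hS := sc_shortExact f g hf hfg hg
  refine subsingleton_of_forall_eq 0 fun x => ?_
  obtain ⟨y, hy⟩ := Abelian.Ext.contravariant_sequence_exact₃ hS Y x (h2.elim _ _)
    (Nat.add_comm 1 n)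
  have : y = 0 := h1.elim _ _
  rw [← hy, this, Abelian.Ext.comp_zero]

include hf hg hfg in
theorem ez_contra2 {Y : ModuleCat.{0} R} {n : ℕ} (h1 : Subsingleton (Abelian.Ext.{0} A Y n))
    (h3 : Subsingleton (Abelian.Ext.{0} C Y n)) :
    Subsingleton (Abelian.Ext.{0} B Y n) := by
  have hS := sc_shortExact f g hf hfg hg
  refine subsingleton_of_forall_eq 0 fun x => ?_
  obtain ⟨y, hy⟩ := Abelian.Ext.contravariant_sequence_exact₂ hS Y x (h1.elim _ _)
  have : y = 0 := h3.elim _ _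
  rw [← hy, this, Abelian.Ext.comp_zero]

include hf hg hfg in
theorem lift_of_ez {X : ModuleCat.{0} R} (h : Subsingleton (Abelian.Ext.{0} X A 1))
    (φ : X →ₗ[R] C) : ∃ ψ : X →ₗ[R] B, g ∘ₗ ψ = φ := by
  have hS := sc_shortExact f g hf hfg hg
  obtain ⟨y, hy⟩ := Abelian.Ext.covariant_sequence_exact₃ X hS
    (Abelian.Ext.mk₀ (ModuleCat.ofHom φ)) (zero_add 1) (h.elim _ _)
  obtain ⟨ψ, rfl⟩ := Abelian.Ext.mk₀_bijective _ _ |>.2 y
  rw [Abelian.Ext.mk₀_comp_mk₀] at hy
  have h2 := (Abelian.Ext.mk₀_bijective _ _).1 hy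
  refine ⟨ψ.hom, ?_⟩
  have h3 := congrArg ModuleCat.Hom.hom h2
  exact h3

include hf hg hfg in
theorem ext_of_ez {Y : ModuleCat.{0} R} (h : Subsingleton (Abelian.Ext.{0} C Y 1))
    (φ : A →ₗ[R] Y) : ∃ ψ : B →ₗ[R] Y, ψ ∘ₗ f = φ := by
  have hS := sc_shortExact f g hf hfg hg
  obtain ⟨y, hy⟩ := Abelian.Ext.contravariant_sequence_exact₁ hS Y
    (Abelian.Ext.mk₀ (ModuleCat.ofHom φ)) (add_zero 1) (h.elim _ _)
  obtain ⟨ψ, rfl⟩ := Abelian.Ext.mk₀_bijective _ _ |>.2 y
  rw [Abelian.Ext.mk₀_comp_mk₀] at hy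
  have h2 := (Abelian.Ext.mk₀_bijective _ _).1 hy
  refine ⟨ψ.hom, ?_⟩
  have h3 := congrArg ModuleCat.Hom.hom h2
  exact h3

theorem ez_retract {X W Y : ModuleCat.{0} R} {n : ℕ} (s : X →ₗ[R] W) (r : W →ₗ[R] X)
    (hrs : r ∘ₗ s = LinearMap.id) (h : Subsingleton (Abelian.Ext.{0} W Y n)) :
    Subsingleton (Abelian.Ext.{0} X Y n) := by
  refine subsingleton_of_forall_eq 0 fun x => ?_
  have h1 : ModuleCat.ofHom s ≫ ModuleCat.ofHom r = 𝟙 X := by
    rw [← ModuleCat.ofHom_comp, hrs]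
    rfl
  have h2 : (Abelian.Ext.mk₀ (ModuleCat.ofHom s)).comp
      ((Abelian.Ext.mk₀ (ModuleCat.ofHom r)).comp x (zero_add n)) (zero_add n) = x := by
    rw [Abelian.Ext.mk₀_comp_mk₀_assoc, h1, Abelian.Ext.mk₀_id_comp]
  have h3 : (Abelian.Ext.mk₀ (ModuleCat.ofHom r)).comp x (zero_add n) = 0 := h.elim _ _
  rw [← h2, h3, Abelian.Ext.comp_zero]

theorem ez_injective {X I : ModuleCat.{0} R} (hI : Module.Injective R I) (n : ℕ) :
    Subsingleton (Abelian.Ext.{0} X I (n + 1)) := by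
  have : CategoryTheory.Injective I := (Module.injective_iff_injective_object R I).mp hI
  exact Abelian.Ext.subsingleton_of_injective X I n

theorem ez_projective {P X : ModuleCat.{0} R} (hP : Module.Projective R P) (n : ℕ) :
    Subsingleton (Abelian.Ext.{0} P X (n + 1)) := by
  have : CategoryTheory.Projective P := (IsProjective.iff_projective P).mp hP
  exact Abelian.Ext.subsingleton_of_projective P X n

/-- Ext vanishing passes from Q to the powers of Q. -/
theorem ez_pow {Q Y : ModuleCat.{0} R} {n : ℕ} (h : Subsingleton (Abelian.Ext.{0} Q Y (n + 1)))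
    (r : ℕ) : Subsingleton (Abelian.Ext.{0} (ModuleCat.of R (Fin r → Q)) Y (n + 1)) := by
  induction r with
  | zero =>
    refine ez_projective ?_ n
    change Module.Projective R (Fin 0 → Q)
    infer_instance
  | succ r ih =>
    let e : (Fin (r + 1) → Q) ≃ₗ[R] Q × (Fin r → Q) := Fin.consLinearEquiv R (fun _ => Q) |>.symm
    have h2 : Subsingleton (Abelian.Ext.{0} (ModuleCat.of R (Q × (Fin r → Q))) Y (n + 1)) := by
      refine ez_contra2 (A := Q) (B := ModuleCat.of R (Q × (Fin r → Q)))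
        (C := ModuleCat.of R (Fin r → Q)) (LinearMap.inl R Q (Fin r → Q))
        (LinearMap.snd R Q (Fin r → Q)) LinearMap.inl_injective ?_ LinearMap.snd_surjective h ih
      intro x
      constructor
      · intro hx
        exact ⟨x.1, Prod.ext rfl hx.symm⟩
      · rintro ⟨a, rfl⟩
        rfl
    refine ez_retract (W := ModuleCat.of R (Q × (Fin r → Q))) e.toLinearMap e.symm.toLinearMap ?_ h2
    exact LinearMap.ext fun x => e.symm_apply_apply x

end

section Chain
variable {R : Type} [Ring R] [HasExt.{0} (ModuleCat.{0} R)]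
variable {Q : ModuleCat.{0} R} {Z : ℕ → ModuleCat.{0} R} {r : ℕ → ℕ}
  (ι : ∀ i, Z i →ₗ[R] (Fin (r i) → Q)) (π : ∀ i, (Fin (r i) → Q) →ₗ[R] Z (i + 1))
  (hι : ∀ i, Function.Injective (ι i)) (hex : ∀ i, Function.Exact (ι i) (π i))
  (hπ : ∀ i, Function.Surjective (π i))
  (hQ : Module.Injective R Q) (T : ℕ)
  (hT : ∀ m, m < T → Subsingleton (Abelian.Ext.{0} Q (Z 0) (m + 1)))

omit [HasExt.{0} (ModuleCat.{0} R)] in
theorem injective_pow (hQ : Module.Injective R Q) (n : ℕ) : Module.Injective R (Fin n → Q) := by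
  have := hQ
  infer_instance

include hι hex hπ hQ hT in
theorem chainA : ∀ i m, i + m < T → Subsingleton (Abelian.Ext.{0} Q (Z i) (m + 1)) := by
  intro i
  induction i with
  | zero => intro m hm; exact hT m (by omega)
  | succ i ih =>
    intro m hm
    refine ez_cov3 (A := Z i) (B := ModuleCat.of R (Fin (r i) → Q)) (C := Z (i + 1)) (ι i) (π i)
      (hι i) (hex i) (hπ i) ?_ ?_
    · exact ez_injective (I := ModuleCat.of R (Fin (r i) → Q)) (injective_pow hQ (r i)) m
    · exact ih (m + 1) (by omega)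

include hι hex hπ hQ hT in
theorem chainP (h0 : Module.Projective R (Z 0)) :
    ∀ j i, j ≤ i → i < T → Subsingleton (Abelian.Ext.{0} (Z j) (Z i) 1) := by
  intro j
  induction j with
  | zero => intro i _ _; exact ez_projective h0 0
  | succ j ih =>
    intro i hji hiT
    obtain ⟨i, rfl⟩ : ∃ i', i = i' + 1 := ⟨i - 1, by omega⟩
    refine ez_cov3 (A := Z i) (B := ModuleCat.of R (Fin (r i) → Q)) (C := Z (i + 1)) (ι i) (π i)
      (hι i) (hex i) (hπ i) ?_ ?_
    · exact ez_injective (I := ModuleCat.of R (Fin (r i) → Q)) (injective_pow hQ (r i)) 0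
    · refine ez_contra3 (A := Z j) (B := ModuleCat.of R (Fin (r j) → Q)) (C := Z (j + 1)) (ι j) (π j)
        (hι j) (hex j) (hπ j) ?_ ?_
      · exact ih i (by omega) (by omega)
      · exact ez_pow (chainA ι π hι hex hπ hQ T hT i 1 hiT) (r j)

include hι hex hπ hQ hT in
theorem chain_lift (h0 : Module.Projective R (Z 0)) (j i : ℕ) (hji : j ≤ i) (hi : i < T)
    (φ : Z j →ₗ[R] Z (i + 1)) : ∃ ψ : Z j →ₗ[R] (Fin (r i) → Q), π i ∘ₗ ψ = φ :=
  lift_of_ez (A := Z i) (B := ModuleCat.of R (Fin (r i) → Q)) (C := Z (i + 1)) (ι i) (π i)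
      (hι i) (hex i) (hπ i) (chainP ι π hι hex hπ hQ T hT h0 j i hji hi) φ

include hι hex hπ hQ hT in
theorem chain_ext (h0 : Module.Projective R (Z 0)) (j i : ℕ) (hji : j < i) (hi : i < T)
    (φ : Z j →ₗ[R] Z i) : ∃ ψ : (Fin (r j) → Q) →ₗ[R] Z i, ψ ∘ₗ ι j = φ :=
  ext_of_ez (A := Z j) (B := ModuleCat.of R (Fin (r j) → Q)) (C := Z (j + 1)) (ι j) (π j)
      (hι j) (hex j) (hπ j) (chainP ι π hι hex hπ hQ T hT h0 (j + 1) i hji hi) φ

include hι hex hπ hQ hT in
theorem chain_liftInj {W : ModuleCat.{0} R} (hW : Module.Injective R W) (n : ℕ)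
    (e : W →ₗ[R] (Fin n → Q)) (he : Function.Injective e) (i : ℕ) (hi : i < T)
    (φ : W →ₗ[R] Z (i + 1)) : ∃ ψ : W →ₗ[R] (Fin (r i) → Q), π i ∘ₗ ψ = φ := by
  refine lift_of_ez (A := Z i) (B := ModuleCat.of R (Fin (r i) → Q)) (C := Z (i + 1)) (ι i) (π i)
      (hι i) (hex i) (hπ i) ?_ φ
  obtain ⟨s, hs⟩ := hW.out e he LinearMap.id
  exact ez_retract (W := ModuleCat.of R (Fin n → Q)) e s (LinearMap.ext hs)
    (ez_pow (chainA ι π hι hex hπ hQ T hT i 0 (by omega)) n)

end Chain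

end Pool.Agent.Helper426Tach
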