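import Pool.Agent.Helper426_Tach.Len

set_option autoImplicit false

namespace Pool.Agent.Helper426Tach

section Comm
variable {k : Type} [CommRing k] [IsArtinianRing k]

/-- Splitting ideals modulo the radical of an artinian ring. -/
theorem exists_compl_elt (I : Ideal k) (hI : (⊥ : Ideal k).jacobson ≤ I) :
    ∃ e : k, 1 - e ∈ I ∧ (∀ a ∈ I, e * a ∈ (⊥ : Ideal k).jacobson) ∧
      ∀ c : k, c * e ∈ I → c * e ∈ (⊥ : Ideal k).jacobson := by
  have hJ : (⊥ : Ideal k).jacobson = Ring.jacobson k := Ideal.jacobson_bot
  have hss : IsSemisimpleRing (k ⧸ (⊥ : Ideal k).jacobson) := by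
    rw [hJ]
    exact IsSemiprimaryRing.isSemisimpleRing
  let J := (⊥ : Ideal k).jacobson
  let q := Ideal.Quotient.mk J
  have hq : Function.Surjective q := Ideal.Quotient.mk_surjective
  obtain ⟨K, hK⟩ := exists_isCompl (I.map q)
  have h1 : (1 : k ⧸ J) ∈ I.map q ⊔ K := by
    rw [hK.sup_eq_top]
    trivial
  obtain ⟨a, ha, b, hb, hab⟩ := Submodule.mem_sup.mp h1
  obtain ⟨e, rfl⟩ := hq b
  have hmemI : ∀ x : k, q x ∈ I.map q → x ∈ I := by
    intro x hx
    obtain ⟨y, hy, hyx⟩ := (Ideal.mem_map_iff_of_surjective q hq).mp hx
    have h2 : x - y ∈ J := by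
      rw [← Ideal.Quotient.eq_zero_iff_mem]
      change q (x - y) = 0
      rw [map_sub, hyx, sub_self]
    have h3 := I.add_mem (hI h2) hy
    simpa using h3
  have hmemJ : ∀ x : k, x ∈ I → q x ∈ K → x ∈ J := by
    intro x hx hxK
    have h2 : q x ∈ I.map q ⊓ K := ⟨Ideal.mem_map_of_mem q hx, hxK⟩
    rw [hK.inf_eq_bot] at h2
    exact Ideal.Quotient.eq_zero_iff_mem.mp h2
  refine ⟨e, ?_, ?_, ?_⟩
  · apply hmemI
    have h2 : q (1 - e) = a := by
      rw [map_sub, map_one, ← hab]
      ring
    rw [h2]
    exact ha
  · intro c hc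
    apply hmemJ _ (I.mul_mem_left e hc)
    rw [map_mul, mul_comm]
    exact K.mul_mem_left _ hb
  · intro c hc
    apply hmemJ _ hc
    rw [map_mul]
    exact K.mul_mem_left _ hb

variable {E : Type} [AddCommGroup E] [Module k E] (hE : Module.Injective k E)
  (f : (k ⧸ (⊥ : Ideal k).jacobson) →ₗ[k] E) (hf : Function.Injective f)

include hE hf in
/-- E is a cogenerator of the category of k-modules. -/
theorem exists_nonzero {M : Type} [AddCommGroup M] [Module k M] (x : M) (hx : x ≠ 0) :
    ∃ g : M →ₗ[k] E, g x ≠ 0 := by
  let A : Ideal k := LinearMap.ker (LinearMap.toSpanSingleton k M x)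
  have hA : A ≠ ⊤ := by
    intro h
    have h1 : (1 : k) ∈ A := by rw [h]; trivial
    apply hx
    have h2 : (1 : k) • x = 0 := h1
    simpa using h2
  obtain ⟨m, hm, hAm⟩ := Ideal.exists_le_maximal A hA
  have hJm : (⊥ : Ideal k).jacobson ≤ m := by
    apply sInf_le
    exact ⟨bot_le, hm⟩
  obtain ⟨e, he1, he2, -⟩ := exists_compl_elt m hJm
  have heJ : e ∉ (⊥ : Ideal k).jacobson := by
    intro h
    apply hm.ne_top
    rw [Ideal.eq_top_iff_one]
    have := m.add_mem he1 (hJm h)
    simpa using this
  let y : E := f (Submodule.Quotient.mk e)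
  have hy : y ≠ 0 := by
    intro h
    have h2 : (Submodule.Quotient.mk e : k ⧸ (⊥ : Ideal k).jacobson) = 0 :=
      hf (by rw [map_zero]; exact h)
    exact heJ ((Submodule.Quotient.mk_eq_zero _).mp h2)
  have hAy : A ≤ LinearMap.ker (LinearMap.toSpanSingleton k E y) := by
    intro a ha
    change a • y = 0
    have h1 : a • y = f (Submodule.Quotient.mk (e * a)) := by
      change a • f (Submodule.Quotient.mk e) = _
      rw [← map_smul, ← Submodule.Quotient.mk_smul, smul_eq_mul, mul_comm]
    rw [h1, (Submodule.Quotient.mk_eq_zero _).mpr (he2 a (hAm ha)), map_zero]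
  let i : (k ⧸ A) →ₗ[k] M := A.liftQ (LinearMap.toSpanSingleton k M x) le_rfl
  have hi : Function.Injective i := by
    rw [← LinearMap.ker_eq_bot]
    exact Submodule.ker_liftQ_eq_bot _ _ _ le_rfl
  let j : (k ⧸ A) →ₗ[k] E := A.liftQ (LinearMap.toSpanSingleton k E y) hAy
  obtain ⟨g, hg⟩ := hE.out i hi j
  refine ⟨g, ?_⟩
  have h3 := hg (Submodule.Quotient.mk 1)
  have h4 : i (Submodule.Quotient.mk 1) = x := by
    change (1 : k) • x = x
    exact one_smul k x
  have h5 : j (Submodule.Quotient.mk 1) = y := by
    change (1 : k) • y = y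
    exact one_smul k y
  rw [h4, h5] at h3
  rw [h3]
  exact hy

variable (hess : ∀ N : Submodule k E, N ≠ ⊥ → N ⊓ LinearMap.range f ≠ ⊥)

include hess in
/-- The J-torsion of E is the range of f. -/
theorem torsion_le_range (y : E) (hy : ∀ a ∈ (⊥ : Ideal k).jacobson, a • y = 0) :
    y ∈ LinearMap.range f := by
  let I : Ideal k := (LinearMap.range f).comap (LinearMap.toSpanSingleton k E y)
  have hI : (⊥ : Ideal k).jacobson ≤ I := by
    intro a ha
    change a • y ∈ LinearMap.range f
    rw [hy a ha]
    exact Submodule.zero_mem _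
  obtain ⟨e, he1, -, he3⟩ := exists_compl_elt I hI
  have h0 : Submodule.span k {e • y} = ⊥ := by
    by_contra hne
    apply hess _ hne
    rw [eq_bot_iff]
    rintro z ⟨hz1, hz2⟩
    obtain ⟨c, rfl⟩ := Submodule.mem_span_singleton.mp hz1
    have h2 : c * e ∈ I := by
      change (c * e) • y ∈ LinearMap.range f
      rw [mul_smul]
      exact hz2
    have h3 := hy _ (he3 c h2)
    rw [mul_smul] at h3
    exact h3
  rw [Submodule.span_singleton_eq_bot] at h0
  have h1 : (1 - e) • y ∈ LinearMap.range f := he1
  rw [sub_smul, h0, sub_zero, one_smul] at h1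
  exact h1

include hess in
/-- E is finitely generated. -/
theorem finite_E : Module.Finite k E := by
  let J := (⊥ : Ideal k).jacobson
  obtain ⟨n, hn⟩ := IsArtinianRing.isNilpotent_jacobson_bot (R := k)
  -- generators of J
  obtain ⟨s, hs⟩ : J.FG := IsNoetherian.noetherian J
  have hT1 : IsNoetherian k (Submodule.torsionBySet k E (J : Set k)) := by
    have h1 : Submodule.torsionBySet k E (J : Set k) ≤ LinearMap.range f := by
      intro y hy
      rw [Submodule.mem_torsionBySet_iff] at hy
      exact torsion_le_range f hess y fun a ha => hy ⟨a, ha⟩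
    have h2 : IsNoetherian k (LinearMap.range f) := inferInstance
    exact isNoetherian_of_le h1
  have hTn : ∀ n : ℕ, IsNoetherian k (Submodule.torsionBySet k E ((J ^ n : Ideal k) : Set k)) := by
    intro n
    induction n with
    | zero =>
      have h1 : Submodule.torsionBySet k E ((J ^ 0 : Ideal k) : Set k) = ⊥ := by
        rw [eq_bot_iff]
        intro y hy
        rw [Submodule.mem_torsionBySet_iff] at hy
        have := hy ⟨1, by simp⟩
        simpa using this
      rw [h1]
      infer_instance
    | succ n ih =>
      let Tn := Submodule.torsionBySet k E ((J ^ n : Ideal k) : Set k)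
      let Tn1 := Submodule.torsionBySet k E ((J ^ (n + 1) : Ideal k) : Set k)
      have hmem : ∀ (x : Tn1) (a : s), (a : k) • (x : E) ∈ Tn := by
        intro x a
        rw [Submodule.mem_torsionBySet_iff]
        intro b
        have hx := x.2
        rw [Submodule.mem_torsionBySet_iff] at hx
        rw [← mul_smul]
        have haJ : (a : k) ∈ J := by
          rw [← hs]
          exact Submodule.subset_span a.2
        refine hx ⟨(b : k) * a, ?_⟩
        rw [pow_succ]
        exact Ideal.mul_mem_mul b.2 haJ
      let F : Tn1 →ₗ[k] (s → Tn) :=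
        { toFun := fun x a => ⟨(a : k) • (x : E), hmem x a⟩
          map_add' := by
            intro x y
            funext a
            apply Subtype.ext
            change (a : k) • ((x : E) + y) = (a : k) • (x : E) + (a : k) • (y : E)
            rw [smul_add]
          map_smul' := by
            intro c x
            funext a
            apply Subtype.ext
            change (a : k) • (c • (x : E)) = c • ((a : k) • (x : E))
            rw [smul_comm] }
      have hker : ∀ x : LinearMap.ker F, (x : E) ∈ Submodule.torsionBySet k E (J : Set k) := by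
        intro x
        rw [Submodule.mem_torsionBySet_iff]
        intro a
        have h1 : J ≤ LinearMap.ker (LinearMap.toSpanSingleton k E ((x : Tn1) : E)) := by
          rw [← hs, Submodule.span_le]
          intro b hb
          have h2 := congrFun (LinearMap.mem_ker.mp x.2) ⟨b, hb⟩
          exact congrArg Subtype.val h2
        exact h1 a.2
      let G : LinearMap.ker F →ₗ[k] Submodule.torsionBySet k E (J : Set k) :=
        { toFun := fun x => ⟨(x : E), hker x⟩
          map_add' := fun _ _ => rfl
          map_smul' := fun _ _ => rfl }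
      have hG : Function.Injective G := by
        intro x y hxy
        have h9 := congrArg (fun z : Submodule.torsionBySet k E (J : Set k) => (z : E)) hxy
        apply Subtype.ext
        apply Subtype.ext
        exact h9
      have h3 : IsNoetherian k (LinearMap.ker F) :=
        isNoetherian_of_injective G hG
      have h4 : IsNoetherian k (s → Tn) := inferInstance
      exact isNoetherian_of_range_eq_ker (LinearMap.ker F).subtype F (by simp)
  have hTtop : Submodule.torsionBySet k E ((J ^ n : Ideal k) : Set k) = ⊤ := by
    rw [eq_top_iff]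
    intro y _
    rw [Submodule.mem_torsionBySet_iff]
    rintro ⟨b, hb⟩
    have hb' : b ∈ ((⊥ : Ideal k).jacobson ^ n : Ideal k) := hb
    rw [hn] at hb'
    have : b = 0 := hb'
    change b • y = 0
    rw [this, zero_smul]
  have h5 := hTn n
  rw [hTtop] at h5
  have h6 : IsNoetherian k E := isNoetherian_of_linearEquiv (Submodule.topEquiv (R := k) (M := E))
  infer_instance

end Comm

section Dual
variable {R : Type} [Ring R] {E : Type} [AddCommGroup E] [Module (Subring.center R) E]
  {Q : Type} [AddCommGroup Q] [Module R Q] (φ : Q ≃+ (R →ₗ[Subring.center R] E))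
  (hφ : ∀ (r : R) (q : Q) (x : R), φ (r • q) x = φ q (x * r))

include hφ in
/-- The map M → Q defined by a functional on M. -/
theorem exists_hom {M : Type} [AddCommGroup M] [Module R M] (g : M →ₗ[Subring.center R] E) :
    ∃ v : M →ₗ[R] Q, ∀ (y : M) (r : R), φ (v y) r = g (r • y) := by
  let w : M → (R →ₗ[Subring.center R] E) := fun y =>
    { toFun := fun r => g (r • y)
      map_add' := by
        intro a b
        rw [add_smul, map_add]
      map_smul' := by
        intro c a
        rw [RingHom.id_apply, ← map_smul, smul_assoc] }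
  refine ⟨{ toFun := fun y => φ.symm (w y), map_add' := ?_, map_smul' := ?_ }, ?_⟩
  · intro x y
    apply φ.injective
    rw [map_add, φ.apply_symm_apply, φ.apply_symm_apply, φ.apply_symm_apply]
    refine LinearMap.ext fun r => ?_
    change g (r • (x + y)) = g (r • x) + g (r • y)
    rw [smul_add, map_add]
  · intro s y
    apply φ.injective
    rw [RingHom.id_apply, φ.apply_symm_apply]
    refine LinearMap.ext fun r => ?_
    rw [hφ, φ.apply_symm_apply]
    change g (r • s • y) = g ((r * s) • y)
    rw [mul_smul]
  · intro y r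
    change φ (φ.symm (w y)) r = g (r • y)
    rw [φ.apply_symm_apply]
    rfl

theorem center_smul_eq (c : Subring.center R) {M : Type} [AddCommGroup M] [Module R M] (y : M) :
    c • y = (c : R) • y := rfl

include hφ in
/-- the functional attached to a map to Q -/
theorem exists_functional {M : Type} [AddCommGroup M] [Module R M] (u : M →ₗ[R] Q) :
    ∃ g : M →ₗ[Subring.center R] E, ∀ y, g y = φ (u y) 1 := by
  refine ⟨{ toFun := fun y => φ (u y) 1, map_add' := ?_, map_smul' := ?_ }, fun y => rfl⟩
  · intro x y
    rw [map_add, map_add]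
    rfl
  · intro c y
    rw [RingHom.id_apply, center_smul_eq, map_smul, hφ, one_mul]
    have h1 : (c : R) = c • (1 : R) := by
      rw [center_smul_eq, smul_eq_mul, mul_one]
    rw [h1, map_smul]

include hφ in
theorem dual_injective (hE : Module.Injective (Subring.center R) E) : Module.Injective R Q := by
  refine ⟨fun X Y _ _ _ _ f hf u => ?_⟩
  obtain ⟨g, hg⟩ := exists_functional φ hφ u
  obtain ⟨g', hg'⟩ := hE.out (f.restrictScalars (Subring.center R)) hf g
  obtain ⟨v, hv⟩ := exists_hom φ hφ g'
  refine ⟨v, fun x => ?_⟩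
  apply φ.injective
  refine LinearMap.ext fun r => ?_
  rw [hv, ← map_smul]
  have h1 := hg' (r • x)
  rw [LinearMap.coe_restrictScalars] at h1
  rw [h1, hg, map_smul, hφ, one_mul]

include hφ in
theorem dual_finite [IsArtinianRing (Subring.center R)] [Module.Finite (Subring.center R) R]
    [Module.Finite (Subring.center R) E] : Module.Finite R Q := by
  let φ' : Q →ₗ[Subring.center R] (R →ₗ[Subring.center R] E) :=
    { toFun := φ
      map_add' := map_add φ
      map_smul' := by
        intro c q
        refine LinearMap.ext fun r => ?_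
        rw [RingHom.id_apply, center_smul_eq, hφ, LinearMap.smul_apply, ← map_smul]
        have h1 : r * (c : R) = c • r := by
          rw [center_smul_eq, smul_eq_mul]
          exact (Subring.mem_center_iff.mp c.2 r)
        rw [h1] }
  have h1 : Module.Finite (Subring.center R) (R →ₗ[Subring.center R] E) := finite_hom
  have h2 : Module.Finite (Subring.center R) Q := Module.Finite.of_injective φ' φ.injective
  exact Module.Finite.of_restrictScalars_finite (Subring.center R) R Q

include hφ in
/-- every finitely generated module embeds in a power of Q -/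
theorem exists_embedding [IsArtinianRing (Subring.center R)] [Module.Finite (Subring.center R) R]
    (hE : Module.Injective (Subring.center R) E)
    (f : ((Subring.center R) ⧸ (⊥ : Ideal (Subring.center R)).jacobson) →ₗ[Subring.center R] E)
    (hf : Function.Injective f)
    (M : Type) [AddCommGroup M] [Module R M] [Module.Finite R M] :
    ∃ (n : ℕ) (e : M →ₗ[R] (Fin n → Q)), Function.Injective e := by
  have hart : IsArtinianRing R := IsArtinianRing.of_finite (Subring.center R) R
  have hMart : IsArtinian R M := inferInstance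
  let S : Set (Submodule R M) := {K | ∃ (n : ℕ) (e : M →ₗ[R] (Fin n → Q)), K = LinearMap.ker e}
  have hS : S.Nonempty := ⟨⊤, 0, 0, by rw [LinearMap.ker_zero]⟩
  obtain ⟨K, ⟨n, e, hKe⟩, hmin⟩ := IsArtinian.set_has_minimal S hS
  refine ⟨n, e, ?_⟩
  rw [← LinearMap.ker_eq_bot, ← hKe]
  by_contra hne
  obtain ⟨x, hxK, hx0⟩ := (Submodule.ne_bot_iff K).mp hne
  obtain ⟨g, hg⟩ := exists_nonzero hE f hf x hx0
  obtain ⟨v, hv⟩ := exists_hom φ hφ g
  have hvx : v x ≠ 0 := by
    intro h0
    apply hg
    have h1 := hv x 1
    rw [h0, map_zero, one_smul] at h1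
    exact h1.symm
  let e' : M →ₗ[R] (Fin (n + 1) → Q) := LinearMap.pi (Fin.cons v (fun i => LinearMap.proj i ∘ₗ e))
  have hlt : LinearMap.ker e' < K := by
    refine lt_of_le_of_ne ?_ ?_
    · intro y hy
      rw [hKe, LinearMap.mem_ker]
      funext i
      have h1 := congrFun (LinearMap.mem_ker.mp hy) i.succ
      exact h1
    · intro h
      have h1 : x ∈ LinearMap.ker e' := by rw [h]; exact hxK
      have h2 := congrFun (LinearMap.mem_ker.mp h1) 0
      exact hvx h2
  exact hmin _ ⟨n + 1, e', rfl⟩ hlt

end Dual

end Pool.Agent.Helper426Tach
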