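import Pool.Agent.Helper426_Tach.Defs2
import Pool.Agent.Helper426_Tach.Core2
import Pool.Agent.Helper426_Tach.ExtPart
import Pool.Agent.Helper426_Tach.Matlis

set_option autoImplicit false
open CategoryTheory

namespace Pool.Agent.Helper426Tach

/-- the kernel of a split epimorphism from an injective module is injective -/
theorem retract_inj {R : Type} [Ring R] {A B C : Type} [AddCommGroup A] [Module R A]
    [AddCommGroup B] [Module R B] [AddCommGroup C] [Module R C]
    (ι : A →ₗ[R] B) (π : B →ₗ[R] C) (hι : Function.Injective ι) (hex : Function.Exact ι π)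
    (s : C →ₗ[R] B) (hs : π ∘ₗ s = LinearMap.id) (hB : Module.Injective R B) :
    Module.Injective R A := by
  let d : B →ₗ[R] B := LinearMap.id - s ∘ₗ π
  have hmem : ∀ b : B, d b ∈ LinearMap.range ι := by
    intro b
    rw [LinearMap.mem_range]
    apply (hex _).mp
    have h1 := LinearMap.congr_fun hs (π b)
    simp only [LinearMap.comp_apply, LinearMap.id_apply] at h1
    simp only [d, LinearMap.sub_apply, LinearMap.id_apply, LinearMap.comp_apply, map_sub, h1,
      sub_self]
  let e := LinearEquiv.ofInjective ι hι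
  let ρ : B →ₗ[R] A := e.symm.toLinearMap ∘ₗ (d.codRestrict _ hmem)
  have hρ : ∀ b, ι (ρ b) = b - s (π b) := by
    intro b
    have h1 := LinearEquiv.apply_symm_apply e ⟨d b, hmem b⟩
    exact congrArg Subtype.val h1
  refine ⟨fun X Y _ _ _ _ f hf u => ?_⟩
  obtain ⟨h, hh⟩ := hB.out f hf (ι ∘ₗ u)
  refine ⟨ρ ∘ₗ h, fun x => ?_⟩
  apply hι
  rw [LinearMap.comp_apply, hρ, hh, LinearMap.comp_apply, (hex _).mpr ⟨u x, rfl⟩, map_zero,
    sub_zero]

/-- existence of a coresolution by powers of Q -/
theorem exists_coseq {R : Type} [Ring R] {Q : ModuleCat.{0} R} (hfQ : Module.Finite R Q)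
    (hQ : Module.Injective R Q)
    (hemb : ∀ (M : ModuleCat.{0} R), Module.Finite R M →
      ∃ (n : ℕ) (e : M →ₗ[R] (Fin n → Q)), Function.Injective e)
    (M : ModuleCat.{0} R) (hM : Module.Finite R M) :
    ∃ (Z : ℕ → ModuleCat.{0} R) (r : ℕ → ℕ) (ι : ∀ i, Z i →ₗ[R] (Fin (r i) → Q))
      (π : ∀ i, (Fin (r i) → Q) →ₗ[R] Z (i + 1)),
      Z 0 = M ∧ (∀ i, Module.Finite R (Z i)) ∧
      (∀ i, Function.Injective (ι i)) ∧ (∀ i, Function.Exact (ι i) (π i)) ∧
      (∀ i, Function.Surjective (π i)) ∧ (∀ i, IsCosyz R i M (Z i)) := by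
  classical
  choose! n e he using hemb
  let next : {M : ModuleCat.{0} R // Module.Finite R M} → {M : ModuleCat.{0} R // Module.Finite R M} :=
    fun X => ⟨ModuleCat.of R ((Fin (n X.1) → Q) ⧸ LinearMap.range (e X.1)), by
      have := hfQ
      change Module.Finite R ((Fin (n X.1) → Q) ⧸ LinearMap.range (e X.1))
      infer_instance⟩
  let Zs : ℕ → {M : ModuleCat.{0} R // Module.Finite R M} :=
    fun i => Nat.rec ⟨M, hM⟩ (fun _ X => next X) i
  refine ⟨fun i => (Zs i).1, fun i => n (Zs i).1, fun i => e (Zs i).1,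
    fun i => (LinearMap.range (e (Zs i).1)).mkQ, rfl, fun i => (Zs i).2,
    fun i => he _ (Zs i).2, fun i => LinearMap.exact_map_mkQ_range _,
    fun i => Submodule.mkQ_surjective _, ?_⟩
  intro i
  induction i with
  | zero => exact IsCosyz.zero M
  | succ i ih =>
    refine IsCosyz.succ (I := ModuleCat.of R (Fin (n (Zs i).1) → Q)) ih (e (Zs i).1)
      (LinearMap.range (e (Zs i).1)).mkQ ?_ (injective_pow hQ _) (he _ (Zs i).2)
      (LinearMap.exact_map_mkQ_range _) (Submodule.mkQ_surjective _)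
    have := hfQ
    change Module.Finite R (Fin (n (Zs i).1) → Q)
    infer_instance

section
variable {R : Type} [Ring R] [HasExt.{0} (ModuleCat.{0} R)]
variable {Q : ModuleCat.{0} R} {Z : ℕ → ModuleCat.{0} R} {r : ℕ → ℕ}
  (ι : ∀ i, Z i →ₗ[R] (Fin (r i) → Q)) (π : ∀ i, (Fin (r i) → Q) →ₗ[R] Z (i + 1))
  (hι : ∀ i, Function.Injective (ι i)) (hex : ∀ i, Function.Exact (ι i) (π i))
  (hπ : ∀ i, Function.Surjective (π i))
  (hQ : Module.Injective R Q)

include hι hex hπ hQ in
theorem chainD {D : ModuleCat.{0} R} : ∀ i m,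
    Subsingleton (Abelian.Ext.{0} D (Z 0) (m + 1 + i)) →
    Subsingleton (Abelian.Ext.{0} D (Z i) (m + 1)) := by
  intro i
  induction i with
  | zero => intro m hm; exact hm
  | succ i ih =>
    intro m hm
    refine ez_cov3 (A := Z i) (B := ModuleCat.of R (Fin (r i) → Q)) (C := Z (i + 1)) (ι i) (π i)
      (hι i) (hex i) (hπ i) ?_ ?_
    · exact ez_injective (I := ModuleCat.of R (Fin (r i) → Q)) (injective_pow hQ (r i)) m
    · apply ih (m + 1)
      have h1 : m + 1 + 1 + i = m + 1 + (i + 1) := by omega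
      rw [h1]
      exact hm

include hι hex hπ hQ in
theorem chainD_lift {D : ModuleCat.{0} R} (i : ℕ)
    (h : Subsingleton (Abelian.Ext.{0} D (Z 0) (i + 1)))
    (φ : D →ₗ[R] Z (i + 1)) : ∃ ψ : D →ₗ[R] (Fin (r i) → Q), π i ∘ₗ ψ = φ := by
  refine lift_of_ez (A := Z i) (B := ModuleCat.of R (Fin (r i) → Q)) (C := Z (i + 1)) (ι i) (π i)
      (hι i) (hex i) (hπ i) ?_ φ
  apply chainD ι π hι hex hπ hQ i 0
  have h1 : 0 + 1 + i = i + 1 := by omega
  rw [h1]
  exact h

end

/-- The main theorem, cosyzygy form with negligible summands. -/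
theorem main_cosyz2 (R : Type) [Ring R] [HasExt.{0} (ModuleCat.{0} R)]
    (hart : IsArtinianRing (Subring.center R)) (hfin : Module.Finite (Subring.center R) R)
    (Q : ModuleCat.{0} R) (hfQ : Module.Finite R Q) (hQ : Module.Injective R Q)
    (hemb : ∀ (M : ModuleCat.{0} R), Module.Finite R M →
      ∃ (n : ℕ) (e : M →ₗ[R] (Fin n → Q)), Function.Injective e)
    (N : ℕ) (G : Fin N → ModuleCat.{0} R) (hG : ∀ a, Module.Finite R (G a))
    (S : Finset ℕ) (J : ℕ) (hS : 2 * N < S.card) (hSJ : ∀ j ∈ S, 1 ≤ j ∧ j ≤ J)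
    (hIT : ∀ j ∈ S, ∀ Y : ModuleCat.{0} R,
      IsCosyz R j (ModuleCat.of R R) Y → TwoStepCo R G j (J + 1) Y)
    (hExt : ∀ i, 1 ≤ i → i ≤ J + 2 → Subsingleton (Abelian.Ext.{0} Q (ModuleCat.of R R) i)) :
    Module.Injective R R := by
  classical
  obtain ⟨Z, r, ι, π, hZ0, hZf, hι, hex, hπ, hcos⟩ := exists_coseq hfQ hQ hemb (ModuleCat.of R R)
    (by change Module.Finite R R; infer_instance)
  have h0 : Module.Projective R (Z 0) := by
    rw [hZ0]
    change Module.Projective R R
    infer_instance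
  have hT : ∀ m, m < J + 2 → Subsingleton (Abelian.Ext.{0} Q (Z 0) (m + 1)) := by
    intro m hm
    rw [hZ0]
    exact hExt (m + 1) (by omega) (by omega)
  -- descent: if Z p is injective then R is injective
  have hdesc : ∀ p, p ≤ J → Module.Injective R (Z p) → Module.Injective R (Z 0) := by
    intro p
    induction p with
    | zero => intro _ h; exact h
    | succ p ih =>
      intro hp hinj
      apply ih (by omega)
      obtain ⟨m, e, he⟩ := hemb (Z (p + 1)) (hZf (p + 1))
      obtain ⟨s, hs⟩ := chain_liftInj ι π hι hex hπ hQ (J + 2) hT hinj m e he p (by omega)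
        LinearMap.id
      have h1 := retract_inj (ι p) (π p) (hι p) (hex p) s hs (injective_pow hQ (r p))
      exact h1
  -- existence of a split one
  have hsplit : ∃ p, p + 1 ∈ S ∧
      ∃ s : Z (p + 1) →ₗ[R] (Fin (r p) → Q), π p ∘ₗ s = LinearMap.id := by
    by_contra hno
    push Not at hno
    have hkfin : ∀ i, Module.Finite (Subring.center R) (Z i) := by
      intro i
      have := hZf i
      exact Module.Finite.trans R (Z i)
    have hIfin : ∀ i, Module.Finite (Subring.center R) (Fin (r i) → Q) := by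
      intro i
      have := hfQ
      exact Module.Finite.trans R (Fin (r i) → Q)
    let S' : Finset ℕ := S.image (fun j => j - 1)
    have hS'card : S'.card = S.card := by
      apply Finset.card_image_of_injOn
      intro a ha b hb hab
      have h1 := hSJ a ha
      have h2 := hSJ b hb
      have h3 : a - 1 = b - 1 := hab
      omega
    have hS'mem : ∀ p, p ∈ S' → p + 1 ∈ S := by
      intro p hp
      obtain ⟨j, hj, rfl⟩ := Finset.mem_image.mp hp
      have h1 := hSJ j hj
      have h2 : j - 1 + 1 = j := by omega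
      rw [h2]
      exact hj
    have hS'J : ∀ p ∈ S', p + 1 ≤ J := fun p hp => (hSJ _ (hS'mem p hp)).2
    have hdata : ∀ p, ∃ (m0 m1 : Fin N → ℕ), p ∈ S' →
        ((∑ a, ((m1 a : ℤ) - m0 a) * dfc (Subring.center R) R (G a) (Z (p + 1))
            (Fin (r (p + 1)) → Q) (Z (p + 1 + 1)) ≠ 0) ∧
          ∀ i, p < i → i ≤ J - 1 →
            ∑ a, ((m1 a : ℤ) - m0 a) * dfc (Subring.center R) R (G a) (Z (i + 1))
              (Fin (r (i + 1)) → Q) (Z (i + 1 + 1)) = 0) ∨
        ((∑ a, ((m1 a : ℤ) - m0 a) * dfc (Subring.center R) R (G a) (Z p) (Fin (r p) → Q)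
            (Z (p + 1)) ≠ 0) ∧
          ∀ i, p < i → i ≤ J - 1 →
            ∑ a, ((m1 a : ℤ) - m0 a) * dfc (Subring.center R) R (G a) (Z i) (Fin (r i) → Q)
              (Z (i + 1)) = 0) := by
      intro p
      by_cases hp : p ∈ S'
      · have hp' := hS'J p hp
        obtain ⟨W, D0, D1, m0, m1, f, g, hWf, hWi, hD0f, hD1f, hD0, hD1, hf, hfg, hg⟩ :=
          hIT (p + 1) (hS'mem p hp) (Z (p + 1)) (by simpa using hcos (p + 1))
        refine ⟨m0, m1, fun _ => ?_⟩
        obtain ⟨mW, eW, heW⟩ := hemb W hWf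
        have := hG
        have := hWf
        have := hD0f
        have := hD1f
        exact step2 (k := Subring.center R) (R := R) (G := fun a => G a) (Z := fun i => Z i)
          (I := fun i => (Fin (r i) → Q)) (Wt := W) (D0 := D0) (D1 := D1)
          ι π hι hex (fun i => injective_pow hQ (r i))
          p (J - 1) (by omega)
          (fun i h1 h2 => chain_lift ι π hι hex hπ hQ (J + 2) hT h0 (p + 1) i (by omega)
            (by omega))
          (fun i h1 h2 => chain_ext ι π hι hex hπ hQ (J + 2) hT h0 (p + 1) i (by omega)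
            (by omega))
          hWi
          (fun i h1 h2 => chain_liftInj ι π hι hex hπ hQ (J + 2) hT hWi mW eW heW i
            (by omega))
          (fun i h1 h2 => chainD_lift ι π hι hex hπ hQ i
            (by rw [hZ0]; exact hD0 (i + 1) (by omega) (by omega)))
          (fun i h1 h2 => chainD_lift ι π hι hex hπ hQ i
            (by rw [hZ0]; exact hD1 (i + 1) (by omega) (by omega)))
          m0 m1 f g hf hfg hg
          (fun ⟨s, hs⟩ => hno p (hS'mem p hp) s hs)
      · exact ⟨0, 0, fun h => absurd h hp⟩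
    choose m0 m1 hm using hdata
    refine numeric_core' S' (by omega) (fun p a => (m1 p a : ℤ) - m0 p a)
      (fun i a => dfc (Subring.center R) R (G a) (Z i) (Fin (r i) → Q) (Z (i + 1))) ?_
    intro p hp
    rcases hm p hp with h | h
    · left
      exact ⟨h.1, fun i hi hpi => h.2 i hpi (by have := hS'J i hi; omega)⟩
    · right
      exact ⟨h.1, fun i hi hpi => h.2 i hpi (by have := hS'J i hi; omega)⟩
  obtain ⟨p, hp, s, hs⟩ := hsplit
  have h1 : Module.Injective R (Z p) :=
    retract_inj (ι p) (π p) (hι p) (hex p) s hs (injective_pow hQ (r p))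
  have h2 := hdesc p (by have := hSJ _ hp; omega) h1
  rw [hZ0] at h2
  exact h2

end Pool.Agent.Helper426Tach
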