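import Pool.Agent.Helper426_Tach.Core

set_option autoImplicit false

namespace Pool.Agent.Helper426Tach

section Second
variable {k : Type} [CommRing k] [IsArtinianRing k] {R : Type} [Ring R] [Algebra k R]
variable {M A B : Type} [AddCommGroup M] [Module R M] [Module.Finite R M]
  [AddCommGroup A] [Module R A] [Module k A] [IsScalarTower k R A] [Module.Finite k A]
  [AddCommGroup B] [Module R B] [Module k B] [IsScalarTower k R B] [Module.Finite k B]

theorem hl_prod_right : hl k R M (A × B) = hl k R M A + hl k R M B := by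
  unfold hl
  rw [← len_prod]
  refine len_equiv (LinearEquiv.symm ?_)
  exact
    { toFun := fun u => LinearMap.prod u.1 u.2
      invFun := fun v => (LinearMap.fst R A B ∘ₗ v, LinearMap.snd R A B ∘ₗ v)
      left_inv := by
        intro u
        rfl
      right_inv := by
        intro v
        rfl
      map_add' := by
        intro u v
        rfl
      map_smul' := by
        intro c u
        rfl }

theorem hl_pi_right {ι : Type} [Fintype ι] (G : ι → Type) [∀ i, AddCommGroup (G i)]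
    [∀ i, Module R (G i)] [∀ i, Module k (G i)] [∀ i, IsScalarTower k R (G i)]
    [∀ i, Module.Finite k (G i)] :
    hl k R M (∀ i, G i) = ∑ i, hl k R M (G i) := by
  unfold hl
  rw [← len_pi]
  refine len_equiv (LinearEquiv.symm ?_)
  exact
    { toFun := fun u => LinearMap.pi u
      invFun := fun v i => LinearMap.proj i ∘ₗ v
      left_inv := by
        intro u
        rfl
      right_inv := by
        intro v
        rfl
      map_add' := by
        intro u v
        rfl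
      map_smul' := by
        intro c u
        rfl }

theorem hl_sum_right {N : ℕ} (G : Fin N → Type) [∀ i, AddCommGroup (G i)]
    [∀ i, Module R (G i)] [∀ i, Module k (G i)] [∀ i, IsScalarTower k R (G i)]
    [∀ i, Module.Finite k (G i)] (m : Fin N → ℕ) :
    hl k R M (∀ a, Fin (m a) → G a) = ∑ a, (m a : ℤ) * hl k R M (G a) := by
  rw [hl_pi_right]
  refine Finset.sum_congr rfl fun a _ => ?_
  rw [hl_pi_right]
  simp

end Second

section Defect
variable {k : Type} [CommRing k] [IsArtinianRing k] {R : Type} [Ring R] [Algebra k R]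

/-- The alternating sum hl A X - hl B X + hl C X of a short exact sequence A → B → C. -/
noncomputable def dfs (k : Type) [CommRing k] (R : Type) [Ring R] [Algebra k R]
    (A B C X : Type) [AddCommGroup X] [Module R X] [Module k X] [IsScalarTower k R X]
    [AddCommGroup A] [Module R A] [AddCommGroup B] [Module R B] [AddCommGroup C] [Module R C] : ℤ :=
  hl k R A X - hl k R B X + hl k R C X

variable {Z1 P0 Z0 Y B0 B1 : Type}
  [AddCommGroup Z0] [Module R Z0] [AddCommGroup P0] [Module R P0]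
  [AddCommGroup Z1] [Module R Z1]
  [AddCommGroup Y] [Module R Y] [Module k Y] [IsScalarTower k R Y]
  [AddCommGroup B0] [Module R B0] [Module k B0] [IsScalarTower k R B0]
  [AddCommGroup B1] [Module R B1] [Module k B1] [IsScalarTower k R B1]

omit [IsArtinianRing k] in
/-- Basic identity: the change of the defect along B1 → B0. -/
theorem dfs_change :
    dfs k R Z1 P0 Z0 B1 - dfs k R Z1 P0 Z0 B0 =
      (hl k R Z1 Y - hl k R Z1 B0 + hl k R Z1 B1) - (hl k R P0 Y - hl k R P0 B0 + hl k R P0 B1)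
      + (hl k R Z0 Y - hl k R Z0 B0 + hl k R Z0 B1) - dfs k R Z1 P0 Z0 Y := by
  unfold dfs
  ring

end Defect

section Main
variable {k : Type} [CommRing k] [IsArtinianRing k] {R : Type} [Ring R] [Algebra k R]
variable {N : ℕ} {G : Fin N → Type} [∀ a, AddCommGroup (G a)] [∀ a, Module R (G a)]
  [∀ a, Module k (G a)] [∀ a, IsScalarTower k R (G a)] [∀ a, Module.Finite k (G a)]
variable {Z P : ℕ → Type} [∀ i, AddCommGroup (Z i)] [∀ i, Module R (Z i)]
  [∀ i, Module k (Z i)] [∀ i, IsScalarTower k R (Z i)] [∀ i, Module.Finite k (Z i)]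
  [∀ i, Module.Finite R (Z i)]
  [∀ i, AddCommGroup (P i)] [∀ i, Module R (P i)] [∀ i, Module.Finite R (P i)]
variable {Wt D0 D1 : Type} [AddCommGroup Wt] [Module R Wt]
  [Module k Wt] [IsScalarTower k R Wt] [Module.Finite k Wt]
  [AddCommGroup D0] [Module R D0] [Module k D0] [IsScalarTower k R D0] [Module.Finite k D0]
  [AddCommGroup D1] [Module R D1] [Module k D1] [IsScalarTower k R D1] [Module.Finite k D1]

/-- pairing of the multiplicity vector with the defect vector -/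
theorem pairing_eq_s (i : ℕ) (m0 m1 : Fin N → ℕ) :
    ∑ a, ((m1 a : ℤ) - m0 a) * dfs k R (Z (i + 1)) (P i) (Z i) (G a) =
      dfs k R (Z (i + 1)) (P i) (Z i) (∀ a, Fin (m1 a) → G a) -
      dfs k R (Z (i + 1)) (P i) (Z i) (∀ a, Fin (m0 a) → G a) := by
  unfold dfs
  rw [hl_sum_right, hl_sum_right, hl_sum_right, hl_sum_right, hl_sum_right, hl_sum_right]
  simp only [← Finset.sum_sub_distrib, ← Finset.sum_add_distrib]
  exact Finset.sum_congr rfl fun a _ => by ring

theorem proj_lift {Q : Type} [AddCommGroup Q] [Module R Q] (hQ : Module.Projective R Q)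
    {A B : Type} [AddCommGroup A] [Module R A] [AddCommGroup B] [Module R B]
    (g : A →ₗ[R] B) (hg : Function.Surjective g) (φ : Q →ₗ[R] B) :
    ∃ ψ : Q →ₗ[R] A, g ∘ₗ ψ = φ :=
  Module.projective_lifting_property g φ hg

/-- One index of the syzygy argument, with negligible summands D0 and D1 allowed. -/
theorem stepS (κ : ∀ i, Z (i + 1) →ₗ[R] P i) (ρ : ∀ i, P i →ₗ[R] Z i)
    (hρ : ∀ i, Function.Surjective (ρ i))
    (hex : ∀ i, Function.Exact (κ i) (ρ i))
    (hP : ∀ i, Module.Projective R (P i))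
    (p M : ℕ) (hp : p ≤ M)
    (ext : ∀ i, p < i → i ≤ M + 1 → ∀ φ : Z (i + 1) →ₗ[R] Z (p + 1),
      ∃ ψ : P i →ₗ[R] Z (p + 1), ψ ∘ₗ κ i = φ)
    (lift : ∀ i, p + 1 < i → i ≤ M + 2 → ∀ φ : Z i →ₗ[R] Z (p + 1),
      ∃ ψ : Z i →ₗ[R] P (p + 1), ρ (p + 1) ∘ₗ ψ = φ)
    (hW : Module.Projective R Wt)
    (extW : ∀ i, p ≤ i → i ≤ M + 1 → ∀ φ : Z (i + 1) →ₗ[R] Wt,
      ∃ ψ : P i →ₗ[R] Wt, ψ ∘ₗ κ i = φ)
    (extD0 : ∀ i, p ≤ i → i ≤ M + 1 → ∀ φ : Z (i + 1) →ₗ[R] D0,
      ∃ ψ : P i →ₗ[R] D0, ψ ∘ₗ κ i = φ)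
    (extD1 : ∀ i, p ≤ i → i ≤ M + 1 → ∀ φ : Z (i + 1) →ₗ[R] D1,
      ∃ ψ : P i →ₗ[R] D1, ψ ∘ₗ κ i = φ)
    (m0 m1 : Fin N → ℕ)
    (f : ((∀ a, Fin (m1 a) → G a) × D1) →ₗ[R] ((∀ a, Fin (m0 a) → G a) × D0))
    (g : ((∀ a, Fin (m0 a) → G a) × D0) →ₗ[R] (Z (p + 1) × Wt))
    (hf : Function.Injective f) (hfg : Function.Exact f g) (hg : Function.Surjective g)
    (hns : ¬ ∃ s : P p →ₗ[R] Z (p + 1), s ∘ₗ κ p = LinearMap.id) :
    ((∑ a, ((m1 a : ℤ) - m0 a) * dfs k R (Z (p + 1 + 1)) (P (p + 1)) (Z (p + 1)) (G a) ≠ 0) ∧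
      ∀ i, p < i → i ≤ M →
        ∑ a, ((m1 a : ℤ) - m0 a) * dfs k R (Z (i + 1 + 1)) (P (i + 1)) (Z (i + 1)) (G a) = 0) ∨
    ((∑ a, ((m1 a : ℤ) - m0 a) * dfs k R (Z (p + 1)) (P p) (Z p) (G a) ≠ 0) ∧
      ∀ i, p < i → i ≤ M →
        ∑ a, ((m1 a : ℤ) - m0 a) * dfs k R (Z (i + 1)) (P i) (Z i) (G a) = 0) := by
  -- abbreviations
  let Y := Z (p + 1) × Wt
  let B0 := (∀ a, Fin (m0 a) → G a) × D0
  let B1 := (∀ a, Fin (m1 a) → G a) × D1
  have hsplit : ∀ (i : ℕ) (A B : Type) [AddCommGroup A] [Module R A] [Module k A]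
      [IsScalarTower k R A] [Module.Finite k A]
      [AddCommGroup B] [Module R B] [Module k B] [IsScalarTower k R B] [Module.Finite k B],
      dfs k R (Z (i + 1)) (P i) (Z i) (A × B) =
      dfs k R (Z (i + 1)) (P i) (Z i) A + dfs k R (Z (i + 1)) (P i) (Z i) B := by
    intro i A B _ _ _ _ _ _ _ _ _ _
    unfold dfs
    rw [hl_prod_right, hl_prod_right, hl_prod_right]
    ring
  have hWz : ∀ i, p ≤ i → i ≤ M + 1 → dfs k R (Z (i + 1)) (P i) (Z i) Wt = 0 := by
    intro i h1 h2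
    exact (hl_contra (k := k) (κ i) (ρ i) (hρ i) (hex i)).mpr (extW i h1 h2)
  have hD0z : ∀ i, p ≤ i → i ≤ M + 1 → dfs k R (Z (i + 1)) (P i) (Z i) D0 = 0 := by
    intro i h1 h2
    exact (hl_contra (k := k) (κ i) (ρ i) (hρ i) (hex i)).mpr (extD0 i h1 h2)
  have hD1z : ∀ i, p ≤ i → i ≤ M + 1 → dfs k R (Z (i + 1)) (P i) (Z i) D1 = 0 := by
    intro i h1 h2
    exact (hl_contra (k := k) (κ i) (ρ i) (hρ i) (hex i)).mpr (extD1 i h1 h2)
  have hZz : ∀ i, p < i → i ≤ M + 1 → dfs k R (Z (i + 1)) (P i) (Z i) (Z (p + 1)) = 0 := by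
    intro i h1 h2
    exact (hl_contra (k := k) (κ i) (ρ i) (hρ i) (hex i)).mpr (ext i h1 h2)
  have hYsplit : ∀ i, dfs k R (Z (i + 1)) (P i) (Z i) Y =
      dfs k R (Z (i + 1)) (P i) (Z i) (Z (p + 1)) + dfs k R (Z (i + 1)) (P i) (Z i) Wt := by
    intro i
    exact hsplit i (Z (p + 1)) Wt
  have hYz : ∀ i, p < i → i ≤ M + 1 → dfs k R (Z (i + 1)) (P i) (Z i) Y = 0 := by
    intro i h1 h2
    rw [hYsplit, hWz i h1.le h2, hZz i h1 h2, add_zero]
  have hcP : ∀ i, hl k R (P i) Y - hl k R (P i) B0 + hl k R (P i) B1 = 0 := by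
    intro i
    exact (hl_cov (k := k) f g hf hfg).mpr (proj_lift (hP i) g hg)
  have hcZ : ∀ i, p + 1 < i → i ≤ M + 2 →
      hl k R (Z i) Y - hl k R (Z i) B0 + hl k R (Z i) B1 = 0 := by
    intro i h1 h2
    refine (hl_cov (k := k) f g hf hfg).mpr ?_
    intro φ
    obtain ⟨ψ1, hψ1⟩ := lift i h1 h2 (LinearMap.fst R (Z (p + 1)) Wt ∘ₗ φ)
    obtain ⟨u, hu⟩ := proj_lift (hP (p + 1)) g hg (LinearMap.inl R (Z (p + 1)) Wt ∘ₗ ρ (p + 1))
    obtain ⟨w, hw⟩ := proj_lift hW g hg (LinearMap.inr R (Z (p + 1)) Wt)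
    refine ⟨u ∘ₗ ψ1 + w ∘ₗ (LinearMap.snd R (Z (p + 1)) Wt ∘ₗ φ), ?_⟩
    refine LinearMap.ext fun x => ?_
    have h3 := LinearMap.congr_fun hu (ψ1 x)
    have h4 := LinearMap.congr_fun hw (φ x).2
    have h5 := LinearMap.congr_fun hψ1 x
    simp only [LinearMap.comp_apply, LinearMap.fst_apply, LinearMap.inl_apply,
      LinearMap.inr_apply] at h3 h4 h5
    simp only [LinearMap.comp_apply, LinearMap.add_apply, LinearMap.snd_apply, map_add, h3, h4, h5]
    exact Prod.ext (by simp) (by simp)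
  have key : ∀ i, p ≤ i → i ≤ M + 1 →
      ∑ a, ((m1 a : ℤ) - m0 a) * dfs k R (Z (i + 1)) (P i) (Z i) (G a) =
      (hl k R (Z (i + 1)) Y - hl k R (Z (i + 1)) B0 + hl k R (Z (i + 1)) B1)
      - (hl k R (P i) Y - hl k R (P i) B0 + hl k R (P i) B1)
      + (hl k R (Z i) Y - hl k R (Z i) B0 + hl k R (Z i) B1) - dfs k R (Z (i + 1)) (P i) (Z i) Y
      := by
    intro i h1 h2
    rw [pairing_eq_s]
    have h3 := hsplit i (∀ a, Fin (m0 a) → G a) D0
    have h4 := hsplit i (∀ a, Fin (m1 a) → G a) D1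
    rw [hD0z i h1 h2, add_zero] at h3
    rw [hD1z i h1 h2, add_zero] at h4
    rw [← h3, ← h4]
    exact dfs_change
  by_cases hsp : hl k R (Z (p + 1)) Y - hl k R (Z (p + 1)) B0 + hl k R (Z (p + 1)) B1 = 0
  · -- split case
    right
    have hlift := (hl_cov (k := k) f g hf hfg).mp hsp
    obtain ⟨r1, hr1⟩ := hlift (LinearMap.inl R (Z (p + 1)) Wt)
    obtain ⟨r2, hr2⟩ := proj_lift hW g hg (LinearMap.inr R (Z (p + 1)) Wt)
    have hsec : ∀ y : Y, g (r1 y.1 + r2 y.2) = y := by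
      intro y
      have h1 := LinearMap.congr_fun hr1 y.1
      have h2 := LinearMap.congr_fun hr2 y.2
      simp only [LinearMap.comp_apply, LinearMap.inl_apply, LinearMap.inr_apply] at h1 h2
      rw [map_add, h1, h2]
      exact Prod.ext (by simp) (by simp)
    have hall : ∀ i, hl k R (Z i) Y - hl k R (Z i) B0 + hl k R (Z i) B1 = 0 := by
      intro i
      refine (hl_cov (k := k) f g hf hfg).mpr ?_
      intro φ
      refine ⟨r1 ∘ₗ (LinearMap.fst R (Z (p + 1)) Wt ∘ₗ φ) +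
        r2 ∘ₗ (LinearMap.snd R (Z (p + 1)) Wt ∘ₗ φ), ?_⟩
      refine LinearMap.ext fun y => ?_
      exact hsec (φ y)
    refine ⟨?_, ?_⟩
    · rw [key p le_rfl (by omega), hall, hall, hcP, hYsplit, hWz p le_rfl (by omega)]
      intro h0
      have h1 : dfs k R (Z (p + 1)) (P p) (Z p) (Z (p + 1)) = 0 := by omega
      have h2 := (hl_contra (k := k) (κ p) (ρ p) (hρ p) (hex p)).mp h1
      exact hns (h2 LinearMap.id)
    · intro i h1 h2
      rw [key i h1.le (by omega), hall, hall, hcP, hYz i h1 (by omega)]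
      ring
  · left
    refine ⟨?_, ?_⟩
    · rw [key (p + 1) (by omega) (by omega), hcZ (p + 1 + 1) (by omega) (by omega), hcP,
        hYz (p + 1) (by omega) (by omega)]
      simpa using hsp
    · intro i h1 h2
      rw [key (i + 1) (by omega) (by omega), hcZ (i + 1 + 1) (by omega) (by omega), hcP,
        hcZ (i + 1) (by omega) (by omega), hYz (i + 1) (by omega) (by omega)]
      ring

end Main

end Pool.Agent.Helper426Tach
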