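import Pool.Agent.Helper426_Tach.ExtPart

set_option autoImplicit false
open CategoryTheory

namespace Pool.Agent.Helper426Tach

section
variable {R : Type} [Ring R] [HasExt.{0} (ModuleCat.{0} R)]
variable {A B C : ModuleCat.{0} R} (f : A →ₗ[R] B) (g : B →ₗ[R] C)
  (hf : Function.Injective f) (hfg : Function.Exact f g) (hg : Function.Surjective g)

include hf hg hfg in
theorem ez_cov1 {X : ModuleCat.{0} R} {n : ℕ} (h2 : Subsingleton (Abelian.Ext.{0} X B (n + 1)))
    (h3 : Subsingleton (Abelian.Ext.{0} X C n)) : Subsingleton (Abelian.Ext.{0} X A (n + 1)) := by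
  have hS := sc_shortExact f g hf hfg hg
  refine subsingleton_of_forall_eq 0 fun x => ?_
  obtain ⟨y, hy⟩ := Abelian.Ext.covariant_sequence_exact₁ X hS x (h2.elim _ _) rfl
  have : y = 0 := h3.elim _ _
  rw [← hy, this, Abelian.Ext.zero_comp]

include hf hg hfg in
theorem ez_cov2 {X : ModuleCat.{0} R} {n : ℕ} (h1 : Subsingleton (Abelian.Ext.{0} X A n))
    (h3 : Subsingleton (Abelian.Ext.{0} X C n)) : Subsingleton (Abelian.Ext.{0} X B n) := by
  have hS := sc_shortExact f g hf hfg hg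
  refine subsingleton_of_forall_eq 0 fun x => ?_
  obtain ⟨y, hy⟩ := Abelian.Ext.covariant_sequence_exact₂ X hS x (h3.elim _ _)
  have : y = 0 := h1.elim _ _
  rw [← hy, this, Abelian.Ext.zero_comp]

include hf hg hfg in
theorem ez_contra1 {Y : ModuleCat.{0} R} {n : ℕ} (h2 : Subsingleton (Abelian.Ext.{0} B Y n))
    (h3 : Subsingleton (Abelian.Ext.{0} C Y (n + 1))) :
    Subsingleton (Abelian.Ext.{0} A Y n) := by
  have hS := sc_shortExact f g hf hfg hg
  refine subsingleton_of_forall_eq 0 fun x => ?_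
  obtain ⟨y, hy⟩ := Abelian.Ext.contravariant_sequence_exact₁ hS Y x (Nat.add_comm 1 n)
    (h3.elim _ _)
  have : y = 0 := h2.elim _ _
  rw [← hy, this, Abelian.Ext.comp_zero]

theorem ez_retract_right {X W Y : ModuleCat.{0} R} {n : ℕ} (s : Y →ₗ[R] W) (r : W →ₗ[R] Y)
    (hrs : r ∘ₗ s = LinearMap.id) (h : Subsingleton (Abelian.Ext.{0} X W n)) :
    Subsingleton (Abelian.Ext.{0} X Y n) := by
  refine subsingleton_of_forall_eq 0 fun x => ?_
  have h1 : ModuleCat.ofHom s ≫ ModuleCat.ofHom r = 𝟙 Y := by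
    rw [← ModuleCat.ofHom_comp, hrs]
    rfl
  have h2 : (x.comp (Abelian.Ext.mk₀ (ModuleCat.ofHom s)) (add_zero n)).comp
      (Abelian.Ext.mk₀ (ModuleCat.ofHom r)) (add_zero n) = x := by
    rw [Abelian.Ext.comp_assoc_of_second_deg_zero, Abelian.Ext.mk₀_comp_mk₀, h1,
      Abelian.Ext.comp_mk₀_id]
  have h3 : x.comp (Abelian.Ext.mk₀ (ModuleCat.ofHom s)) (add_zero n) = 0 := h.elim _ _
  rw [← h2, h3, Abelian.Ext.zero_comp]

/-- Ext vanishing passes from Y to the powers of Y. -/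
theorem ez_pow_right {X Y : ModuleCat.{0} R} {n : ℕ}
    (h : Subsingleton (Abelian.Ext.{0} X Y (n + 1))) (r : ℕ) :
    Subsingleton (Abelian.Ext.{0} X (ModuleCat.of R (Fin r → Y)) (n + 1)) := by
  induction r with
  | zero =>
    refine ez_injective ?_ n
    change Module.Injective R (Fin 0 → Y)
    exact ⟨fun _ _ _ _ _ _ _ _ _ => ⟨0, fun x => Subsingleton.elim _ _⟩⟩
  | succ r ih =>
    let e : (Fin (r + 1) → Y) ≃ₗ[R] Y × (Fin r → Y) := Fin.consLinearEquiv R (fun _ => Y) |>.symm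
    have h2 : Subsingleton (Abelian.Ext.{0} X (ModuleCat.of R (Y × (Fin r → Y))) (n + 1)) := by
      refine ez_cov2 (A := Y) (B := ModuleCat.of R (Y × (Fin r → Y)))
        (C := ModuleCat.of R (Fin r → Y)) (LinearMap.inl R Y (Fin r → Y))
        (LinearMap.snd R Y (Fin r → Y)) LinearMap.inl_injective ?_ LinearMap.snd_surjective h ih
      intro x
      constructor
      · intro hx
        exact ⟨x.1, Prod.ext rfl hx.symm⟩
      · rintro ⟨a, rfl⟩
        rfl
    refine ez_retract_right (W := ModuleCat.of R (Y × (Fin r → Y))) e.toLinearMap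
      e.symm.toLinearMap ?_ h2
    exact LinearMap.ext fun x => e.symm_apply_apply x

/-- Ext vanishing passes from R to finitely generated projective modules. -/
theorem ez_fgproj {X W : ModuleCat.{0} R} {n : ℕ}
    (h : Subsingleton (Abelian.Ext.{0} X (ModuleCat.of R R) (n + 1)))
    (hW : Module.Projective R W) (hWf : Module.Finite R W) :
    Subsingleton (Abelian.Ext.{0} X W (n + 1)) := by
  obtain ⟨r, g, hg⟩ := Module.Finite.exists_fin' R W
  obtain ⟨s, hs⟩ := Module.projective_lifting_property g LinearMap.id hg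
  exact ez_retract_right (W := ModuleCat.of R (Fin r → R)) s g hs
    (ez_pow_right (Y := ModuleCat.of R R) h r)

end

section Chain
variable {R : Type} [Ring R] [HasExt.{0} (ModuleCat.{0} R)]
variable {Z P : ℕ → ModuleCat.{0} R}
  (κ : ∀ i, Z (i + 1) →ₗ[R] P i) (ρ : ∀ i, P i →ₗ[R] Z i)
  (hκ : ∀ i, Function.Injective (κ i)) (hex : ∀ i, Function.Exact (κ i) (ρ i))
  (hρ : ∀ i, Function.Surjective (ρ i))
  (hP : ∀ i, Module.Projective R (P i)) (hPf : ∀ i, Module.Finite R (P i))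

include hκ hex hρ hP in
/-- Ext from the i-th syzygy. -/
theorem chainSD {D : ModuleCat.{0} R} : ∀ i m,
    Subsingleton (Abelian.Ext.{0} (Z 0) D (m + 1 + i)) →
    Subsingleton (Abelian.Ext.{0} (Z i) D (m + 1)) := by
  intro i
  induction i with
  | zero => intro m hm; exact hm
  | succ i ih =>
    intro m hm
    refine ez_contra1 (A := Z (i + 1)) (B := P i) (C := Z i) (κ i) (ρ i)
      (hκ i) (hex i) (hρ i) ?_ ?_
    · exact ez_projective (hP i) m
    · apply ih (m + 1)
      have h1 : m + 1 + 1 + i = m + 1 + (i + 1) := by omega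
      rw [h1]
      exact hm

include hκ hex hρ hP in
theorem chainSD_ext {D : ModuleCat.{0} R} (i : ℕ)
    (h : Subsingleton (Abelian.Ext.{0} (Z 0) D (i + 1)))
    (φ : Z (i + 1) →ₗ[R] D) : ∃ ψ : P i →ₗ[R] D, ψ ∘ₗ κ i = φ := by
  refine ext_of_ez (A := Z (i + 1)) (B := P i) (C := Z i) (κ i) (ρ i)
      (hκ i) (hex i) (hρ i) ?_ φ
  apply chainSD κ ρ hκ hex hρ hP i 0
  have h1 : 0 + 1 + i = i + 1 := by omega
  rw [h1]
  exact h

variable (T : ℕ)
  (hA : ∀ m, m < T → Subsingleton (Abelian.Ext.{0} (Z 0) (Z 0) (m + 1)))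
  (hR : ∀ m, m < T → Subsingleton (Abelian.Ext.{0} (Z 0) (ModuleCat.of R R) (m + 1)))

include hκ hex hρ hP hPf hA hR in
theorem chainSP : ∀ j i, j ≤ i → i < T → Subsingleton (Abelian.Ext.{0} (Z i) (Z j) 1) := by
  intro j
  induction j with
  | zero =>
    intro i _ hi
    apply chainSD κ ρ hκ hex hρ hP i 0
    have h1 : 0 + 1 + i = i + 1 := by omega
    rw [h1]
    exact hA i hi
  | succ j ih =>
    intro i hji hiT
    obtain ⟨i, rfl⟩ : ∃ i', i = i' + 1 := ⟨i - 1, by omega⟩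
    refine ez_contra1 (A := Z (i + 1)) (B := P i) (C := Z i) (κ i) (ρ i)
      (hκ i) (hex i) (hρ i) (ez_projective (hP i) 0) ?_
    refine ez_cov1 (A := Z (j + 1)) (B := P j) (C := Z j) (κ j) (ρ j)
      (hκ j) (hex j) (hρ j) ?_ ?_
    · apply chainSD κ ρ hκ hex hρ hP i 1
      have h1 : 1 + 1 + i = (i + 1) + 1 := by omega
      rw [h1]
      exact ez_fgproj (hR (i + 1) hiT) (hP j) (hPf j)
    · exact ih i (by omega) (by omega)

include hκ hex hρ hP hPf hA hR in
/-- maps from later syzygies to the j-th one lift to the projective module above it -/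
theorem chainS_lift (j i : ℕ) (hji : j < i) (hi : i < T)
    (φ : Z i →ₗ[R] Z j) : ∃ ψ : Z i →ₗ[R] P j, ρ j ∘ₗ ψ = φ :=
  lift_of_ez (A := Z (j + 1)) (B := P j) (C := Z j) (κ j) (ρ j)
      (hκ j) (hex j) (hρ j) (chainSP κ ρ hκ hex hρ hP hPf T hA hR (j + 1) i hji hi) φ

include hκ hex hρ hP hPf hA hR in
/-- maps from the (i+1)-st syzygy to the j-th one extend to the i-th projective module -/
theorem chainS_ext (j i : ℕ) (hji : j ≤ i) (hi : i < T)
    (φ : Z (i + 1) →ₗ[R] Z j) : ∃ ψ : P i →ₗ[R] Z j, ψ ∘ₗ κ i = φ :=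
  ext_of_ez (A := Z (i + 1)) (B := P i) (C := Z i) (κ i) (ρ i)
      (hκ i) (hex i) (hρ i) (chainSP κ ρ hκ hex hρ hP hPf T hA hR j i hji hi) φ

include hκ hex hρ hP hR in
/-- maps from syzygies to finitely generated projective modules extend -/
theorem chainS_extProj {W : ModuleCat.{0} R} (hW : Module.Projective R W)
    (hWf : Module.Finite R W) (i : ℕ) (hi : i < T)
    (φ : Z (i + 1) →ₗ[R] W) : ∃ ψ : P i →ₗ[R] W, ψ ∘ₗ κ i = φ :=
  chainSD_ext κ ρ hκ hex hρ hP i (ez_fgproj (hR i hi) hW hWf) φ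

end Chain

end Pool.Agent.Helper426Tach
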