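import Pool.Agent.Helper426_Tach.DefsS
import Pool.Agent.Helper426_Tach.CoreS
import Pool.Agent.Helper426_Tach.ExtS

set_option autoImplicit false
open CategoryTheory

namespace Pool.Agent.Helper426Tach

/-- the cokernel of a split monomorphism into a projective module is projective -/
theorem retract_proj {R : Type} [Ring R] {A B C : Type} [AddCommGroup A] [Module R A]
    [AddCommGroup B] [Module R B] [AddCommGroup C] [Module R C]
    (κ : A →ₗ[R] B) (ρ : B →ₗ[R] C) (hex : Function.Exact κ ρ) (hρ : Function.Surjective ρ)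
    (s : B →ₗ[R] A) (hs : s ∘ₗ κ = LinearMap.id) (hB : Module.Projective R B) :
    Module.Projective R C := by
  let d : B →ₗ[R] B := LinearMap.id - κ ∘ₗ s
  have hker : LinearMap.ker ρ ≤ LinearMap.ker d := by
    intro b hb
    obtain ⟨a, rfl⟩ := (hex b).mp hb
    have h1 := LinearMap.congr_fun hs a
    simp only [LinearMap.comp_apply, LinearMap.id_apply] at h1
    simp only [d, LinearMap.mem_ker, LinearMap.sub_apply, LinearMap.id_apply,
      LinearMap.comp_apply, h1, sub_self]
  let e := ρ.quotKerEquivOfSurjective hρ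
  let t : C →ₗ[R] B := ((LinearMap.ker ρ).liftQ d hker) ∘ₗ e.symm.toLinearMap
  refine Module.Projective.of_split t ρ ?_
  refine LinearMap.ext fun c => ?_
  obtain ⟨b, rfl⟩ := hρ c
  have h1 : e.symm (ρ b) = Submodule.Quotient.mk b := by
    rw [LinearEquiv.symm_apply_eq]
    rfl
  have h2 : t (ρ b) = d b := by
    change ((LinearMap.ker ρ).liftQ d hker) (e.symm (ρ b)) = d b
    rw [h1]
    rfl
  rw [LinearMap.comp_apply, h2, LinearMap.id_apply]
  simp only [d, LinearMap.sub_apply, LinearMap.id_apply, LinearMap.comp_apply, map_sub]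
  rw [(hex (κ (s b))).mpr ⟨s b, rfl⟩, sub_zero]

/-- existence of a resolution by finitely generated free modules -/
theorem exists_resseq {R : Type} [Ring R] [IsNoetherianRing R]
    (M : ModuleCat.{0} R) (hM : Module.Finite R M) :
    ∃ (Z P : ℕ → ModuleCat.{0} R) (κ : ∀ i, Z (i + 1) →ₗ[R] P i) (ρ : ∀ i, P i →ₗ[R] Z i),
      Z 0 = M ∧ (∀ i, Module.Finite R (Z i)) ∧ (∀ i, Module.Finite R (P i)) ∧
      (∀ i, Module.Projective R (P i)) ∧
      (∀ i, Function.Injective (κ i)) ∧ (∀ i, Function.Exact (κ i) (ρ i)) ∧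
      (∀ i, Function.Surjective (ρ i)) ∧ (∀ i, IsSyz R i M (Z i)) := by
  classical
  have hex : ∀ (X : ModuleCat.{0} R), Module.Finite R X →
      ∃ (n : ℕ) (g : (Fin n → R) →ₗ[R] X), Function.Surjective g :=
    fun X hX => Module.Finite.exists_fin' R X
  choose! n g hg using hex
  let next : {M : ModuleCat.{0} R // Module.Finite R M} → {M : ModuleCat.{0} R // Module.Finite R M} :=
    fun X => ⟨ModuleCat.of R (LinearMap.ker (g X.1)), by
      change Module.Finite R (LinearMap.ker (g X.1))
      infer_instance⟩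
  let Zs : ℕ → {M : ModuleCat.{0} R // Module.Finite R M} :=
    fun i => Nat.rec ⟨M, hM⟩ (fun _ X => next X) i
  have hfin : ∀ m : ℕ, Module.Finite R (ModuleCat.of R (Fin m → R)) := by
    intro m
    change Module.Finite R (Fin m → R)
    infer_instance
  have hproj : ∀ m : ℕ, Module.Projective R (ModuleCat.of R (Fin m → R)) := by
    intro m
    change Module.Projective R (Fin m → R)
    infer_instance
  refine ⟨fun i => (Zs i).1, fun i => ModuleCat.of R (Fin (n (Zs i).1) → R),
    fun i => (LinearMap.ker (g (Zs i).1)).subtype, fun i => g (Zs i).1, rfl,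
    fun i => (Zs i).2, fun i => hfin _, fun i => hproj _,
    fun i => Submodule.injective_subtype _, fun i => LinearMap.exact_subtype_ker_map _,
    fun i => hg _ (Zs i).2, ?_⟩
  intro i
  induction i with
  | zero => exact IsSyz.zero M
  | succ i ih =>
    exact IsSyz.succ (P := ModuleCat.of R (Fin (n (Zs i).1) → R)) ih
      (LinearMap.ker (g (Zs i).1)).subtype (g (Zs i).1) (hfin _) (hproj _)
      (Submodule.injective_subtype _) (LinearMap.exact_subtype_ker_map _) (hg _ (Zs i).2)

/-- The main theorem, syzygy form with negligible summands. -/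
theorem main_syz (R : Type) [Ring R] [HasExt.{0} (ModuleCat.{0} R)]
    (hart : IsArtinianRing (Subring.center R)) (hfin : Module.Finite (Subring.center R) R)
    (A : ModuleCat.{0} R) (hAf : Module.Finite R A)
    (N : ℕ) (G : Fin N → ModuleCat.{0} R) (hG : ∀ a, Module.Finite R (G a))
    (S : Finset ℕ) (J : ℕ) (hS : 2 * N < S.card) (hSJ : ∀ j ∈ S, 1 ≤ j ∧ j ≤ J)
    (hIT : ∀ j ∈ S, ∀ Y : ModuleCat.{0} R,
      IsSyz R j A Y → TwoStepSyz R A G j (J + 1) Y)
    (hAA : ∀ i, 1 ≤ i → i ≤ J + 2 → Subsingleton (Abelian.Ext.{0} A A i))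
    (hAR : ∀ i, 1 ≤ i → i ≤ J + 2 → Subsingleton (Abelian.Ext.{0} A (ModuleCat.of R R) i)) :
    Module.Projective R A := by
  classical
  have hartR : IsArtinianRing R := IsArtinianRing.of_finite (Subring.center R) R
  obtain ⟨Z, P, κ, ρ, hZ0, hZf, hPf, hP, hκ, hex, hρ, hsyz⟩ := exists_resseq A hAf
  have hTA : ∀ m, m < J + 2 → Subsingleton (Abelian.Ext.{0} (Z 0) (Z 0) (m + 1)) := by
    intro m hm
    rw [hZ0]
    exact hAA (m + 1) (by omega) (by omega)
  have hTR : ∀ m, m < J + 2 →
      Subsingleton (Abelian.Ext.{0} (Z 0) (ModuleCat.of R R) (m + 1)) := by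
    intro m hm
    rw [hZ0]
    exact hAR (m + 1) (by omega) (by omega)
  -- descent: if Z p is projective then A is projective
  have hdesc : ∀ p, p ≤ J → Module.Projective R (Z p) → Module.Projective R (Z 0) := by
    intro p
    induction p with
    | zero => intro _ h; exact h
    | succ p ih =>
      intro hp hproj
      apply ih (by omega)
      obtain ⟨s, hs⟩ := chainS_extProj κ ρ hκ hex hρ hP (J + 2) hTR hproj (hZf (p + 1)) p
        (by omega) LinearMap.id
      exact retract_proj (κ p) (ρ p) (hex p) (hρ p) s hs (hP p)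
  -- existence of a split one
  have hsplit : ∃ p, p + 1 ∈ S ∧
      ∃ s : P p →ₗ[R] Z (p + 1), s ∘ₗ κ p = LinearMap.id := by
    by_contra hno
    push Not at hno
    have hkfin : ∀ i, Module.Finite (Subring.center R) (Z i) := by
      intro i
      have := hZf i
      exact Module.Finite.trans R (Z i)
    have hGfin : ∀ a, Module.Finite (Subring.center R) (G a) := by
      intro a
      have := hG a
      exact Module.Finite.trans R (G a)
    let S' : Finset ℕ := S.image (fun j => j - 1)
    have hS'card : S'.card = S.card := by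
      apply Finset.card_image_of_injOn
      intro a ha b hb hab
      have h1 := hSJ a ha
      have h2 := hSJ b hb
      have h3 : a - 1 = b - 1 := hab
      omega
    have hS'mem : ∀ p, p ∈ S' → p + 1 ∈ S := by
      intro p hp
      obtain ⟨j, hj, rfl⟩ := Finset.mem_image.mp hp
      have h1 := hSJ j hj
      have h2 : j - 1 + 1 = j := by omega
      rw [h2]
      exact hj
    have hS'J : ∀ p ∈ S', p + 1 ≤ J := fun p hp => (hSJ _ (hS'mem p hp)).2
    have hdata : ∀ p, ∃ (m0 m1 : Fin N → ℕ), p ∈ S' →
        ((∑ a, ((m1 a : ℤ) - m0 a) * dfs (Subring.center R) R (Z (p + 1 + 1)) (P (p + 1))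
            (Z (p + 1)) (G a) ≠ 0) ∧
          ∀ i, p < i → i ≤ J - 1 →
            ∑ a, ((m1 a : ℤ) - m0 a) * dfs (Subring.center R) R (Z (i + 1 + 1)) (P (i + 1))
              (Z (i + 1)) (G a) = 0) ∨
        ((∑ a, ((m1 a : ℤ) - m0 a) * dfs (Subring.center R) R (Z (p + 1)) (P p) (Z p)
            (G a) ≠ 0) ∧
          ∀ i, p < i → i ≤ J - 1 →
            ∑ a, ((m1 a : ℤ) - m0 a) * dfs (Subring.center R) R (Z (i + 1)) (P i) (Z i)
              (G a) = 0) := by
      intro p
      by_cases hp : p ∈ S'
      · have hp' := hS'J p hp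
        obtain ⟨W, D0, D1, m0, m1, f, g, hWf, hWp, hD0f, hD1f, hD0, hD1, hf, hfg, hg⟩ :=
          hIT (p + 1) (hS'mem p hp) (Z (p + 1)) (hsyz (p + 1))
        refine ⟨m0, m1, fun _ => ?_⟩
        have := hG
        have := hWf
        have := hD0f
        have := hD1f
        have h1 : Module.Finite (Subring.center R) W := Module.Finite.trans R W
        have h2 : Module.Finite (Subring.center R) D0 := Module.Finite.trans R D0
        have h3 : Module.Finite (Subring.center R) D1 := Module.Finite.trans R D1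
        exact stepS (k := Subring.center R) (R := R) (G := fun a => G a) (Z := fun i => Z i)
          (P := fun i => P i) (Wt := W) (D0 := D0) (D1 := D1)
          κ ρ hρ hex hP
          p (J - 1) (by omega)
          (fun i h1 h2 => chainS_ext κ ρ hκ hex hρ hP hPf (J + 2) hTA hTR (p + 1) i (by omega)
            (by omega))
          (fun i h1 h2 => chainS_lift κ ρ hκ hex hρ hP hPf (J + 2) hTA hTR (p + 1) i (by omega)
            (by omega))
          hWp
          (fun i h1 h2 => chainS_extProj κ ρ hκ hex hρ hP (J + 2) hTR hWp hWf i (by omega))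
          (fun i h1 h2 => chainSD_ext κ ρ hκ hex hρ hP i
            (by rw [hZ0]; exact hD0 (i + 1) (by omega) (by omega)))
          (fun i h1 h2 => chainSD_ext κ ρ hκ hex hρ hP i
            (by rw [hZ0]; exact hD1 (i + 1) (by omega) (by omega)))
          m0 m1 f g hf hfg hg
          (fun ⟨s, hs⟩ => hno p (hS'mem p hp) s hs)
      · exact ⟨0, 0, fun h => absurd h hp⟩
    choose m0 m1 hm using hdata
    refine numeric_core' S' (by omega) (fun p a => (m1 p a : ℤ) - m0 p a)
      (fun i a => dfs (Subring.center R) R (Z (i + 1)) (P i) (Z i) (G a)) ?_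
    intro p hp
    rcases hm p hp with h | h
    · left
      exact ⟨h.1, fun i hi hpi => h.2 i hpi (by have := hS'J i hi; omega)⟩
    · right
      exact ⟨h.1, fun i hi hpi => h.2 i hpi (by have := hS'J i hi; omega)⟩
  obtain ⟨p, hp, s, hs⟩ := hsplit
  have h1 : Module.Projective R (Z p) := retract_proj (κ p) (ρ p) (hex p) (hρ p) s hs (hP p)
  have h2 := hdesc p (by have := hSJ _ hp; omega) h1
  rw [hZ0] at h2
  exact h2

end Pool.Agent.Helper426Tach
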