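import Pool.Agent.Helper426_Tach.QF2

set_option autoImplicit false
open CategoryTheory

namespace Pool.Agent.Helper426Tach

/-- finite products of projective modules are projective -/
theorem projective_pi {R : Type} [Ring R] {ι : Type} [Fintype ι] (M : ι → Type)
    [∀ i, AddCommGroup (M i)] [∀ i, Module R (M i)] (h : ∀ i, Module.Projective R (M i)) :
    Module.Projective R (∀ i, M i) := by
  classical
  have := h
  exact Module.Projective.of_equiv (DFinsupp.linearEquivFunOnFintype (R := R) (M := M))

section QF
variable {R : Type} [Ring R] [hart : IsArtinianRing (Subring.center R)]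
  [hfin : Module.Finite (Subring.center R) R]

/-- a finite irredundant list of the simple modules -/
theorem exists_simple_family : ∃ (ι : Type) (_ : Fintype ι) (S : ι → ModuleCat.{0} R),
    (∀ a, IsSimpleModule R (S a)) ∧
    (∀ (T : Type) [AddCommGroup T] [Module R T] [IsSimpleModule R T],
      ∃ a, Nonempty (T ≃ₗ[R] S a)) ∧
    ∀ a b, Nonempty (S a ≃ₗ[R] S b) → a = b := by
  classical
  have hartR : IsArtinianRing R := IsArtinianRing.of_finite (Subring.center R) R
  have hfl : IsFiniteLength R R :=
    isFiniteLength_iff_isNoetherian_isArtinian.mpr ⟨inferInstance, inferInstance⟩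
  obtain ⟨n, S, hS, hL⟩ := exists_simple_list hfl
  let s : Setoid (Fin n) :=
    { r := fun a b => Nonempty (S a ≃ₗ[R] S b)
      iseqv :=
        { refl := fun a => ⟨LinearEquiv.refl R _⟩
          symm := fun ⟨e⟩ => ⟨e.symm⟩
          trans := fun ⟨e⟩ ⟨e'⟩ => ⟨e.trans e'⟩ } }
  have hfi : Finite (Quotient s) := inferInstance
  refine ⟨Quotient s, Fintype.ofFinite _, fun c => S (Quotient.out c), fun c => hS _, ?_, ?_⟩
  · intro T _ _ _
    have hnt : Nontrivial T := IsSimpleModule.nontrivial R T
    obtain ⟨t, ht⟩ := exists_ne (0 : T)
    obtain ⟨a, ⟨e⟩⟩ := hL T ⟨LinearMap.toSpanSingleton R T t, by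
      intro h0
      apply ht
      have h1 := LinearMap.congr_fun h0 1
      simpa using h1⟩
    have h2 : s.r (Quotient.out (Quotient.mk s a)) a := Quotient.mk_out a
    obtain ⟨e'⟩ := h2
    exact ⟨Quotient.mk s a, ⟨e.trans e'.symm⟩⟩
  · intro a b h
    have h1 : Quotient.mk s (Quotient.out a) = Quotient.mk s (Quotient.out b) := Quotient.sound h
    rwa [Quotient.out_eq, Quotient.out_eq] at h1

/-- Hom from a simple module to an essential extension of another one -/
theorem simple_hull {W S T : Type} [AddCommGroup W] [Module R W] [AddCommGroup S] [Module R S]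
    [AddCommGroup T] [Module R T] [IsSimpleModule R S] [IsSimpleModule R T]
    (j : S →ₗ[R] W) (hj : Function.Injective j) (U : Submodule R W)
    (hess : ∀ X : Submodule R W, X ≤ U → X ≠ ⊥ → X ⊓ LinearMap.range j ≠ ⊥)
    (ψ : T →ₗ[R] U) (hψ : ψ ≠ 0) : Nonempty (T ≃ₗ[R] S) := by
  have hψi : Function.Injective (U.subtype ∘ₗ ψ) :=
    (Submodule.injective_subtype U).comp (LinearMap.injective_of_ne_zero hψ)
  let X := LinearMap.range (U.subtype ∘ₗ ψ)
  have eT : T ≃ₗ[R] X := LinearEquiv.ofInjective _ hψi
  have eS : S ≃ₗ[R] LinearMap.range j := LinearEquiv.ofInjective _ hj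
  have hX : IsSimpleModule R X := IsSimpleModule.congr eT.symm
  have hA : IsSimpleModule R (LinearMap.range j) := IsSimpleModule.congr eS.symm
  have hXa : IsAtom X := isSimpleModule_iff_isAtom.mp hX
  have hAa : IsAtom (LinearMap.range j) := isSimpleModule_iff_isAtom.mp hA
  have hXU : X ≤ U := by
    rintro _ ⟨t, rfl⟩
    exact (ψ t).2
  have h1 := hess X hXU hXa.1
  have h2 : X ⊓ LinearMap.range j = X := by
    rcases hXa.le_iff.mp (inf_le_left : X ⊓ LinearMap.range j ≤ X) with h | h
    · exact absurd h h1
    · exact h
  have h3 : X ⊓ LinearMap.range j = LinearMap.range j := by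
    rcases hAa.le_iff.mp (inf_le_right : X ⊓ LinearMap.range j ≤ LinearMap.range j) with h | h
    · exact absurd h h1
    · exact h
  have h4 : X = LinearMap.range j := h2.symm.trans h3
  exact ⟨eT.trans ((LinearEquiv.ofEq _ _ h4).trans eS.symm)⟩

/-- An artin algebra with a projective finitely generated injective cogenerator is
self-injective. -/
theorem selfinjective_of_projective (Q : ModuleCat.{0} R) (hfQ : Module.Finite R Q)
    (hQ : Module.Injective R Q)
    (hemb : ∀ (M : ModuleCat.{0} R), Module.Finite R M →
      ∃ (n : ℕ) (e : M →ₗ[R] (Fin n → Q)), Function.Injective e)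
    (hproj : Module.Projective R Q) : Module.Injective R R := by
  classical
  have hartR : IsArtinianRing R := IsArtinianRing.of_finite (Subring.center R) R
  obtain ⟨ι, _, S, hS, hall, hirr⟩ := exists_simple_family (R := R)
  have hSf : ∀ a, Module.Finite R (S a) := by
    intro a
    have := hS a
    infer_instance
  have hSk : ∀ a, Module.Finite (Subring.center R) (S a) := by
    intro a
    have := hSf a
    exact finite_center
  -- the hulls
  have hU : ∀ a, ∃ U : ModuleCat.{0} R, Module.Finite R U ∧ Module.Injective R U ∧
      Module.Projective R U ∧ (∃ ψ : S a →ₗ[R] U, ψ ≠ 0) ∧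
      ∀ b, (∃ ψ : S b →ₗ[R] U, ψ ≠ 0) → b = a := by
    intro a
    obtain ⟨n, j, hj⟩ := hemb (S a) (hSf a)
    have hWf : Module.Finite R (Fin n → Q) := by
      have := hfQ
      infer_instance
    have hWi : Module.Injective R (Fin n → Q) := by
      have := hQ
      infer_instance
    have hWp : Module.Projective R (Fin n → Q) := projective_pi _ fun _ => hproj
    have hWn : IsNoetherian R (Fin n → Q) := inferInstance
    obtain ⟨U, hAU, hess, r, hr⟩ := exists_hull hWi (LinearMap.range j)
    refine ⟨ModuleCat.of R U, ?_, ?_, ?_, ?_, ?_⟩
    · change Module.Finite R U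
      infer_instance
    · change Module.Injective R U
      exact inj_of_retract U.subtype r hr hWi
    · change Module.Projective R U
      exact Module.Projective.of_split U.subtype r hr
    · have hmem : ∀ x, j x ∈ U := fun x => hAU ⟨x, rfl⟩
      refine ⟨j.codRestrict U hmem, ?_⟩
      intro h0
      have := hS a
      have hnt : Nontrivial (S a) := IsSimpleModule.nontrivial R (S a)
      obtain ⟨x, hx⟩ := exists_ne (0 : S a)
      apply hx
      apply hj
      rw [map_zero]
      exact congrArg Subtype.val (LinearMap.congr_fun h0 x)
    · rintro b ⟨ψ, hψ⟩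
      have := hS a
      have := hS b
      exact hirr b a (simple_hull j hj U hess ψ hψ)
  choose U hUf hUi hUp hUne hUeq using hU
  -- the family V
  let V : Option ι → ModuleCat.{0} R := fun c => c.elim (ModuleCat.of R R) U
  have hVf : ∀ c, Module.Finite R (V c) := by
    intro c
    cases c with
    | none =>
      change Module.Finite R R
      infer_instance
    | some a => exact hUf a
  have hVp : ∀ c, Module.Projective R (V c) := by
    intro c
    cases c with
    | none =>
      change Module.Projective R R
      infer_instance
    | some a => exact hUp a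
  have hVk : ∀ c, Module.Finite (Subring.center R) (V c) := by
    intro c
    have := hVf c
    exact finite_center
  let F : (Option ι → ℤ) →ₗ[ℤ] (ι → ℤ) :=
    { toFun := fun x a => ∑ c, x c * hl (Subring.center R) R (V c) (S a)
      map_add' := by
        intro x y
        funext a
        simp only [Pi.add_apply, add_mul, Finset.sum_add_distrib]
      map_smul' := by
        intro m x
        funext a
        simp only [Pi.smul_apply, smul_eq_mul, RingHom.id_apply, Finset.mul_sum, mul_assoc] }
  have hFni : ¬ Function.Injective F := by
    intro h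
    have h1 := card_le_of_injective ℤ F h
    rw [Fintype.card_option] at h1
    omega
  obtain ⟨x, hxF, hx0⟩ : ∃ x, F x = 0 ∧ x ≠ 0 := by
    by_contra hno
    push Not at hno
    apply hFni
    rw [← LinearMap.ker_eq_bot, eq_bot_iff]
    intro x hx
    exact hno x hx
  let PP : Type := ∀ c, Fin (x c).toNat → V c
  let PM : Type := ∀ c, Fin (- x c).toNat → V c
  have hnat : ∀ z : ℤ, ((z.toNat : ℕ) : ℤ) - (((-z).toNat : ℕ) : ℤ) = z := by
    intro z
    omega
  have hleft : ∀ a, hl (Subring.center R) R PP (S a) = hl (Subring.center R) R PM (S a) := by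
    intro a
    have h1 := congrFun hxF a
    have h2 : hl (Subring.center R) R PP (S a) =
        ∑ c, (((x c).toNat : ℕ) : ℤ) * hl (Subring.center R) R (V c) (S a) := by
      change hl (Subring.center R) R (∀ c, Fin (x c).toNat → V c) (S a) = _
      rw [hl_pi]
      exact Finset.sum_congr rfl fun c _ => hl_pow _
    have h3 : hl (Subring.center R) R PM (S a) =
        ∑ c, (((- x c).toNat : ℕ) : ℤ) * hl (Subring.center R) R (V c) (S a) := by
      change hl (Subring.center R) R (∀ c, Fin (- x c).toNat → V c) (S a) = _
      rw [hl_pi]
      exact Finset.sum_congr rfl fun c _ => hl_pow _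
    have h4 : hl (Subring.center R) R PP (S a) - hl (Subring.center R) R PM (S a) = 0 := by
      rw [h2, h3, ← Finset.sum_sub_distrib]
      refine (Finset.sum_congr rfl fun c _ => ?_).trans h1
      rw [← sub_mul, hnat]
    omega
  have hPPf : Module.Finite R PP := by
    change Module.Finite R (∀ c, Fin (x c).toNat → V c)
    infer_instance
  have hPMf : Module.Finite R PM := by
    change Module.Finite R (∀ c, Fin (- x c).toNat → V c)
    infer_instance
  have hPPp : Module.Projective R PP := by
    change Module.Projective R (∀ c, Fin (x c).toNat → V c)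
    exact projective_pi _ fun c => projective_pi _ fun _ => hVp c
  have hPMp : Module.Projective R PM := by
    change Module.Projective R (∀ c, Fin (- x c).toNat → V c)
    exact projective_pi _ fun c => projective_pi _ fun _ => hVp c
  obtain ⟨e⟩ := proj_iso hS hall hPPp hPMp hleft
  -- socle side
  have hright : ∀ a, ∑ c, x c * hl (Subring.center R) R (S a) (V c) = 0 := by
    intro a
    have h1 : hl (Subring.center R) R (S a) PP = hl (Subring.center R) R (S a) PM :=
      hl_congr_right e
    have h2 : hl (Subring.center R) R (S a) PP =
        ∑ c, (((x c).toNat : ℕ) : ℤ) * hl (Subring.center R) R (S a) (V c) := by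
      change hl (Subring.center R) R (S a) (∀ c, Fin (x c).toNat → V c) = _
      rw [hl_pi_right]
      refine Finset.sum_congr rfl fun c _ => ?_
      rw [hl_pi_right]
      simp
    have h3 : hl (Subring.center R) R (S a) PM =
        ∑ c, (((- x c).toNat : ℕ) : ℤ) * hl (Subring.center R) R (S a) (V c) := by
      change hl (Subring.center R) R (S a) (∀ c, Fin (- x c).toNat → V c) = _
      rw [hl_pi_right]
      refine Finset.sum_congr rfl fun c _ => ?_
      rw [hl_pi_right]
      simp
    have h4 : ∑ c, x c * hl (Subring.center R) R (S a) (V c) =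
        hl (Subring.center R) R (S a) PP - hl (Subring.center R) R (S a) PM := by
      rw [h2, h3, ← Finset.sum_sub_distrib]
      refine Finset.sum_congr rfl fun c _ => ?_
      rw [← sub_mul, hnat]
    rw [h4, h1, sub_self]
  have hxn : x none ≠ 0 := by
    intro h0
    apply hx0
    funext c
    cases c with
    | none => exact h0
    | some a =>
      have h1 := hright a
      rw [Fintype.sum_option, h0, zero_mul, zero_add] at h1
      rw [Finset.sum_eq_single a] at h1
      · have h2 : hl (Subring.center R) R (S a) (V (some a)) ≠ 0 := by
          rw [hl_ne_zero_iff]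
          exact hUne a
        exact (mul_eq_zero.mp h1).resolve_right h2
      · intro b _ hba
        have h2 : hl (Subring.center R) R (S a) (V (some b)) = 0 := by
          by_contra h3
          rw [← Ne, hl_ne_zero_iff] at h3
          exact hba (hUeq b a h3).symm
        rw [h2, mul_zero]
      · intro h
        exact absurd (Finset.mem_univ a) h
  -- a power of R that is a product of injective modules
  have hinj : ∀ m : Option ι → ℕ, m none = 0 → Module.Injective R (∀ c, Fin (m c) → V c) := by
    intro m hm
    have h1 : ∀ c, Module.Injective R (Fin (m c) → V c) := by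
      intro c
      cases c with
      | none =>
        rw [hm]
        exact ⟨fun _ _ _ _ _ _ _ _ _ => ⟨0, fun x => Subsingleton.elim _ _⟩⟩
      | some a =>
        have := hUi a
        change Module.Injective R (Fin (m (some a)) → U a)
        infer_instance
    infer_instance
  have hretr : ∀ m : Option ι → ℕ, m none ≠ 0 → Module.Injective R (∀ c, Fin (m c) → V c) →
      Module.Injective R R := by
    intro m hm h
    have h0 : 0 < m none := Nat.pos_of_ne_zero hm
    let pr : (∀ c, Fin (m c) → V c) →ₗ[R] R :=
      { toFun := fun y => y none ⟨0, h0⟩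
        map_add' := fun _ _ => rfl
        map_smul' := fun _ _ => rfl }
    let inc : R →ₗ[R] (∀ c, Fin (m c) → V c) :=
      LinearMap.pi fun c => match c with
        | none => LinearMap.pi fun _ => LinearMap.id
        | some _ => 0
    exact inj_of_retract inc pr (LinearMap.ext fun y => rfl) h
  rcases lt_or_gt_of_ne hxn with hneg | hpos
  · -- x none < 0
    have h1 : Module.Injective R PP := hinj (fun c => (x c).toNat) (by
      change (x none).toNat = 0
      omega)
    have h2 : Module.Injective R PM :=
      inj_of_retract e.symm.toLinearMap e.toLinearMap (LinearMap.ext fun y => e.apply_symm_apply y)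
        h1
    exact hretr (fun c => (- x c).toNat) (by
      change (- x none).toNat ≠ 0
      omega) h2
  · have h1 : Module.Injective R PM := hinj (fun c => (- x c).toNat) (by
      change (- x none).toNat = 0
      omega)
    have h2 : Module.Injective R PP :=
      inj_of_retract e.toLinearMap e.symm.toLinearMap (LinearMap.ext fun y => e.symm_apply_apply y)
        h1
    exact hretr (fun c => (x c).toNat) (by
      change (x none).toNat ≠ 0
      omega) h2

end QF

end Pool.Agent.Helper426Tach
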