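import Pool.Agent.Helper426_Tach.DefsT
import Pool.Agent.Helper426_Tach.Main2
import Pool.Agent.Helper426_Tach.MainS
import Pool.Agent.Helper426_Tach.QF3

set_option autoImplicit false
open CategoryTheory

namespace Pool.Agent.Helper426Tach

theorem syz_of_isSyz {R : Type} [Ring R] {n : ℕ} {M Y : ModuleCat.{0} R} (h : IsSyz R n M Y) :
    Syz R n M Y := by
  induction h with
  | zero M => exact Syz.zero M
  | succ hX f g hfin hproj hf hfg hg ih => exact Syz.succ ih f g hfin hproj ⟨hf, hfg, hg⟩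

theorem cosyz_of_isCosyz {R : Type} [Ring R] {n : ℕ} {M Y : ModuleCat.{0} R}
    (h : IsCosyz R n M Y) : Cosyz R n M Y := by
  induction h with
  | zero M => exact Cosyz.zero M
  | succ hX f g hfin hinj hf hfg hg ih => exact Cosyz.succ ih f g hfin hinj ⟨hf, hfg, hg⟩

theorem twoStepSyz_of {R : Type} [Ring R] [HasExt.{0} (ModuleCat.{0} R)] {A : ModuleCat.{0} R}
    {N : ℕ} {G : Fin N → ModuleCat.{0} R} {s t : ℕ} {Y : ModuleCat.{0} R}
    (h : TwoSyz A G s t Y) : TwoStepSyz R A G s t Y := by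
  obtain ⟨W, D0, D1, m0, m1, f, g, ⟨hf, hfg, hg⟩, hW1, hW2, hD0, hD1, h0, h1⟩ := h
  exact ⟨W, D0, D1, m0, m1, f, g, hW1, hW2, hD0, hD1, h0, h1, hf, hfg, hg⟩

theorem twoStepCo_of {R : Type} [Ring R] [HasExt.{0} (ModuleCat.{0} R)]
    {N : ℕ} {G : Fin N → ModuleCat.{0} R} {s t : ℕ} {Y : ModuleCat.{0} R}
    (h : TwoCosyz G s t Y) : TwoStepCo R G s t Y := by
  obtain ⟨W, D0, D1, m0, m1, f, g, ⟨hf, hfg, hg⟩, hW1, hW2, hD0, hD1, h0, h1⟩ := h
  exact ⟨W, D0, D1, m0, m1, f, g, hW1, hW2, hD0, hD1, h0, h1, hf, hfg, hg⟩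

end Pool.Agent.Helper426Tach
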