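import Pool.Agent.Helper426_Tach.Bridge

set_option autoImplicit false
open CategoryTheory

namespace Pool.Agent.Helper426Tach

section
variable {R : Type} [Ring R] {K P M L Q : Type} [AddCommGroup K] [Module R K]
  [AddCommGroup P] [Module R P] [AddCommGroup M] [Module R M] [AddCommGroup L] [Module R L]
  [AddCommGroup Q] [Module R Q]

theorem schanuel_half (g : P →ₗ[R] M) (f' : L →ₗ[R] Q) (g' : Q →ₗ[R] M)
    (hf' : Function.Injective f') (hfg' : Function.Exact f' g')
    (hg' : Function.Surjective g') (hP : Module.Projective R P) :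
    Nonempty ((LinearMap.ker (g ∘ₗ LinearMap.fst R P Q - g' ∘ₗ LinearMap.snd R P Q)) ≃ₗ[R]
      (L × P)) := by
  let E := LinearMap.ker (g ∘ₗ LinearMap.fst R P Q - g' ∘ₗ LinearMap.snd R P Q)
  let p1 : E →ₗ[R] P := LinearMap.fst R P Q ∘ₗ E.subtype
  let i2 : L →ₗ[R] E := LinearMap.codRestrict E (LinearMap.inr R P Q ∘ₗ f') (by
    intro l
    change g 0 - g' (f' l) = 0
    rw [map_zero, (hfg' _).mpr ⟨l, rfl⟩, sub_zero])
  have hp1 : Function.Surjective p1 := by
    intro p
    obtain ⟨q, hq⟩ := hg' (g p)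
    refine ⟨⟨(p, q), ?_⟩, rfl⟩
    change g p - g' q = 0
    rw [hq, sub_self]
  have hi2 : Function.Injective i2 := by
    intro x y hxy
    have h1 := congrArg (fun z : E => z.1.2) hxy
    exact hf' h1
  have hex : Function.Exact i2 p1 := by
    intro x
    constructor
    · intro hx
      have hx1 : x.1.1 = 0 := hx
      have hx2 : g x.1.1 - g' x.1.2 = 0 := x.2
      rw [hx1, map_zero, zero_sub, neg_eq_zero] at hx2
      obtain ⟨l, hl⟩ := (hfg' _).mp hx2
      exact ⟨l, Subtype.ext (Prod.ext hx1.symm hl)⟩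
    · rintro ⟨l, rfl⟩
      rfl
  obtain ⟨s, hs⟩ := Module.projective_lifting_property p1 LinearMap.id hp1
  exact ⟨(hex.splitSurjectiveEquiv hi2 ⟨s, hs⟩).1⟩

theorem schanuel (f : K →ₗ[R] P) (g : P →ₗ[R] M) (f' : L →ₗ[R] Q) (g' : Q →ₗ[R] M)
    (hf : Function.Injective f) (hfg : Function.Exact f g) (hg : Function.Surjective g)
    (hf' : Function.Injective f') (hfg' : Function.Exact f' g')
    (hg' : Function.Surjective g') (hP : Module.Projective R P) (hQ : Module.Projective R Q) :
    Nonempty ((K × Q) ≃ₗ[R] (L × P)) := by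
  obtain ⟨e1⟩ := schanuel_half g f' g' hf' hfg' hg' hP
  obtain ⟨e2⟩ := schanuel_half g' f g hf hfg hg hQ
  let sw : (LinearMap.ker (g ∘ₗ LinearMap.fst R P Q - g' ∘ₗ LinearMap.snd R P Q)) ≃ₗ[R]
      (LinearMap.ker (g' ∘ₗ LinearMap.fst R Q P - g ∘ₗ LinearMap.snd R Q P)) :=
    { toFun := fun x => ⟨(x.1.2, x.1.1), by
        have h : g x.1.1 - g' x.1.2 = 0 := x.2
        change g' x.1.2 - g x.1.1 = 0
        rw [sub_eq_zero] at h ⊢
        exact h.symm⟩
      invFun := fun x => ⟨(x.1.2, x.1.1), by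
        have h : g' x.1.1 - g x.1.2 = 0 := x.2
        change g x.1.2 - g' x.1.1 = 0
        rw [sub_eq_zero] at h ⊢
        exact h.symm⟩
      left_inv := fun x => rfl
      right_inv := fun x => rfl
      map_add' := fun x y => rfl
      map_smul' := fun r x => rfl }
  exact ⟨(e2.symm.trans sw.symm).trans e1⟩

end

/-- two n-th syzygies of a module are isomorphic up to projective summands -/
theorem syz_schanuel {R : Type} [Ring R] {n : ℕ} {M Y Z : ModuleCat.{0} R}
    (hY : Syz R n M Y) (hZ : Syz R n M Z) :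
    ∃ (P Q : ModuleCat.{0} R), Module.Finite R P ∧ Module.Projective R P ∧ Module.Finite R Q ∧
      Module.Projective R Q ∧ Nonempty ((Y × P) ≃ₗ[R] (Z × Q)) := by
  induction hY generalizing Z with
  | zero M =>
    cases hZ
    have h1 : Module.Finite R PUnit.{1} := inferInstance
    have h2 : Module.Projective R PUnit.{1} := inferInstance
    exact ⟨ModuleCat.of R PUnit.{1}, ModuleCat.of R PUnit.{1}, h1, h2, h1, h2,
      ⟨LinearEquiv.refl R _⟩⟩
  | @succ n M X P0 Y hX f g hfin hproj h ih =>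
    cases hZ with
    | @succ _ _ X' P0' _ hX' f' g' hfin' hproj' h' =>
      obtain ⟨P, Q, hP1, hP2, hQ1, hQ2, ⟨e⟩⟩ := ih hX'
      obtain ⟨hf, hfg, hg⟩ := h
      obtain ⟨hf', hfg', hg'⟩ := h'
      let F : Y →ₗ[R] (P0 × P) := LinearMap.inl R P0 P ∘ₗ f
      let G : (P0 × P) →ₗ[R] (X' × Q) := e.toLinearMap ∘ₗ (g.prodMap LinearMap.id)
      let F' : Z →ₗ[R] (P0' × Q) := LinearMap.inl R P0' Q ∘ₗ f'
      let G' : (P0' × Q) →ₗ[R] (X' × Q) := g'.prodMap LinearMap.id
      have a1 : Function.Injective F := LinearMap.inl_injective.comp hf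
      have a2 : Function.Surjective G := by
        intro y
        obtain ⟨z, hz⟩ := e.surjective y
        obtain ⟨p, hp⟩ := hg z.1
        refine ⟨(p, z.2), ?_⟩
        change e (g p, z.2) = y
        rw [hp, ← hz]
      have a3 : Function.Exact F G := by
        intro x
        constructor
        · intro hx
          have h1 : e (g x.1, x.2) = 0 := hx
          have h2 : (g x.1, x.2) = (0 : X × P) := e.map_eq_zero_iff.mp h1
          have h3 : g x.1 = 0 := congrArg Prod.fst h2
          have h4 : x.2 = 0 := congrArg Prod.snd h2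
          obtain ⟨y, hy⟩ := (hfg _).mp h3
          exact ⟨y, Prod.ext hy h4.symm⟩
        · rintro ⟨y, rfl⟩
          change e (g (f y), 0) = 0
          rw [(hfg _).mpr ⟨y, rfl⟩]
          exact e.map_zero
      have b1 : Function.Injective F' := LinearMap.inl_injective.comp hf'
      have b2 : Function.Surjective G' := by
        intro y
        obtain ⟨p, hp⟩ := hg' y.1
        exact ⟨(p, y.2), Prod.ext hp rfl⟩
      have b3 : Function.Exact F' G' := by
        intro x
        constructor
        · intro hx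
          have h3 : g' x.1 = 0 := congrArg Prod.fst hx
          have h4 : x.2 = 0 := congrArg Prod.snd hx
          obtain ⟨y, hy⟩ := (hfg' _).mp h3
          exact ⟨y, Prod.ext hy h4.symm⟩
        · rintro ⟨y, rfl⟩
          exact Prod.ext ((hfg' _).mpr ⟨y, rfl⟩) rfl
      have p1 : Module.Projective R (P0 × P) := by infer_instance
      have p2 : Module.Projective R (P0' × Q) := by infer_instance
      have q1 : Module.Finite R (P0 × P) := by infer_instance
      have q2 : Module.Finite R (P0' × Q) := by infer_instance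
      obtain ⟨E⟩ := schanuel F G F' G' a1 a3 a2 b1 b3 b2 p1 p2
      exact ⟨ModuleCat.of R (P0' × Q), ModuleCat.of R (P0 × P), q2, p2, q1, p1, ⟨E⟩⟩

/-- syzygies of a self-orthogonal module orthogonal to R are self-orthogonal in degree one -/
theorem syz_rigid {R : Type} [Ring R] [HasExt.{0} (ModuleCat.{0} R)] {n : ℕ}
    {M Y : ModuleCat.{0} R} (hY : Syz R n M Y)
    (hMM : Subsingleton (Abelian.Ext.{0} M M 1))
    (hMR : ∀ i, 1 ≤ i → Subsingleton (Abelian.Ext.{0} M (ModuleCat.of R R) i)) :
    (∀ i, 1 ≤ i → Subsingleton (Abelian.Ext.{0} Y (ModuleCat.of R R) i)) ∧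
      Subsingleton (Abelian.Ext.{0} Y Y 1) := by
  induction hY with
  | zero M => exact ⟨hMR, hMM⟩
  | @succ n M X P Y hX f g hfin hproj h ih =>
    obtain ⟨hf, hfg, hg⟩ := h
    obtain ⟨h1, h2⟩ := ih hMM hMR
    constructor
    · intro i hi
      obtain ⟨i, rfl⟩ : ∃ i', i = i' + 1 := ⟨i - 1, by omega⟩
      exact ez_contra1 f g hf hfg hg (ez_projective hproj i) (h1 (i + 1 + 1) (by omega))
    · refine ez_contra1 f g hf hfg hg (ez_projective hproj 0) ?_
      exact ez_cov1 f g hf hfg hg (ez_fgproj (h1 (1 + 1) (by omega)) hproj hfin) h2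

/-- grouping the factors of a finite product -/
theorem group_factors {R : Type} [Ring R] {N : ℕ} (G : Fin N → ModuleCat.{0} R) {n : ℕ}
    (X : Fin n → ModuleCat.{0} R) (hX : ∀ i, ∃ a, Nonempty (G a ≃ₗ[R] X i)) :
    ∃ m : Fin N → ℕ, Nonempty ((∀ a, Fin (m a) → G a) ≃ₗ[R] (∀ i, X i)) := by
  classical
  choose c hc using hX
  let L : (∀ a, {i : Fin n // c i = a} → G a) →ₗ[R] (∀ i, G (c i)) :=
    { toFun := fun y i => y (c i) ⟨i, rfl⟩
      map_add' := fun x y => rfl
      map_smul' := fun r x => rfl }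
  have hL : Function.Bijective L := by
    constructor
    · intro x y hxy
      funext a i
      obtain ⟨i, rfl⟩ := i
      exact congrFun hxy i
    · intro x
      exact ⟨fun a i => i.2 ▸ x i.1, rfl⟩
  let e1 : (∀ i, G (c i)) ≃ₗ[R] (∀ i, X i) := LinearEquiv.piCongrRight fun i => (hc i).some
  let e2 := LinearEquiv.ofBijective L hL
  let e3 : (∀ a, Fin (Fintype.card {i : Fin n // c i = a}) → G a) ≃ₗ[R]
      (∀ a, {i : Fin n // c i = a} → G a) :=
    LinearEquiv.piCongrRight fun a =>
      LinearEquiv.funCongrLeft R (G a) (Fintype.equivFin {i : Fin n // c i = a})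
  exact ⟨fun a => Fintype.card {i : Fin n // c i = a}, ⟨(e3.trans e2).trans e1⟩⟩

end Pool.Agent.Helper426Tach
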