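import Pool.Agent.Helper426_Tach.DefsT

set_option autoImplicit false
open CategoryTheory

namespace Pool.Agent.Helper426Tach

/-- BddSum d Y: the module Y is isomorphic to a product of finitely many modules, each of which is
generated by d elements (that is, is a quotient of the free module of rank d). -/
def BddSum {R : Type} [Ring R] (d : ℕ) (Y : ModuleCat.{0} R) : Prop :=
  ∃ (n : ℕ) (X : Fin n → ModuleCat.{0} R),
    (∀ i, ∃ g : (Fin d → R) →ₗ[R] X i, Function.Surjective g) ∧ Nonempty (Y ≃ₗ[R] (∀ i, X i))

/-- BddSyz A d: for infinitely many j some j-th syzygy of A is a finite direct sum of modules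
generated by d elements. -/
def BddSyz {R : Type} [Ring R] (A : ModuleCat.{0} R) (d : ℕ) : Prop :=
  ∀ n : ℕ, ∃ j : ℕ, n ≤ j ∧ ∃ Y : ModuleCat.{0} R, Syz R j A Y ∧ BddSum d Y

/-- IsDual C R E Q: the left R-module Q is isomorphic to Hom_C(R, E) with the left action coming from
the right multiplication of R. -/
def IsDual (C : Type) [CommRing C] (R : Type) [Ring R] [Module C R] (E : Type) [AddCommGroup E]
    [Module C E] (Q : ModuleCat.{0} R) : Prop :=
  ∃ φ : Q ≃+ (R →ₗ[C] E), ∀ (r : R) (q : Q) (x : R), φ (r • q) x = φ q (x * r)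

end Pool.Agent.Helper426Tach
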