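import Pool.Agent.Helper426_Tach.Rigid

set_option autoImplicit false
open CategoryTheory

namespace Pool.Agent.Helper426Tach

section
variable (k : Type) [Field k] (R : Type) [Ring R] [Algebra k R] [Module.Finite k R]
  (V : Type) [AddCommGroup V] [Module k V] [Module.Finite k V]

/-- polynomial functions on the set of module structures on V -/
noncomputable def PolyF : Subalgebra k ((R →ₐ[k] Module.End k V) → k) :=
  Algebra.adjoin k (Set.range fun (i : Fin (Module.finrank k
    ((R →ₗ[k] Module.End k V) →ₗ[k] k))) => fun (t : R →ₐ[k] Module.End k V) =>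
      Module.finBasis k ((R →ₗ[k] Module.End k V) →ₗ[k] k) i t.toLinearMap)

theorem polyF_noeth : IsNoetherianRing (PolyF k R V) := by
  apply isNoetherianRing_of_fg
  exact Subalgebra.fg_def.2 ⟨_, Set.finite_range _, rfl⟩

end

section
variable {k : Type} [Field k] {R : Type} [Ring R] [Algebra k R] [Module.Finite k R]
  {V : Type} [AddCommGroup V] [Module k V] [Module.Finite k V]

theorem mem_polyF (Ξ : (R →ₗ[k] Module.End k V) →ₗ[k] k) :
    (fun t : R →ₐ[k] Module.End k V => Ξ t.toLinearMap) ∈ PolyF k R V := by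
  let β := Module.finBasis k ((R →ₗ[k] Module.End k V) →ₗ[k] k)
  have e : (fun t : R →ₐ[k] Module.End k V => Ξ t.toLinearMap) =
      ∑ i, β.repr Ξ i • (fun t : R →ₐ[k] Module.End k V => β i t.toLinearMap) := by
    funext t
    conv_lhs => rw [← β.sum_repr Ξ]
    simp only [LinearMap.sum_apply, LinearMap.smul_apply, Finset.sum_apply, Pi.smul_apply]
  rw [e]
  exact (PolyF k R V).sum_mem fun i _ =>
    (PolyF k R V).smul_mem (Algebra.subset_adjoin ⟨i, rfl⟩) _

theorem dOne_poly (ρ : R →ₐ[k] Module.End k V) (φ : Module.End k V)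
    (ξ : (R →ₗ[k] Module.End k V) →ₗ[k] k) :
    (fun t : R →ₐ[k] Module.End k V => ξ (dOne t ρ φ)) ∈ PolyF k R V := by
  let L : (R →ₗ[k] Module.End k V) →ₗ[k] (R →ₗ[k] Module.End k V) :=
    { toFun := fun t => (LinearMap.mulRight k φ) ∘ₗ t
      map_add' := fun s t => LinearMap.comp_add _ _ _
      map_smul' := fun c t => LinearMap.comp_smul _ _ _ }
  let c : R →ₗ[k] Module.End k V := (LinearMap.mulLeft k φ) ∘ₗ ρ.toLinearMap
  have e : (fun t : R →ₐ[k] Module.End k V => ξ (dOne t ρ φ)) =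
      (fun t : R →ₐ[k] Module.End k V => (ξ ∘ₗ L) t.toLinearMap) - fun _ => ξ c := by
    funext t
    have h1 : dOne t ρ φ = L t.toLinearMap - c := by
      refine LinearMap.ext fun r => ?_
      rfl
    rw [h1, map_sub]
    rfl
  rw [e]
  exact (PolyF k R V).sub_mem (mem_polyF _) (const_mem _ _)

theorem dTwo_poly (ρ : R →ₐ[k] Module.End k V) (ψ : R →ₗ[k] Module.End k V)
    (ξ : (R × R → Module.End k V) →ₗ[k] k) :
    (fun t : R →ₐ[k] Module.End k V => ξ (dTwo t ρ ψ)) ∈ PolyF k R V := by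
  let L : (R →ₗ[k] Module.End k V) →ₗ[k] (R × R → Module.End k V) :=
    { toFun := fun t => fun x => t x.1 * ψ x.2
      map_add' := fun s t => by
        funext x
        exact add_mul (s x.1) (t x.1) (ψ x.2)
      map_smul' := fun c t => by
        funext x
        exact Algebra.smul_mul_assoc c (t x.1) (ψ x.2) }
  let c : R × R → Module.End k V := fun x => - ψ (x.1 * x.2) + ψ x.1 * ρ x.2
  have e : (fun t : R →ₐ[k] Module.End k V => ξ (dTwo t ρ ψ)) =
      (fun t : R →ₐ[k] Module.End k V => (ξ ∘ₗ L) t.toLinearMap) + fun _ => ξ c := by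
    funext t
    have h1 : dTwo t ρ ψ = L t.toLinearMap + c := by
      funext x
      change t x.1 * ψ x.2 - ψ (x.1 * x.2) + ψ x.1 * ρ x.2 =
        t x.1 * ψ x.2 + (- ψ (x.1 * x.2) + ψ x.1 * ρ x.2)
      abel
    rw [h1, map_add]
    rfl
  rw [e]
  exact (PolyF k R V).add_mem (mem_polyF _) (const_mem _ _)

/-- a rigid module structure has an open neighbourhood of isomorphic ones -/
theorem rigid_nbhd [HasExt.{0} (ModuleCat.{0} R)] (ρ : R →ₐ[k] Module.End k V)
    (h : Subsingleton (Abelian.Ext.{0} (ModuleCat.of R (Tw ρ)) (ModuleCat.of R (Tw ρ)) 1)) :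
    ∃ F : PolyF k R V, (F : (R →ₐ[k] Module.End k V) → k) ρ ≠ 0 ∧
      ∀ t, (F : (R →ₐ[k] Module.End k V) → k) t ≠ 0 → Nonempty (Tw ρ ≃ₗ[R] Tw t) := by
  classical
  obtain ⟨F, Φ, hF, hΦ, hFρ, hΦρ, hker⟩ := open_exact (PolyF k R V)
    (fun t => dOne t ρ) (fun t => dTwo t ρ) (fun φ ξ => dOne_poly ρ φ ξ)
    (fun ψ ξ => dTwo_poly ρ ψ ξ) ρ (fun t φ => dTwo_dOne t ρ φ)
    (fun ψ hψ => inner_of_rigid ρ h ψ hψ) 1 (by
      refine LinearMap.ext fun r => ?_
      change ρ r * 1 - 1 * ρ r = 0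
      rw [mul_one, one_mul, sub_self])
  let b := Module.finBasis k V
  have hdet : (fun t => LinearMap.det (Φ t)) ∈ PolyF k R V := by
    have e : (fun t => LinearMap.det (Φ t)) = fun t => (LinearMap.toMatrix b b (Φ t)).det := by
      funext t
      rw [LinearMap.det_toMatrix]
    rw [e]
    refine det_mem _ _ fun i j => ?_
    let ξ : Module.End k V →ₗ[k] k :=
      { toFun := fun f => b.repr (f (b j)) i
        map_add' := fun f g => by
          rw [LinearMap.add_apply, map_add, Finsupp.add_apply]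
        map_smul' := fun c f => by
          rw [LinearMap.smul_apply, map_smul, Finsupp.smul_apply]; rfl }
    have e2 : (fun t => LinearMap.toMatrix b b (Φ t) i j) = fun t => ξ (Φ t) := by
      funext t
      rw [LinearMap.toMatrix_apply]
      rfl
    rw [e2]
    exact hΦ ξ
  refine ⟨⟨_, (PolyF k R V).mul_mem hF hdet⟩, ?_, ?_⟩
  · change F ρ * LinearMap.det (Φ ρ) ≠ 0
    rw [hΦρ, map_one, mul_one]
    exact hFρ
  · intro t ht
    have ht' : F t * LinearMap.det (Φ t) ≠ 0 := ht
    have h1 : F t ≠ 0 := left_ne_zero_of_mul ht'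
    have h2 : LinearMap.det (Φ t) ≠ 0 := right_ne_zero_of_mul ht'
    have h3 := hker t h1
    have h4 : ∀ r v, Φ t (ρ r v) = t r (Φ t v) := by
      intro r v
      have h5 := LinearMap.congr_fun (LinearMap.congr_fun h3 r) v
      have h6 : t r (Φ t v) - Φ t (ρ r v) = 0 := h5
      exact (sub_eq_zero.mp h6).symm
    let e := LinearMap.equivOfDetNeZero (Φ t) h2
    have he : ∀ v, e v = Φ t v := fun v => rfl
    exact ⟨LinearEquiv.ofBijective
      ({ toFun := fun v => Φ t v
         map_add' := fun v w => map_add (Φ t) v w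
         map_smul' := fun r v => h4 r v } : Tw ρ →ₗ[R] Tw t) e.bijective⟩

/-- finitely many rigid module structures up to isomorphism -/
theorem rigid_finite [HasExt.{0} (ModuleCat.{0} R)] (X : Set (R →ₐ[k] Module.End k V))
    (hX : ∀ ρ ∈ X,
      Subsingleton (Abelian.Ext.{0} (ModuleCat.of R (Tw ρ)) (ModuleCat.of R (Tw ρ)) 1)) :
    ∃ Y : Finset (R →ₐ[k] Module.End k V), (↑Y ⊆ X) ∧
      ∀ ρ ∈ X, ∃ σ ∈ Y, Nonempty (Tw σ ≃ₗ[R] Tw ρ) := by
  classical
  have hch : ∀ ρ : R →ₐ[k] Module.End k V, ∃ F : PolyF k R V, ρ ∈ X →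
      (F : (R →ₐ[k] Module.End k V) → k) ρ ≠ 0 ∧
      ∀ t, (F : (R →ₐ[k] Module.End k V) → k) t ≠ 0 → Nonempty (Tw ρ ≃ₗ[R] Tw t) := by
    intro ρ
    by_cases h : ρ ∈ X
    · obtain ⟨F, hF⟩ := rigid_nbhd ρ (hX ρ h)
      exact ⟨F, fun _ => hF⟩
    · exact ⟨0, fun h' => absurd h' h⟩
  choose F hF using hch
  have hN := polyF_noeth k R V
  have hfg : (Submodule.span (PolyF k R V) (F '' X)).FG := IsNoetherian.noetherian _
  obtain ⟨s', hs', hspan⟩ := (Submodule.fg_span_iff_fg_span_finset_subset _).mp hfg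
  obtain ⟨Y, hY, hYs⟩ := Finset.subset_set_image_iff.mp hs'
  refine ⟨Y, hY, fun ρ hρ => ?_⟩
  by_contra hno
  push Not at hno
  have hzero : ∀ σ ∈ Y, (F σ : (R →ₐ[k] Module.End k V) → k) ρ = 0 := by
    intro σ hσ
    by_contra hne
    have := (hF σ (hY hσ)).2 ρ hne
    exact (hno σ hσ).elim this.some
  let ev : PolyF k R V →+* k :=
    (Pi.evalRingHom (fun _ => k) ρ).comp (PolyF k R V).val.toRingHom
  have hle : Submodule.span (PolyF k R V) (↑s' : Set (PolyF k R V)) ≤ RingHom.ker ev := by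
    rw [Submodule.span_le]
    intro x hx
    rw [← hYs] at hx
    obtain ⟨σ, hσ, rfl⟩ := Finset.mem_image.mp hx
    exact hzero σ hσ
  have hmem : F ρ ∈ Submodule.span (PolyF k R V) (F '' X) :=
    Submodule.subset_span ⟨ρ, hρ, rfl⟩
  rw [hspan] at hmem
  exact (hF ρ hρ).1 (hle hmem)

end

/-- over a finite-dimensional algebra there are finitely many isomorphism classes of rigid modules
generated by d elements -/
theorem rigid_reps (k : Type) [Field k] (R : Type) [Ring R] [Algebra k R] [Module.Finite k R]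
    [HasExt.{0} (ModuleCat.{0} R)] (d : ℕ) :
    ∃ (N : ℕ) (G : Fin N → ModuleCat.{0} R), (∀ a, Module.Finite R (G a)) ∧
      ∀ X : ModuleCat.{0} R, (∃ g : (Fin d → R) →ₗ[R] X, Function.Surjective g) →
        Subsingleton (Abelian.Ext.{0} X X 1) → ∃ a, Nonempty (G a ≃ₗ[R] X) := by
  classical
  let D := Module.finrank k (Fin d → R)
  have hch : ∀ e : ℕ, ∃ Y : Finset (R →ₐ[k] Module.End k (Fin e → k)),
      ∀ ρ : R →ₐ[k] Module.End k (Fin e → k),
        Subsingleton (Abelian.Ext.{0} (ModuleCat.of R (Tw ρ)) (ModuleCat.of R (Tw ρ)) 1) →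
        ∃ σ ∈ Y, Nonempty (Tw σ ≃ₗ[R] Tw ρ) := by
    intro e
    obtain ⟨Y, _, hY⟩ := rigid_finite (k := k) (R := R) (V := Fin e → k)
      {ρ | Subsingleton (Abelian.Ext.{0} (ModuleCat.of R (Tw ρ)) (ModuleCat.of R (Tw ρ)) 1)}
      (fun ρ hρ => hρ)
    exact ⟨Y, hY⟩
  choose Y hY using hch
  let ι := Σ e : Fin (D + 1), {ρ : R →ₐ[k] Module.End k (Fin e.1 → k) // ρ ∈ Y e.1}
  let en : ι ≃ Fin (Fintype.card ι) := Fintype.equivFin ι
  have hfinTw : ∀ (e : ℕ) (ρ : R →ₐ[k] Module.End k (Fin e → k)), Module.Finite R (Tw ρ) := by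
    intro e ρ
    let b : Fin e → Tw ρ := fun i => (Pi.single i (1 : k) : Fin e → k)
    refine Module.Finite.of_surjective (Fintype.linearCombination R b) ?_
    intro v
    refine ⟨fun i => algebraMap k R ((v : Fin e → k) i), ?_⟩
    rw [Fintype.linearCombination_apply]
    have h1 : ∀ i, (algebraMap k R ((v : Fin e → k) i) • b i : Tw ρ) =
        (Pi.single i ((v : Fin e → k) i) : Fin e → k) := by
      intro i
      change ρ (algebraMap k R ((v : Fin e → k) i)) (Pi.single i (1 : k)) = _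
      rw [AlgHom.commutes, Module.algebraMap_end_apply, ← Pi.single_smul, smul_eq_mul, mul_one]
    have h2 : (∑ i, (algebraMap k R ((v : Fin e → k) i) • b i : Tw ρ)) =
        ∑ i, (Pi.single i ((v : Fin e → k) i) : Fin e → k) :=
      Finset.sum_congr rfl fun i _ => h1 i
    exact h2.trans (Finset.univ_sum_single (v : Fin e → k))
  refine ⟨Fintype.card ι, fun a => ModuleCat.of R (Tw (en.symm a).2.1), fun a => hfinTw _ _, ?_⟩
  rintro X ⟨g, hg⟩ hXX
  let _ : Module k X := Module.compHom X (algebraMap k R)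
  have _ : IsScalarTower k R X := ⟨fun c r x => by
    rw [Algebra.smul_def, mul_smul]
    rfl⟩
  have hfX : Module.Finite k X := Module.Finite.of_surjective (g.restrictScalars k) hg
  have hle : Module.finrank k X ≤ D :=
    LinearMap.finrank_le_finrank_of_surjective (f := g.restrictScalars k) hg
  let e := Module.finrank k X
  let β : X ≃ₗ[k] (Fin e → k) := (Module.finBasis k X).equivFun
  let ρ : R →ₐ[k] Module.End k (Fin e → k) :=
    ((β.conjAlgEquiv k).toAlgHom).comp (Algebra.lsmul k k X)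
  have hρ : ∀ r x, ρ r (β x) = β (r • x) := by
    intro r x
    change β (r • β.symm (β x)) = β (r • x)
    rw [LinearEquiv.symm_apply_apply]
  let E : X ≃ₗ[R] Tw ρ :=
    { toFun := fun x => β x
      invFun := fun v => β.symm v
      left_inv := β.left_inv
      right_inv := β.right_inv
      map_add' := fun x y => map_add β x y
      map_smul' := fun r x => (hρ r x).symm }
  have hrig : Subsingleton
      (Abelian.Ext.{0} (ModuleCat.of R (Tw ρ)) (ModuleCat.of R (Tw ρ)) 1) := by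
    refine ez_retract (X := ModuleCat.of R (Tw ρ)) (W := X) E.symm.toLinearMap E.toLinearMap
      (LinearMap.ext fun v => E.apply_symm_apply v) ?_
    exact ez_retract_right (Y := ModuleCat.of R (Tw ρ)) (W := X) E.symm.toLinearMap E.toLinearMap
      (LinearMap.ext fun v => E.apply_symm_apply v) hXX
  obtain ⟨σ, hσ, ⟨f⟩⟩ := hY e ρ hrig
  let x : ι := ⟨⟨e, Nat.lt_succ_of_le hle⟩, ⟨σ, hσ⟩⟩
  have h1 : ∀ y : ι, y = x → Nonempty (Tw y.2.1 ≃ₗ[R] X) := by
    rintro y rfl
    exact ⟨f.trans E.symm⟩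
  exact ⟨en x, h1 _ (en.symm_apply_apply x)⟩

end Pool.Agent.Helper426Tach
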