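import Pool.Agent.Helper426_Tach.BddDefs
import Pool.Agent.Helper426_Tach.RigidFin
import Pool.Agent.Helper426_Tach.Schan

set_option autoImplicit false
open CategoryTheory

namespace Pool.Agent.Helper426Tach

theorem isSyz_of_syz {R : Type} [Ring R] {n : ℕ} {M Y : ModuleCat.{0} R} (h : IsSyz R n M Y) :
    Syz R n M Y := syz_of_isSyz h

theorem center_finite (k : Type) [Field k] (R : Type) [Ring R] [Algebra k R] [Module.Finite k R] :
    Module.Finite (Subring.center R) R ∧ IsArtinianRing (Subring.center R) := by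
  have hmap : ∀ c : k, algebraMap k R c ∈ Subring.center R := by
    intro c
    rw [Subring.mem_center_iff]
    intro r
    exact (Algebra.commutes c r).symm
  let f : k →+* Subring.center R := (algebraMap k R).codRestrict _ hmap
  let _ : Algebra k (Subring.center R) := f.toAlgebra
  have hst : IsScalarTower k (Subring.center R) R := ⟨fun c z r => by
    change (algebraMap k R c * z.1) * r = c • (z.1 * r)
    rw [Algebra.smul_def, mul_assoc]⟩
  have hfin : Module.Finite (Subring.center R) R :=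
    Module.Finite.of_restrictScalars_finite k (Subring.center R) R
  have hart : IsArtinianRing (Subring.center R) := by
    have h1 : IsNoetherian k R := inferInstance
    let sub : Subring.center R →ₗ[k] R :=
      { toFun := fun z => z.1
        map_add' := fun x y => rfl
        map_smul' := fun c z => by
          change algebraMap k R c * z.1 = c • z.1
          rw [Algebra.smul_def] }
    have h2 : Module.Finite k (Subring.center R) :=
      Module.Finite.of_injective sub Subtype.val_injective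
    exact IsArtinianRing.of_finite k (Subring.center R)
  exact ⟨hfin, hart⟩

theorem main_bdd (k : Type) [Field k] (R : Type) [Ring R] [Algebra k R] [Module.Finite k R]
    [HasExt.{0} (ModuleCat.{0} R)] (A : ModuleCat.{0} R) (hA : Module.Finite R A)
    (d : ℕ) (h : BddSyz A d)
    (hAA : ∀ i, 1 ≤ i → Subsingleton (Abelian.Ext.{0} A A i))
    (hAR : ∀ i, 1 ≤ i → Subsingleton (Abelian.Ext.{0} A (ModuleCat.of R R) i)) :
    Module.Projective R A := by
  classical
  obtain ⟨hfin, hart⟩ := center_finite k R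
  obtain ⟨N, G, hG, hrep⟩ := rigid_reps k R d
  -- the infinite set of good indices
  let J0 : Set ℕ := {j | 1 ≤ j ∧ ∃ Y : ModuleCat.{0} R, Syz R j A Y ∧ BddSum d Y}
  have hJ0 : J0.Infinite := by
    intro hfinite
    obtain ⟨b, hb⟩ := hfinite.bddAbove
    obtain ⟨j, hj, Y, hY⟩ := h (b + 1)
    have := hb (⟨by omega, Y, hY⟩ : j ∈ J0)
    omega
  obtain ⟨S, hSJ0, hScard⟩ := hJ0.exists_subset_card_eq (2 * N + 1)
  let J := S.sup id
  have hSJ : ∀ j ∈ S, 1 ≤ j ∧ j ≤ J := fun j hj =>
    ⟨(hSJ0 hj).1, Finset.le_sup (f := id) hj⟩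
  refine main_syz R hart hfin A hA N G hG S J (by omega) hSJ ?_ (fun i hi _ => hAA i hi)
    (fun i hi _ => hAR i hi)
  intro j hj Z hZ
  obtain ⟨hj1, Y, hY, n, X, hXg, ⟨e⟩⟩ := hSJ0 hj
  -- the pieces are rigid
  have hYY := (syz_rigid hY (hAA 1 le_rfl) hAR).2
  have hX : ∀ i, ∃ a, Nonempty (G a ≃ₗ[R] X i) := by
    intro i
    refine hrep (X i) (hXg i) ?_
    let s : X i →ₗ[R] Y := e.symm.toLinearMap ∘ₗ LinearMap.single R (fun i => X i) i
    let r : Y →ₗ[R] X i := LinearMap.proj i ∘ₗ e.toLinearMap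
    have hrs : r ∘ₗ s = LinearMap.id := by
      refine LinearMap.ext fun x => ?_
      change (e (e.symm (Pi.single i x))) i = x
      rw [LinearEquiv.apply_symm_apply, Pi.single_eq_same]
    exact ez_retract s r hrs (ez_retract_right s r hrs hYY)
  obtain ⟨m, ⟨E1⟩⟩ := group_factors G X hX
  obtain ⟨P, Q, hP1, hP2, hQ1, hQ2, ⟨E2⟩⟩ := syz_schanuel (isSyz_of_syz hZ) hY
  -- Z × P ≃ Y × Q ≃ (∀ a, Fin (m a) → G a) × Q
  let E : ((∀ a, Fin (m a) → G a) × Q) ≃ₗ[R] (Z × P) :=
    ((E1.trans e.symm).prodCongr (LinearEquiv.refl R Q)).trans E2.symm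
  have hD1 : Module.Finite R PUnit.{1} := inferInstance
  refine ⟨P, Q, ModuleCat.of R PUnit.{1}, m, fun _ => 0, 0, E.toLinearMap, hP1, hP2, hQ1, hD1,
    ?_, ?_, ?_, ?_, E.surjective⟩
  · intro t ht _
    obtain ⟨t, rfl⟩ : ∃ t', t = t' + 1 := ⟨t - 1, by omega⟩
    exact ez_fgproj (hAR (t + 1) (by omega)) hQ2 hQ1
  · intro t ht _
    obtain ⟨t, rfl⟩ : ∃ t', t = t' + 1 := ⟨t - 1, by omega⟩
    refine ez_injective ?_ t
    change Module.Injective R PUnit.{1}
    exact ⟨fun _ _ _ _ _ _ _ _ _ => ⟨0, fun x => Subsingleton.elim _ _⟩⟩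
  · intro x y _
    refine Prod.ext ?_ (Subsingleton.elim _ _)
    funext a i
    exact i.elim0
  · intro x
    constructor
    · intro hx
      exact ⟨0, by rw [map_zero]; exact (E.map_eq_zero_iff.mp hx).symm⟩
    · rintro ⟨y, rfl⟩
      exact E.map_zero

end Pool.Agent.Helper426Tach
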