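import Mathlib

set_option autoImplicit false

namespace Pool.Agent.Helper426Tach

section Kmod
variable {k : Type*} [CommRing k] [IsArtinianRing k]

/-- Integer length of a module. -/
noncomputable def len (k : Type*) [CommRing k] (A : Type*) [AddCommGroup A] [Module k A] : ℤ :=
  ((Module.length k A).toNat : ℤ)

variable {A B C : Type*} [AddCommGroup A] [Module k A] [AddCommGroup B] [Module k B]
  [AddCommGroup C] [Module k C]

theorem len_coe [Module.Finite k A] : ((Module.length k A).toNat : ℕ∞) = Module.length k A :=
  ENat.natCast_toNat Module.length_ne_top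

theorem len_nonneg : 0 ≤ len k A := Int.natCast_nonneg _

theorem len_exact [Module.Finite k B] (f : A →ₗ[k] B) (g : B →ₗ[k] C)
    (hf : Function.Injective f) (hg : Function.Surjective g) (h : Function.Exact f g) :
    len k B = len k A + len k C := by
  have : Module.Finite k A := Module.Finite.of_injective f hf
  have : Module.Finite k C := Module.Finite.of_surjective g hg
  have h1 := Module.length_eq_add_of_exact f g hf hg h
  rw [← len_coe (k := k) (A := A), ← len_coe (k := k) (A := B), ← len_coe (k := k) (A := C)] at h1
  unfold len
  exact_mod_cast h1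

theorem len_equiv (e : A ≃ₗ[k] B) : len k A = len k B := by
  unfold len
  rw [e.length_eq]

theorem len_prod [Module.Finite k A] [Module.Finite k B] : len k (A × B) = len k A + len k B :=
  len_exact (LinearMap.inl k A B) (LinearMap.snd k A B) LinearMap.inl_injective
    LinearMap.snd_surjective (by
      intro x
      constructor
      · intro h
        exact ⟨x.1, Prod.ext rfl h.symm⟩
      · rintro ⟨a, rfl⟩
        rfl)

theorem len_pi {ι : Type*} [Fintype ι] (M : ι → Type*) [∀ i, AddCommGroup (M i)]
    [∀ i, Module k (M i)] [∀ i, Module.Finite k (M i)] :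
    len k (∀ i, M i) = ∑ i, len k (M i) := by
  have h := Module.length_pi_of_fintype (R := k) (M := M)
  have h2 : ∀ i, Module.length k (M i) = ((Module.length k (M i)).toNat : ℕ∞) :=
    fun i => (len_coe (k := k) (A := M i)).symm
  have h3 : Module.length k (∀ i, M i) = ((∑ i, (Module.length k (M i)).toNat : ℕ) : ℕ∞) := by
    rw [h, Nat.cast_sum]
    exact Finset.sum_congr rfl fun i _ => h2 i
  unfold len
  rw [h3, ENat.toNat_natCast, Nat.cast_sum]

/-- For an exact sequence 0 → A → B → C the defect len A + len C - len B is nonnegative and it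
vanishes exactly when B → C is onto. -/
theorem len_leftExact [Module.Finite k B] [Module.Finite k C] (f : A →ₗ[k] B) (g : B →ₗ[k] C)
    (hf : Function.Injective f) (h : Function.Exact f g) :
    len k C - len k B + len k A = 0 ↔ Function.Surjective g := by
  have h1 : len k B = len k A + len k (LinearMap.range g) :=
    len_exact f g.rangeRestrict hf g.surjective_rangeRestrict (by
      intro x
      rw [← h x]
      constructor
      · intro hx
        exact congrArg Subtype.val hx
      · intro hx
        exact Subtype.ext hx)
  have h2 : len k C = len k (LinearMap.range g) + len k (C ⧸ LinearMap.range g) :=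
    len_exact (LinearMap.range g).subtype (LinearMap.range g).mkQ
      (LinearMap.range g).injective_subtype (Submodule.mkQ_surjective _)
      (LinearMap.exact_subtype_mkQ _)
  have h3 : len k C - len k B + len k A = len k (C ⧸ LinearMap.range g) := by omega
  rw [h3]
  constructor
  · intro h0
    have h4 : Module.length k (C ⧸ LinearMap.range g) = 0 := by
      have := len_coe (k := k) (A := C ⧸ LinearMap.range g)
      rw [← this]
      unfold len at h0
      exact_mod_cast h0
    have h5 := Module.length_eq_zero_iff.mp h4
    rw [Submodule.Quotient.subsingleton_iff] at h5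
    exact LinearMap.range_eq_top.mp h5
  · intro hs
    have h5 : Subsingleton (C ⧸ LinearMap.range g) := by
      rw [Submodule.Quotient.subsingleton_iff]
      exact LinearMap.range_eq_top.mpr hs
    unfold len
    rw [Module.length_eq_zero]
    rfl

end Kmod

section Hom

variable (k : Type*) [CommRing k] (R : Type*) [Ring R] [Algebra k R]

/-- Integer length of the module of R-linear maps. -/
noncomputable def hl (M N : Type*) [AddCommGroup M] [Module R M] [AddCommGroup N] [Module R N]
    [Module k N] [IsScalarTower k R N] : ℤ := len k (M →ₗ[R] N)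

end Hom

section HomFin
variable {k : Type*} [CommRing k] [IsArtinianRing k] {R : Type*} [Ring R] [Algebra k R]

instance finite_hom {M N : Type*} [AddCommGroup M] [Module R M] [AddCommGroup N] [Module R N]
    [Module k N] [IsScalarTower k R N] [Module.Finite R M] [Module.Finite k N] :
    Module.Finite k (M →ₗ[R] N) := by
  obtain ⟨n, s, hs⟩ := Module.Finite.exists_fin (R := R) (M := M)
  let φ : (M →ₗ[R] N) →ₗ[k] (Fin n → N) :=
    { toFun := fun f i => f (s i)
      map_add' := fun f g => rfl
      map_smul' := fun c f => rfl }
  refine Module.Finite.of_injective φ ?_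
  intro f g hfg
  apply LinearMap.ext_on_range hs
  intro i
  exact congrFun hfg i

variable {M N A B C X : Type*} [AddCommGroup M] [Module R M] [AddCommGroup N] [Module R N]
  [AddCommGroup A] [Module R A] [AddCommGroup B] [Module R B] [AddCommGroup C] [Module R C]
  [AddCommGroup X] [Module R X]

/-- covariant defect -/
theorem hl_cov [Module k A] [IsScalarTower k R A] [Module k B] [IsScalarTower k R B]
    [Module k C] [IsScalarTower k R C] [Module.Finite k B] [Module.Finite k C]
    [Module.Finite R X]
    (f : A →ₗ[R] B) (g : B →ₗ[R] C) (hf : Function.Injective f) (h : Function.Exact f g) :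
    hl k R X C - hl k R X B + hl k R X A = 0 ↔
      ∀ φ : X →ₗ[R] C, ∃ ψ : X →ₗ[R] B, g ∘ₗ ψ = φ := by
  let F : (X →ₗ[R] A) →ₗ[k] (X →ₗ[R] B) :=
    { toFun := fun u => f ∘ₗ u
      map_add' := fun u v => LinearMap.comp_add _ _ _
      map_smul' := fun c u => by
        ext x
        change f (c • u x) = c • f (u x)
        rw [← algebraMap_smul R c (u x), map_smul, algebraMap_smul] }
  let G : (X →ₗ[R] B) →ₗ[k] (X →ₗ[R] C) :=
    { toFun := fun u => g ∘ₗ u
      map_add' := fun u v => LinearMap.comp_add _ _ _
      map_smul' := fun c u => by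
        ext x
        change g (c • u x) = c • g (u x)
        rw [← algebraMap_smul R c (u x), map_smul, algebraMap_smul] }
  have hF : Function.Injective F := by
    intro u v huv
    ext x
    exact hf (LinearMap.congr_fun huv x)
  have hFG : Function.Exact F G := by
    intro u
    constructor
    · intro hu
      have hu' : ∀ x, u x ∈ LinearMap.range f := by
        intro x
        exact (h (u x)).mp (LinearMap.congr_fun hu x)
      let e := LinearEquiv.ofInjective f hf
      refine ⟨e.symm.toLinearMap ∘ₗ (u.codRestrict _ hu'), ?_⟩
      ext x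
      change f (e.symm ⟨u x, hu' x⟩) = u x
      have := LinearEquiv.apply_symm_apply e ⟨u x, hu' x⟩
      exact congrArg Subtype.val this
    · rintro ⟨v, rfl⟩
      ext x
      exact (h (f (v x))).mpr ⟨v x, rfl⟩
  exact len_leftExact F G hF hFG

/-- contravariant defect -/
theorem hl_contra [Module k X] [IsScalarTower k R X] [Module.Finite k X]
    [Module.Finite R A] [Module.Finite R B]
    (f : A →ₗ[R] B) (g : B →ₗ[R] C) (hg : Function.Surjective g) (h : Function.Exact f g) :
    hl k R A X - hl k R B X + hl k R C X = 0 ↔
      ∀ φ : A →ₗ[R] X, ∃ ψ : B →ₗ[R] X, ψ ∘ₗ f = φ := by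
  have : Module.Finite R C := Module.Finite.of_surjective g hg
  let F : (C →ₗ[R] X) →ₗ[k] (B →ₗ[R] X) :=
    { toFun := fun u => u ∘ₗ g
      map_add' := fun u v => LinearMap.add_comp _ _ _
      map_smul' := fun c u => rfl }
  let G : (B →ₗ[R] X) →ₗ[k] (A →ₗ[R] X) :=
    { toFun := fun u => u ∘ₗ f
      map_add' := fun u v => LinearMap.add_comp _ _ _
      map_smul' := fun c u => rfl }
  have hF : Function.Injective F := by
    intro u v huv
    ext x
    obtain ⟨y, rfl⟩ := hg x
    exact LinearMap.congr_fun huv y
  have hFG : Function.Exact F G := by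
    intro u
    constructor
    · intro hu
      have hk : LinearMap.ker g ≤ LinearMap.ker u := by
        intro y hy
        obtain ⟨a, rfl⟩ := (h y).mp hy
        exact LinearMap.congr_fun hu a
      let e := g.quotKerEquivOfSurjective hg
      refine ⟨((LinearMap.ker g).liftQ u hk) ∘ₗ e.symm.toLinearMap, ?_⟩
      ext y
      change ((LinearMap.ker g).liftQ u hk) (e.symm (g y)) = u y
      have h1 : e.symm (g y) = Submodule.Quotient.mk y := by
        rw [LinearEquiv.symm_apply_eq]
        rfl
      rw [h1]
      rfl
    · rintro ⟨v, rfl⟩
      ext x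
      change v (g (f x)) = 0
      rw [(h (f x)).mpr ⟨x, rfl⟩, map_zero]
  exact len_leftExact F G hF hFG

theorem hl_prod [Module k X] [IsScalarTower k R X] [Module.Finite k X]
    [Module.Finite R A] [Module.Finite R B] :
    hl k R (A × B) X = hl k R A X + hl k R B X := by
  unfold hl
  rw [← len_prod]
  exact len_equiv (LinearMap.coprodEquiv k).symm

theorem hl_pi [Module k X] [IsScalarTower k R X] [Module.Finite k X]
    {ι : Type*} [Fintype ι] [DecidableEq ι] (G : ι → Type*) [∀ i, AddCommGroup (G i)]
    [∀ i, Module R (G i)] [∀ i, Module.Finite R (G i)] :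
    hl k R (∀ i, G i) X = ∑ i, hl k R (G i) X := by
  unfold hl
  rw [← len_pi]
  exact len_equiv (LinearMap.lsum R G k).symm

theorem hl_pow [Module k X] [IsScalarTower k R X] [Module.Finite k X]
    [Module.Finite R A] (m : ℕ) :
    hl k R (Fin m → A) X = m * hl k R A X := by
  rw [hl_pi]
  simp

theorem hl_sum [Module k X] [IsScalarTower k R X] [Module.Finite k X]
    {N : ℕ} (G : Fin N → Type*) [∀ i, AddCommGroup (G i)]
    [∀ i, Module R (G i)] [∀ i, Module.Finite R (G i)] (m : Fin N → ℕ) :
    hl k R (∀ a, Fin (m a) → G a) X = ∑ a, (m a : ℤ) * hl k R (G a) X := by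
  rw [hl_pi]
  exact Finset.sum_congr rfl fun a _ => hl_pow (m a)

end HomFin

end Pool.Agent.Helper426Tach
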