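import Pool.Agent.Helper426_Tach.LinAlg
import Pool.Agent.Helper426_Tach.Len

set_option autoImplicit false

namespace Pool.Agent.Helper426Tach

/-- The numerical contradiction, indices shifted. -/
theorem numeric_core' {N : ℕ} (S : Finset ℕ) (hS : 2 * N < S.card) (v c : ℕ → Fin N → ℤ)
    (h : ∀ p ∈ S,
      ((∑ a, v p a * c (p + 1) a ≠ 0) ∧ ∀ i ∈ S, p < i → ∑ a, v p a * c (i + 1) a = 0) ∨
      ((∑ a, v p a * c p a ≠ 0) ∧ ∀ i ∈ S, p < i → ∑ a, v p a * c i a = 0)) :
    False := by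
  classical
  let P : ℕ → Prop := fun j =>
    (∑ a, v j a * c (j + 1) a ≠ 0) ∧ ∀ i ∈ S, j < i → ∑ a, v j a * c (i + 1) a = 0
  have h1 : (S.filter P).card ≤ N := by
    apply card_le_of_triangular (S.filter P) (fun j a => (v j a : ℚ))
      (fun j a => (c (j + 1) a : ℚ))
    · intro j hj
      have := (Finset.mem_filter.mp hj).2.1
      intro h0
      apply this
      exact_mod_cast h0
    · intro j hj i hi hji
      have := (Finset.mem_filter.mp hj).2.2 i (Finset.mem_filter.mp hi).1 hji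
      exact_mod_cast this
  have h2 : (S.filter (fun j => ¬ P j)).card ≤ N := by
    apply card_le_of_triangular (S.filter (fun j => ¬ P j)) (fun j a => (v j a : ℚ))
      (fun j a => (c j a : ℚ))
    · intro j hj
      have hj' := Finset.mem_filter.mp hj
      have := ((h j hj'.1).resolve_left hj'.2).1
      intro h0
      apply this
      exact_mod_cast h0
    · intro j hj i hi hji
      have hj' := Finset.mem_filter.mp hj
      have := ((h j hj'.1).resolve_left hj'.2).2 i (Finset.mem_filter.mp hi).1 hji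
      exact_mod_cast this
  have h3 := Finset.card_filter_add_card_filter_not (s := S) P
  omega

section
variable {k : Type*} [CommRing k] [IsArtinianRing k] {R : Type*} [Ring R] [Algebra k R]

/-- The alternating sum e(M) = hl M C - hl M B + hl M A of a short exact sequence A → B → C. -/
noncomputable def dfc (k : Type*) [CommRing k] (R : Type*) [Ring R] [Algebra k R]
    (M A B C : Type*) [AddCommGroup M] [Module R M]
    [AddCommGroup A] [Module R A] [Module k A] [IsScalarTower k R A]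
    [AddCommGroup B] [Module R B] [Module k B] [IsScalarTower k R B]
    [AddCommGroup C] [Module R C] [Module k C] [IsScalarTower k R C] : ℤ :=
  hl k R M C - hl k R M B + hl k R M A

variable {Z0 I0 Z1 Y B0 B1 : Type*}
  [AddCommGroup Z0] [Module R Z0] [Module k Z0] [IsScalarTower k R Z0] [Module.Finite k Z0]
  [AddCommGroup I0] [Module R I0] [Module k I0] [IsScalarTower k R I0] [Module.Finite k I0]
  [AddCommGroup Z1] [Module R Z1] [Module k Z1] [IsScalarTower k R Z1] [Module.Finite k Z1]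
  [AddCommGroup Y] [Module R Y] [Module.Finite R Y]
  [AddCommGroup B0] [Module R B0] [Module.Finite R B0]
  [AddCommGroup B1] [Module R B1] [Module.Finite R B1]

/-- Basic identity: the change of the defect along B0 → B1. -/
theorem dfc_change :
    dfc k R B1 Z0 I0 Z1 - dfc k R B0 Z0 I0 Z1 =
      (hl k R Y Z1 - hl k R B0 Z1 + hl k R B1 Z1) - (hl k R Y I0 - hl k R B0 I0 + hl k R B1 I0)
      + (hl k R Y Z0 - hl k R B0 Z0 + hl k R B1 Z0) - dfc k R Y Z0 I0 Z1 := by
  unfold dfc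
  ring

end

section Main
variable {k : Type} [CommRing k] [IsArtinianRing k] {R : Type} [Ring R] [Algebra k R]
variable {N : ℕ} {G : Fin N → Type} [∀ a, AddCommGroup (G a)] [∀ a, Module R (G a)]
  [∀ a, Module.Finite R (G a)]
variable {Z I : ℕ → Type} [∀ i, AddCommGroup (Z i)] [∀ i, Module R (Z i)]
  [∀ i, Module k (Z i)] [∀ i, IsScalarTower k R (Z i)] [∀ i, Module.Finite k (Z i)]
  [∀ i, Module.Finite R (Z i)]
  [∀ i, AddCommGroup (I i)] [∀ i, Module R (I i)]
  [∀ i, Module k (I i)] [∀ i, IsScalarTower k R (I i)] [∀ i, Module.Finite k (I i)]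
variable {Wt : Type} [AddCommGroup Wt] [Module R Wt] [Module.Finite R Wt]

omit [∀ i, Module.Finite R (Z i)] in
/-- pairing of the multiplicity vector with the defect vector -/
theorem pairing_eq (i : ℕ) (m0 m1 : Fin N → ℕ) :
    ∑ a, ((m1 a : ℤ) - m0 a) * dfc k R (G a) (Z i) (I i) (Z (i + 1)) =
      dfc k R (∀ a, Fin (m1 a) → G a) (Z i) (I i) (Z (i + 1)) -
      dfc k R (∀ a, Fin (m0 a) → G a) (Z i) (I i) (Z (i + 1)) := by
  unfold dfc
  rw [hl_sum, hl_sum, hl_sum, hl_sum, hl_sum, hl_sum]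
  simp only [← Finset.sum_sub_distrib, ← Finset.sum_add_distrib]
  exact Finset.sum_congr rfl fun a _ => by ring

theorem inj_ext {Q : Type} [AddCommGroup Q] [Module R Q] (hQ : Module.Injective R Q)
    {A B : Type} [AddCommGroup A] [Module R A] [AddCommGroup B] [Module R B]
    (f : A →ₗ[R] B) (hf : Function.Injective f) (φ : A →ₗ[R] Q) :
    ∃ ψ : B →ₗ[R] Q, ψ ∘ₗ f = φ := by
  obtain ⟨h, hh⟩ := hQ.out f hf φ
  exact ⟨h, LinearMap.ext hh⟩

theorem step (ι : ∀ i, Z i →ₗ[R] I i) (π : ∀ i, I i →ₗ[R] Z (i + 1))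
    (hι : ∀ i, Function.Injective (ι i))
    (hex : ∀ i, Function.Exact (ι i) (π i))
    (hI : ∀ i, Module.Injective R (I i))
    (p M : ℕ) (hp : p ≤ M)
    (lift : ∀ i, p < i → i ≤ M + 1 → ∀ φ : Z (p + 1) →ₗ[R] Z (i + 1),
      ∃ ψ : Z (p + 1) →ₗ[R] I i, π i ∘ₗ ψ = φ)
    (ext : ∀ i, p + 1 < i → i ≤ M + 2 → ∀ φ : Z (p + 1) →ₗ[R] Z i,
      ∃ ψ : I (p + 1) →ₗ[R] Z i, ψ ∘ₗ ι (p + 1) = φ)
    (hW : Module.Injective R Wt)
    (liftW : ∀ i, p ≤ i → i ≤ M + 1 → ∀ φ : Wt →ₗ[R] Z (i + 1),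
      ∃ ψ : Wt →ₗ[R] I i, π i ∘ₗ ψ = φ)
    (m0 m1 : Fin N → ℕ)
    (f : (Z (p + 1) × Wt) →ₗ[R] (∀ a, Fin (m0 a) → G a))
    (g : (∀ a, Fin (m0 a) → G a) →ₗ[R] (∀ a, Fin (m1 a) → G a))
    (hf : Function.Injective f) (hfg : Function.Exact f g) (hg : Function.Surjective g)
    (hns : ¬ ∃ s : Z (p + 1) →ₗ[R] I p, π p ∘ₗ s = LinearMap.id) :
    ((∑ a, ((m1 a : ℤ) - m0 a) * dfc k R (G a) (Z (p + 1)) (I (p + 1)) (Z (p + 1 + 1)) ≠ 0) ∧
      ∀ i, p < i → i ≤ M →
        ∑ a, ((m1 a : ℤ) - m0 a) * dfc k R (G a) (Z (i + 1)) (I (i + 1)) (Z (i + 1 + 1)) = 0) ∨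
    ((∑ a, ((m1 a : ℤ) - m0 a) * dfc k R (G a) (Z p) (I p) (Z (p + 1)) ≠ 0) ∧
      ∀ i, p < i → i ≤ M →
        ∑ a, ((m1 a : ℤ) - m0 a) * dfc k R (G a) (Z i) (I i) (Z (i + 1)) = 0) := by
  -- abbreviations
  let Y := Z (p + 1) × Wt
  let B0 := ∀ a, Fin (m0 a) → G a
  let B1 := ∀ a, Fin (m1 a) → G a
  -- defect of Y splits
  have hYsplit : ∀ i, dfc k R Y (Z i) (I i) (Z (i + 1)) =
      dfc k R (Z (p + 1)) (Z i) (I i) (Z (i + 1)) + dfc k R Wt (Z i) (I i) (Z (i + 1)) := by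
    intro i
    unfold dfc
    rw [hl_prod, hl_prod, hl_prod]
    ring
  have hWz : ∀ i, p ≤ i → i ≤ M + 1 → dfc k R Wt (Z i) (I i) (Z (i + 1)) = 0 := by
    intro i h1 h2
    exact (hl_cov (k := k) (ι i) (π i) (hι i) (hex i)).mpr (liftW i h1 h2)
  have hZz : ∀ i, p < i → i ≤ M + 1 → dfc k R (Z (p + 1)) (Z i) (I i) (Z (i + 1)) = 0 := by
    intro i h1 h2
    exact (hl_cov (k := k) (ι i) (π i) (hι i) (hex i)).mpr (lift i h1 h2)
  have hYz : ∀ i, p < i → i ≤ M + 1 → dfc k R Y (Z i) (I i) (Z (i + 1)) = 0 := by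
    intro i h1 h2
    rw [hYsplit, hWz i h1.le h2, hZz i h1 h2, add_zero]
  have hcI : ∀ i, hl k R Y (I i) - hl k R B0 (I i) + hl k R B1 (I i) = 0 := by
    intro i
    exact (hl_contra (k := k) f g hg hfg).mpr (inj_ext (hI i) f hf)
  have hcZ : ∀ i, p + 1 < i → i ≤ M + 2 →
      hl k R Y (Z i) - hl k R B0 (Z i) + hl k R B1 (Z i) = 0 := by
    intro i h1 h2
    refine (hl_contra (k := k) f g hg hfg).mpr ?_
    intro φ
    -- extend φ to I (p+1) × Wt
    obtain ⟨ψ1, hψ1⟩ := ext i h1 h2 (φ ∘ₗ LinearMap.inl R (Z (p + 1)) Wt)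
    obtain ⟨u, hu⟩ := inj_ext (hI (p + 1)) f hf (ι (p + 1) ∘ₗ LinearMap.fst R (Z (p + 1)) Wt)
    obtain ⟨w, hw⟩ := inj_ext hW f hf (LinearMap.snd R (Z (p + 1)) Wt)
    refine ⟨ψ1 ∘ₗ u + (φ ∘ₗ LinearMap.inr R (Z (p + 1)) Wt) ∘ₗ w, ?_⟩
    ext x
    · have h3 := LinearMap.congr_fun hu (x, 0)
      have h4 := LinearMap.congr_fun hw (x, 0)
      have h5 := LinearMap.congr_fun hψ1 x
      simp only [LinearMap.comp_apply, LinearMap.fst_apply, LinearMap.snd_apply,
        LinearMap.inl_apply] at h3 h4 h5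
      simp only [LinearMap.comp_apply, LinearMap.add_apply, LinearMap.inl_apply,
        LinearMap.inr_apply, h3, h4, h5]
      have h6 : φ (0, 0) = 0 := map_zero φ
      rw [h6, add_zero]
    · have h3 := LinearMap.congr_fun hu (0, x)
      have h4 := LinearMap.congr_fun hw (0, x)
      simp only [LinearMap.comp_apply, LinearMap.fst_apply, LinearMap.snd_apply] at h3 h4
      simp only [LinearMap.comp_apply, LinearMap.add_apply, LinearMap.inr_apply, h3, h4]
      simp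
  have key : ∀ i, ∑ a, ((m1 a : ℤ) - m0 a) * dfc k R (G a) (Z i) (I i) (Z (i + 1)) =
      (hl k R Y (Z (i + 1)) - hl k R B0 (Z (i + 1)) + hl k R B1 (Z (i + 1)))
      - (hl k R Y (I i) - hl k R B0 (I i) + hl k R B1 (I i))
      + (hl k R Y (Z i) - hl k R B0 (Z i) + hl k R B1 (Z i)) - dfc k R Y (Z i) (I i) (Z (i + 1))
      := by
    intro i
    rw [pairing_eq]
    exact dfc_change
  by_cases hsp : hl k R Y (Z (p + 1)) - hl k R B0 (Z (p + 1)) + hl k R B1 (Z (p + 1)) = 0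
  · -- split case
    right
    have hext := (hl_contra (k := k) f g hg hfg).mp hsp
    obtain ⟨r1, hr1⟩ := hext (LinearMap.fst R (Z (p + 1)) Wt)
    obtain ⟨r2, hr2⟩ := inj_ext hW f hf (LinearMap.snd R (Z (p + 1)) Wt)
    have hretr : ∀ y, (r1 (f y), r2 (f y)) = y := by
      intro y
      have h1 := LinearMap.congr_fun hr1 y
      have h2 := LinearMap.congr_fun hr2 y
      simp only [LinearMap.comp_apply, LinearMap.fst_apply, LinearMap.snd_apply] at h1 h2
      rw [h1, h2]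
    have hall : ∀ i, hl k R Y (Z i) - hl k R B0 (Z i) + hl k R B1 (Z i) = 0 := by
      intro i
      refine (hl_contra (k := k) f g hg hfg).mpr ?_
      intro φ
      refine ⟨φ ∘ₗ (r1.prod r2), ?_⟩
      refine LinearMap.ext fun y => ?_
      change φ (r1 (f y), r2 (f y)) = φ y
      rw [hretr]
    refine ⟨?_, ?_⟩
    · rw [key p, hall, hall, hcI, hYsplit, hWz p le_rfl (by omega)]
      intro h0
      have h1 : dfc k R (Z (p + 1)) (Z p) (I p) (Z (p + 1)) = 0 := by omega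
      have h2 := (hl_cov (k := k) (ι p) (π p) (hι p) (hex p)).mp h1
      exact hns (h2 LinearMap.id)
    · intro i h1 h2
      rw [key i, hall, hall, hcI, hYz i h1 (by omega)]
      ring
  · left
    refine ⟨?_, ?_⟩
    · rw [key (p + 1), hcZ (p + 1 + 1) (by omega) (by omega), hcI,
        hYz (p + 1) (by omega) (by omega)]
      simpa using hsp
    · intro i h1 h2
      rw [key (i + 1), hcZ (i + 1 + 1) (by omega) (by omega), hcI, hcZ (i + 1) (by omega) (by omega),
        hYz (i + 1) (by omega) (by omega)]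
      ring

end Main

end Pool.Agent.Helper426Tach
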