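import Mathlib

set_option autoImplicit false
open CategoryTheory

namespace Pool.Agent.Helper426Tach

/-- IsCosyz R n M Y: the module Y is an n-th cosyzygy of M, that is, there is an exact sequence
0 → M → I_0 → ... → I_(n-1) → Y → 0 with all I_j finitely generated and injective. -/
inductive IsCosyz (R : Type) [Ring R] : ℕ → ModuleCat.{0} R → ModuleCat.{0} R → Prop
  | zero (M : ModuleCat.{0} R) : IsCosyz R 0 M M
  | succ {n : ℕ} {M X I Y : ModuleCat.{0} R} (hX : IsCosyz R n M X)
      (f : X →ₗ[R] I) (g : I →ₗ[R] Y) (hfin : Module.Finite R I) (hinj : Module.Injective R I)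
      (hf : Function.Injective f) (hfg : Function.Exact f g) (hg : Function.Surjective g) :
      IsCosyz R (n + 1) M Y

/-- TwoStepCo R G s t Y: there is an exact sequence 0 → Y × W → B0 → B1 → 0 in which W is finitely
generated injective and, for c = 0, 1, Bc is the product of finitely many copies of the G a with
a finitely generated module Dc satisfying Ext^m(Dc, R) = 0 for s ≤ m ≤ t. -/
def TwoStepCo (R : Type) [Ring R] [HasExt.{0} (ModuleCat.{0} R)] {N : ℕ}
    (G : Fin N → ModuleCat.{0} R) (s t : ℕ) (Y : ModuleCat.{0} R) : Prop :=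
  ∃ (W D0 D1 : ModuleCat.{0} R) (m0 m1 : Fin N → ℕ)
    (f : (Y × W) →ₗ[R] ((∀ a, Fin (m0 a) → G a) × D0))
    (g : ((∀ a, Fin (m0 a) → G a) × D0) →ₗ[R] ((∀ a, Fin (m1 a) → G a) × D1)),
    Module.Finite R W ∧ Module.Injective R W ∧ Module.Finite R D0 ∧ Module.Finite R D1 ∧
    (∀ m : ℕ, s ≤ m → m ≤ t → Subsingleton (Abelian.Ext.{0} D0 (ModuleCat.of R R) m)) ∧
    (∀ m : ℕ, s ≤ m → m ≤ t → Subsingleton (Abelian.Ext.{0} D1 (ModuleCat.of R R) m)) ∧
    Function.Injective f ∧ Function.Exact f g ∧ Function.Surjective g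

end Pool.Agent.Helper426Tach
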