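import Mathlib

set_option autoImplicit false
open CategoryTheory

namespace Pool.Agent.Helper426Tach

/-- IsSyz R n M Y: the module Y is an n-th syzygy of M, that is, there is an exact sequence
0 → Y → P_(n-1) → ... → P_0 → M → 0 with all P_j finitely generated and projective. -/
inductive IsSyz (R : Type) [Ring R] : ℕ → ModuleCat.{0} R → ModuleCat.{0} R → Prop
  | zero (M : ModuleCat.{0} R) : IsSyz R 0 M M
  | succ {n : ℕ} {M X P Y : ModuleCat.{0} R} (hX : IsSyz R n M X)
      (f : Y →ₗ[R] P) (g : P →ₗ[R] X) (hfin : Module.Finite R P) (hproj : Module.Projective R P)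
      (hf : Function.Injective f) (hfg : Function.Exact f g) (hg : Function.Surjective g) :
      IsSyz R (n + 1) M Y

/-- TwoStepSyz R A G s t Y: there is an exact sequence 0 → B1 → B0 → Y × W → 0 in which W is
finitely generated projective and, for c = 0, 1, Bc is the product of finitely many copies of the
G a with a finitely generated module Dc satisfying Ext^m(A, Dc) = 0 for s ≤ m ≤ t. -/
def TwoStepSyz (R : Type) [Ring R] [HasExt.{0} (ModuleCat.{0} R)] (A : ModuleCat.{0} R) {N : ℕ}
    (G : Fin N → ModuleCat.{0} R) (s t : ℕ) (Y : ModuleCat.{0} R) : Prop :=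
  ∃ (W D0 D1 : ModuleCat.{0} R) (m0 m1 : Fin N → ℕ)
    (f : ((∀ a, Fin (m1 a) → G a) × D1) →ₗ[R] ((∀ a, Fin (m0 a) → G a) × D0))
    (g : ((∀ a, Fin (m0 a) → G a) × D0) →ₗ[R] (Y × W)),
    Module.Finite R W ∧ Module.Projective R W ∧ Module.Finite R D0 ∧ Module.Finite R D1 ∧
    (∀ m : ℕ, s ≤ m → m ≤ t → Subsingleton (Abelian.Ext.{0} A D0 m)) ∧
    (∀ m : ℕ, s ≤ m → m ≤ t → Subsingleton (Abelian.Ext.{0} A D1 m)) ∧
    Function.Injective f ∧ Function.Exact f g ∧ Function.Surjective g

end Pool.Agent.Helper426Tach
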