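import Mathlib

set_option autoImplicit false

namespace Pool.Agent.Helper426Tach

/-- Vectors in a space of dimension N that pair triangularly with covectors: at most N of them. -/
theorem card_le_of_triangular {N : ℕ} (S : Finset ℕ) (V W : ℕ → Fin N → ℚ)
    (hd : ∀ j ∈ S, ∑ a, V j a * W j a ≠ 0)
    (ht : ∀ j ∈ S, ∀ i ∈ S, j < i → ∑ a, V j a * W i a = 0) : S.card ≤ N := by
  classical
  have hli : LinearIndependent ℚ (fun j : S => V j.1) := by
    rw [Fintype.linearIndependent_iff]
    intro g hg
    by_contra hne
    push Not at hne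
    obtain ⟨i0, hi0⟩ := hne
    let T : Finset S := Finset.univ.filter (fun j => g j ≠ 0)
    have hT : T.Nonempty := ⟨i0, by simp [T, hi0]⟩
    obtain ⟨m, hm, hmax⟩ := T.exists_max_image (fun j : S => (j : ℕ)) hT
    have hgm : g m ≠ 0 := (Finset.mem_filter.mp hm).2
    have h0 : ∑ a, (∑ j : S, g j * V j.1 a) * W m.1 a = 0 := by
      apply Finset.sum_eq_zero
      intro a _
      have := congrFun hg a
      simp only [Finset.sum_apply, Pi.smul_apply, smul_eq_mul, Pi.zero_apply] at this
      rw [this, zero_mul]
    have h1 : ∑ a, (∑ j : S, g j * V j.1 a) * W m.1 a = ∑ j : S, g j * ∑ a, V j.1 a * W m.1 a := by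
      simp only [Finset.sum_mul, Finset.mul_sum]
      rw [Finset.sum_comm]
      refine Finset.sum_congr rfl fun j _ => Finset.sum_congr rfl fun a _ => by ring
    have h2 : ∑ j : S, g j * ∑ a, V j.1 a * W m.1 a = g m * ∑ a, V m.1 a * W m.1 a := by
      apply Finset.sum_eq_single m
      · intro j _ hjm
        by_cases hgj : g j = 0
        · rw [hgj, zero_mul]
        · have hjT : j ∈ T := by simp [T, hgj]
          have hle := hmax j hjT
          have hlt : (j : ℕ) < m := lt_of_le_of_ne hle (fun h => hjm (Subtype.ext h))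
          rw [ht j.1 j.2 m.1 m.2 hlt, mul_zero]
      · intro h
        exact absurd (Finset.mem_univ m) h
    rw [h1, h2] at h0
    rcases mul_eq_zero.mp h0 with h | h
    · exact hgm h
    · exact hd m.1 m.2 h
  have := hli.fintype_card_le_finrank
  simpa using this

/-- The numerical contradiction behind the main theorem. -/
theorem numeric_core {N : ℕ} (S : Finset ℕ) (hS : 2 * N < S.card) (v c : ℕ → Fin N → ℤ)
    (h : ∀ j ∈ S,
      ((∑ a, v j a * c j a ≠ 0) ∧ ∀ i ∈ S, j < i → ∑ a, v j a * c i a = 0) ∨
      ((∑ a, v j a * c (j - 1) a ≠ 0) ∧ ∀ i ∈ S, j < i → ∑ a, v j a * c (i - 1) a = 0)) :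
    False := by
  classical
  let P : ℕ → Prop := fun j =>
    (∑ a, v j a * c j a ≠ 0) ∧ ∀ i ∈ S, j < i → ∑ a, v j a * c i a = 0
  have h1 : (S.filter P).card ≤ N := by
    apply card_le_of_triangular (S.filter P) (fun j a => (v j a : ℚ)) (fun j a => (c j a : ℚ))
    · intro j hj
      have := (Finset.mem_filter.mp hj).2.1
      intro h0
      apply this
      exact_mod_cast h0
    · intro j hj i hi hji
      have := (Finset.mem_filter.mp hj).2.2 i (Finset.mem_filter.mp hi).1 hji
      exact_mod_cast this
  have h2 : (S.filter (fun j => ¬ P j)).card ≤ N := by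
    apply card_le_of_triangular (S.filter (fun j => ¬ P j)) (fun j a => (v j a : ℚ))
      (fun j a => (c (j - 1) a : ℚ))
    · intro j hj
      have hj' := Finset.mem_filter.mp hj
      have := ((h j hj'.1).resolve_left hj'.2).1
      intro h0
      apply this
      exact_mod_cast h0
    · intro j hj i hi hji
      have hj' := Finset.mem_filter.mp hj
      have := ((h j hj'.1).resolve_left hj'.2).2 i (Finset.mem_filter.mp hi).1 hji
      exact_mod_cast this
  have h3 := Finset.card_filter_add_card_filter_not (s := S) P
  omega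

end Pool.Agent.Helper426Tach
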