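import Mathlib

set_option autoImplicit false

namespace Pool.Agent.Helper426Tach

section
variable {k : Type} [Field k] {T : Type} (Pf : Subalgebra k (T → k))

/-- determinants of matrices with entries in a subalgebra of functions -/
theorem det_mem {n : ℕ} (M : T → Matrix (Fin n) (Fin n) k)
    (h : ∀ i j, (fun t => M t i j) ∈ Pf) : (fun t => (M t).det) ∈ Pf := by
  let N : Matrix (Fin n) (Fin n) Pf := fun i j => ⟨fun t => M t i j, h i j⟩
  let ev : T → (Pf →+* k) := fun t => (Pi.evalRingHom (fun _ => k) t).comp Pf.val.toRingHom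
  have h1 : ∀ t, (ev t) N.det = (M t).det := by
    intro t
    rw [RingHom.map_det]
    rfl
  have h2 : (fun t => (M t).det) = (N.det : T → k) := by
    funext t
    rw [← h1 t]
    rfl
  rw [h2]
  exact N.det.2

/-- entries of adjugates of matrices with entries in a subalgebra of functions -/
theorem adj_mem {n : ℕ} (M : T → Matrix (Fin n) (Fin n) k)
    (h : ∀ i j, (fun t => M t i j) ∈ Pf) (i j : Fin n) :
    (fun t => (M t).adjugate i j) ∈ Pf := by
  let N : Matrix (Fin n) (Fin n) Pf := fun i j => ⟨fun t => M t i j, h i j⟩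
  let ev : T → (Pf →+* k) := fun t => (Pi.evalRingHom (fun _ => k) t).comp Pf.val.toRingHom
  have h1 : ∀ t, (ev t) (N.adjugate i j) = (M t).adjugate i j := by
    intro t
    have h3 := RingHom.map_adjugate (ev t) N
    have h4 := congrFun (congrFun h3 i) j
    exact h4
  have h2 : (fun t => (M t).adjugate i j) = (N.adjugate i j : T → k) := by
    funext t
    rw [← h1 t]
    rfl
  rw [h2]
  exact (N.adjugate i j).2

theorem const_mem (c : k) : (fun _ : T => c) ∈ Pf := Pf.algebraMap_mem c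

/-- Exactness at a point persists nearby, and a kernel element extends polynomially. -/
theorem open_exact {E0 E1 E2 : Type} [AddCommGroup E0] [Module k E0] [AddCommGroup E1]
    [Module k E1] [AddCommGroup E2] [Module k E2] [Module.Finite k E1]
    (D0 : T → E0 →ₗ[k] E1) (D1 : T → E1 →ₗ[k] E2)
    (h0 : ∀ (x : E0) (ξ : E1 →ₗ[k] k), (fun t => ξ (D0 t x)) ∈ Pf)
    (h1 : ∀ (x : E1) (ξ : E2 →ₗ[k] k), (fun t => ξ (D1 t x)) ∈ Pf)
    (t0 : T) (hz : ∀ t x, D1 t (D0 t x) = 0)
    (hex : ∀ v, D1 t0 v = 0 → ∃ u, D0 t0 u = v) (φ : E0) (hφ : D0 t0 φ = 0) :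
    ∃ (F : T → k) (Φ : T → E0), F ∈ Pf ∧ (∀ ξ : E0 →ₗ[k] k, (fun t => ξ (Φ t)) ∈ Pf) ∧
      F t0 ≠ 0 ∧ Φ t0 = φ ∧ ∀ t, F t ≠ 0 → D0 t (Φ t) = 0 := by
  classical
  let W := LinearMap.range (D0 t0)
  obtain ⟨W', hW'⟩ := Submodule.exists_isCompl W
  obtain ⟨g, hg⟩ := LinearMap.exists_rightInverse_of_surjective (D0 t0).rangeRestrict
    (LinearMap.range_rangeRestrict _)
  have hinj : LinearMap.ker (D1 t0 ∘ₗ W'.subtype) = ⊥ := by
    rw [LinearMap.ker_eq_bot']
    intro w hw
    obtain ⟨u, hu⟩ := hex w.1 hw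
    have h2 : w.1 ∈ W ⊓ W' := ⟨⟨u, hu⟩, w.2⟩
    rw [hW'.inf_eq_bot] at h2
    exact Subtype.ext h2
  obtain ⟨S0, hS0⟩ := LinearMap.exists_leftInverse_of_injective (D1 t0 ∘ₗ W'.subtype) hinj
  let bW := Module.finBasis k W
  let bW' := Module.finBasis k W'
  let r := Module.finrank k W
  let s := Module.finrank k W'
  let a : (Fin r → k) →ₗ[k] E0 := g ∘ₗ bW.equivFun.symm.toLinearMap
  let P : E1 →ₗ[k] (Fin r → k) := bW.equivFun.toLinearMap ∘ₗ W.projectionOnto W' hW'
  let w : (Fin s → k) →ₗ[k] E1 := W'.subtype ∘ₗ bW'.equivFun.symm.toLinearMap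
  let S : E2 →ₗ[k] (Fin s → k) := bW'.equivFun.toLinearMap ∘ₗ S0
  have c1 : ∀ x, P (D0 t0 (a x)) = x := by
    intro x
    have h2 : D0 t0 (g (bW.equivFun.symm x)) = (bW.equivFun.symm x : W) := by
      have := LinearMap.congr_fun hg (bW.equivFun.symm x)
      exact congrArg Subtype.val this
    change bW.equivFun (W.projectionOnto W' hW' (D0 t0 (g (bW.equivFun.symm x)))) = x
    rw [h2, Submodule.projectionOnto_apply_left, LinearEquiv.apply_symm_apply]
  have c2 : ∀ x, S (D1 t0 (w x)) = x := by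
    intro x
    have h2 := LinearMap.congr_fun hS0 (bW'.equivFun.symm x)
    change bW'.equivFun (S0 (D1 t0 (W'.subtype (bW'.equivFun.symm x)))) = x
    have h3 : S0 (D1 t0 (W'.subtype (bW'.equivFun.symm x))) = bW'.equivFun.symm x := h2
    rw [h3, LinearEquiv.apply_symm_apply]
  have c3 : ∀ v, P v = 0 → ∃ z, w z = v := by
    intro v hv
    have h2 : W.projectionOnto W' hW' v = 0 := by
      have h3 : bW.equivFun (W.projectionOnto W' hW' v) = 0 := hv
      exact (LinearEquiv.map_eq_zero_iff _).mp h3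
    have h3 : v ∈ W' := (Submodule.projectionOnto_apply_eq_zero_iff hW').mp h2
    refine ⟨bW'.equivFun ⟨v, h3⟩, ?_⟩
    change W'.subtype (bW'.equivFun.symm (bW'.equivFun ⟨v, h3⟩)) = v
    rw [LinearEquiv.symm_apply_apply]
    rfl
  let M1 : T → Matrix (Fin r) (Fin r) k := fun t => LinearMap.toMatrix' (P ∘ₗ D0 t ∘ₗ a)
  let M2 : T → Matrix (Fin s) (Fin s) k := fun t => LinearMap.toMatrix' (S ∘ₗ D1 t ∘ₗ w)
  have m1 : ∀ i j, (fun t => M1 t i j) ∈ Pf := by
    intro i j
    have := h0 (a (Pi.single j 1)) (LinearMap.proj i ∘ₗ P)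
    have e : (fun t => M1 t i j) = fun t => (LinearMap.proj i ∘ₗ P) (D0 t (a (Pi.single j 1))) := by
      funext t
      simp only [M1, LinearMap.toMatrix'_apply, LinearMap.comp_apply, LinearMap.proj_apply]
    rw [e]
    exact this
  have m2 : ∀ i j, (fun t => M2 t i j) ∈ Pf := by
    intro i j
    have := h1 (w (Pi.single j 1)) (LinearMap.proj i ∘ₗ S)
    have e : (fun t => M2 t i j) = fun t => (LinearMap.proj i ∘ₗ S) (D1 t (w (Pi.single j 1))) := by
      funext t
      simp only [M2, LinearMap.toMatrix'_apply, LinearMap.comp_apply, LinearMap.proj_apply]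
    rw [e]
    exact this
  have d1 : M1 t0 = 1 := by
    have : P ∘ₗ D0 t0 ∘ₗ a = LinearMap.id := LinearMap.ext c1
    simp only [M1]
    rw [this, LinearMap.toMatrix'_id]
  have d2 : M2 t0 = 1 := by
    have : S ∘ₗ D1 t0 ∘ₗ w = LinearMap.id := LinearMap.ext c2
    simp only [M2]
    rw [this, LinearMap.toMatrix'_id]
  let y : T → (Fin r → k) := fun t => P (D0 t φ)
  have hy : ∀ i, (fun t => y t i) ∈ Pf := fun i => h0 φ (LinearMap.proj i ∘ₗ P)
  let Φ : T → E0 := fun t => (M1 t).det • φ - a ((M1 t).adjugate.mulVec (y t))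
  refine ⟨fun t => (M2 t).det, Φ, det_mem Pf M2 m2, ?_, ?_, ?_, ?_⟩
  · intro ξ
    have e : (fun t => ξ (Φ t)) = (fun t => (M1 t).det) * (fun _ => ξ φ) -
        ∑ i, (∑ j, (fun t => (M1 t).adjugate i j) * (fun t => y t j)) *
          (fun _ => ξ (a (Pi.single i 1))) := by
      funext t
      have h2 : a ((M1 t).adjugate.mulVec (y t)) =
          ∑ i, ((M1 t).adjugate.mulVec (y t)) i • a (Pi.single i 1) := by
        conv_lhs => rw [pi_eq_sum_univ' ((M1 t).adjugate.mulVec (y t))]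
        rw [map_sum]
        refine Finset.sum_congr rfl fun i _ => ?_
        rw [map_smul]
      simp only [Φ, map_sub, map_smul, smul_eq_mul, h2, map_sum, Pi.sub_apply, Pi.mul_apply,
        Finset.sum_apply, Matrix.mulVec, dotProduct]
    rw [e]
    refine Pf.sub_mem (Pf.mul_mem (det_mem Pf M1 m1) (const_mem Pf _))
      (Pf.sum_mem fun i _ => Pf.mul_mem (Pf.sum_mem fun j _ => Pf.mul_mem ?_ (hy j))
        (const_mem Pf _))
    exact adj_mem Pf M1 m1 i j
  · simp only [d2, Matrix.det_one]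
    exact one_ne_zero
  · simp only [Φ, d1, Matrix.det_one, one_smul, y, hφ, map_zero, Matrix.mulVec_zero, sub_zero]
  · intro t ht
    have e1 : P (D0 t (Φ t)) = 0 := by
      have h2 : ∀ x, P (D0 t (a x)) = (M1 t).mulVec x := by
        intro x
        have := LinearMap.toMatrix'_mulVec (P ∘ₗ D0 t ∘ₗ a) x
        exact this.symm
      simp only [Φ, map_sub, map_smul, h2, Matrix.mulVec_mulVec, Matrix.mul_adjugate,
        Matrix.smul_mulVec, Matrix.one_mulVec]
      exact sub_self _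
    obtain ⟨z, hz1⟩ := c3 _ e1
    have e2 : (M2 t).mulVec z = 0 := by
      have h2 := LinearMap.toMatrix'_mulVec (S ∘ₗ D1 t ∘ₗ w) z
      rw [h2]
      simp only [LinearMap.comp_apply]
      rw [hz1, hz t, map_zero]
    have e3 : z = 0 := Matrix.eq_zero_of_mulVec_eq_zero ht e2
    rw [← hz1, e3, map_zero]

end

end Pool.Agent.Helper426Tach
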