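import Pool.Agent.Helper426_Tach.CoreS

set_option autoImplicit false
open CategoryTheory

namespace Pool.Agent.Helper426Tach

/-- simple quotients of a module of finite length form a finite list up to isomorphism -/
theorem exists_simple_list {R : Type} [Ring R] {M : Type} [AddCommGroup M] [Module R M]
    (h : IsFiniteLength R M) :
    ∃ (n : ℕ) (S : Fin n → ModuleCat.{0} R), (∀ a, IsSimpleModule R (S a)) ∧
      ∀ (T : Type) [AddCommGroup T] [Module R T] [IsSimpleModule R T],
        (∃ φ : M →ₗ[R] T, φ ≠ 0) → ∃ a, Nonempty (T ≃ₗ[R] S a) := by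
  induction h with
  | of_subsingleton =>
    refine ⟨0, fun a => a.elim0, fun a => a.elim0, ?_⟩
    rintro T _ _ _ ⟨φ, hφ⟩
    exact absurd (Subsingleton.elim φ 0) hφ
  | @of_simple_quotient M _ _ N _ h ih =>
    obtain ⟨n, S, hS, hL⟩ := ih
    refine ⟨n + 1, Fin.cons (ModuleCat.of R (M ⧸ N)) S, ?_, ?_⟩
    · intro a
      refine Fin.cases ?_ ?_ a
      · change IsSimpleModule R (M ⧸ N)
        infer_instance
      · intro b
        exact hS b
    · rintro T _ _ _ ⟨φ, hφ⟩
      by_cases h0 : φ ∘ₗ N.subtype = 0
      · have hle : N ≤ LinearMap.ker φ := by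
          intro x hx
          exact LinearMap.congr_fun h0 ⟨x, hx⟩
        have hne : N.liftQ φ hle ≠ 0 := by
          intro h1
          apply hφ
          refine LinearMap.ext fun x => ?_
          exact LinearMap.congr_fun h1 (Submodule.Quotient.mk x)
        have hb := LinearMap.bijective_of_ne_zero hne
        exact ⟨0, ⟨(LinearEquiv.ofBijective _ hb).symm⟩⟩
      · obtain ⟨a, ha⟩ := hL T ⟨φ ∘ₗ N.subtype, h0⟩
        exact ⟨a.succ, ha⟩

theorem len_eq_zero_iff {k : Type} [CommRing k] [IsArtinianRing k] {A : Type} [AddCommGroup A]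
    [Module k A] [Module.Finite k A] : len k A = 0 ↔ Subsingleton A := by
  rw [← Module.length_eq_zero_iff (R := k), ← len_coe (k := k) (A := A)]
  unfold len
  norm_cast

section QF
variable {R : Type} [Ring R] [hart : IsArtinianRing (Subring.center R)]
  [hfin : Module.Finite (Subring.center R) R]

omit hart in
theorem finite_center {M : Type} [AddCommGroup M] [Module R M] [Module.Finite R M] :
    Module.Finite (Subring.center R) M := Module.Finite.trans R M

theorem hl_ne_zero_iff {M X : Type} [AddCommGroup M] [Module R M] [Module.Finite R M]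
    [AddCommGroup X] [Module R X] [Module.Finite R X] :
    hl (Subring.center R) R M X ≠ 0 ↔ ∃ φ : M →ₗ[R] X, φ ≠ 0 := by
  have h1 : Module.Finite (Subring.center R) X := finite_center
  unfold hl
  rw [Ne, len_eq_zero_iff, not_subsingleton_iff_nontrivial]
  constructor
  · intro h
    exact exists_ne 0
  · rintro ⟨φ, hφ⟩
    exact ⟨⟨φ, 0, hφ⟩⟩

omit hfin in
theorem hl_congr_left {M M' X : Type} [AddCommGroup M] [Module R M] [AddCommGroup M']
    [Module R M'] [AddCommGroup X] [Module R X] (e : M ≃ₗ[R] M') :
    hl (Subring.center R) R M X = hl (Subring.center R) R M' X := by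
  unfold hl
  refine len_equiv ?_
  exact
    { toFun := fun u => u ∘ₗ e.symm.toLinearMap
      invFun := fun v => v ∘ₗ e.toLinearMap
      left_inv := by
        intro u
        exact LinearMap.ext fun x => by simp
      right_inv := by
        intro u
        exact LinearMap.ext fun x => by simp
      map_add' := by
        intro u v
        rfl
      map_smul' := by
        intro c u
        rfl }

omit hfin in
theorem hl_congr_right {M X X' : Type} [AddCommGroup M] [Module R M] [AddCommGroup X]
    [Module R X] [AddCommGroup X'] [Module R X'] (e : X ≃ₗ[R] X') :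
    hl (Subring.center R) R M X = hl (Subring.center R) R M X' := by
  unfold hl
  refine len_equiv ?_
  exact
    { toFun := fun u => e.toLinearMap ∘ₗ u
      invFun := fun v => e.symm.toLinearMap ∘ₗ v
      left_inv := by
        intro u
        exact LinearMap.ext fun x => by simp
      right_inv := by
        intro u
        exact LinearMap.ext fun x => by simp
      map_add' := by
        intro u v
        exact LinearMap.ext fun x => by simp
      map_smul' := by
        intro c u
        refine LinearMap.ext fun x => ?_
        change e ((c : R) • u x) = (c : R) • e (u x)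
        rw [map_smul] }

/-- splitting off a quotient of a semisimple module -/
theorem exists_split {X T : Type} [AddCommGroup X] [Module R X] [AddCommGroup T] [Module R T]
    [IsSemisimpleModule R X] (φ : X →ₗ[R] T) (hφ : Function.Surjective φ) :
    Nonempty (X ≃ₗ[R] (LinearMap.ker φ) × T) := by
  obtain ⟨C, hC⟩ := exists_isCompl (LinearMap.ker φ)
  have e1 := (Submodule.prodEquivOfIsCompl (LinearMap.ker φ) C hC).symm
  have e2 : C ≃ₗ[R] (X ⧸ LinearMap.ker φ) :=
    (Submodule.quotientEquivOfIsCompl (LinearMap.ker φ) C hC).symm
  have e3 := φ.quotKerEquivOfSurjective hφ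
  exact ⟨e1.trans ((LinearEquiv.refl R _).prodCongr (e2.trans e3))⟩

/-- a nonzero finitely generated module has a simple quotient -/
theorem exists_simple_quot {X : Type} [AddCommGroup X] [Module R X] [Module.Finite R X]
    [Nontrivial X] : ∃ m : Submodule R X, IsSimpleModule R (X ⧸ m) := by
  obtain ⟨m, hm⟩ := IsCoatomic.exists_coatom (Submodule R X)
  exact ⟨m, isSimpleModule_iff_isCoatom.mpr hm⟩

variable {ι : Type} {S : ι → ModuleCat.{0} R} (hS : ∀ a, IsSimpleModule R (S a))
  (hall : ∀ (T : Type) [AddCommGroup T] [Module R T] [IsSimpleModule R T],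
    ∃ a, Nonempty (T ≃ₗ[R] S a))

include hS hall in
/-- semisimple modules are determined by the lengths of the Hom modules to simple ones -/
theorem semisimple_iso {X : Type} [AddCommGroup X] [Module R X] (h : IsFiniteLength R X) :
    IsSemisimpleModule R X → ∀ (X' : Type) [AddCommGroup X'] [Module R X']
      [IsSemisimpleModule R X'] [Module.Finite R X'],
      (∀ a, hl (Subring.center R) R X (S a) = hl (Subring.center R) R X' (S a)) →
      Nonempty (X ≃ₗ[R] X') := by
  have hartR : IsArtinianRing R := IsArtinianRing.of_finite (Subring.center R) R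
  have hSf : ∀ a, Module.Finite R (S a) := by
    intro a
    have := hS a
    infer_instance
  have hSk : ∀ a, Module.Finite (Subring.center R) (S a) := by
    intro a
    have := hSf a
    exact finite_center
  induction h with
  | @of_subsingleton X _ _ _ =>
    intro _ X' _ _ _ _ hX
    have hsub : Subsingleton X' := by
      by_contra hn
      rw [not_subsingleton_iff_nontrivial] at hn
      obtain ⟨m, hm⟩ := exists_simple_quot (R := R) (X := X')
      obtain ⟨a, ⟨e⟩⟩ := hall (X' ⧸ m)
      have h1 : hl (Subring.center R) R X' (S a) ≠ 0 := by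
        rw [hl_ne_zero_iff]
        refine ⟨e.toLinearMap ∘ₗ m.mkQ, ?_⟩
        intro h0
        have h2 : Subsingleton (X' ⧸ m) := by
          refine subsingleton_of_forall_eq 0 fun y => ?_
          obtain ⟨x, rfl⟩ := Submodule.mkQ_surjective m y
          apply e.injective
          rw [map_zero]
          exact LinearMap.congr_fun h0 x
        have h3 := IsSimpleModule.nontrivial R (X' ⧸ m)
        exact not_subsingleton (X' ⧸ m) h2
      apply h1
      rw [← hX a]
      unfold hl
      rw [len_eq_zero_iff]
      infer_instance
    exact ⟨{ (0 : X →ₗ[R] X') with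
      invFun := 0
      left_inv := fun x => Subsingleton.elim _ _
      right_inv := fun x => Subsingleton.elim _ _ }⟩
  | @of_simple_quotient X _ _ N _ h ih =>
    intro hX X' _ _ _ _ hXX'
    have hNX : IsFiniteLength R X := IsFiniteLength.of_simple_quotient h
    have hfl := isFiniteLength_iff_isNoetherian_isArtinian.mp hNX
    have hXn := hfl.1
    obtain ⟨a, ⟨e⟩⟩ := hall (X ⧸ N)
    -- map from X to S a
    let φ : X →ₗ[R] S a := e.toLinearMap ∘ₗ N.mkQ
    have hφs : Function.Surjective φ := e.surjective.comp (Submodule.mkQ_surjective N)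
    have hφker : LinearMap.ker φ = N := by
      ext x
      rw [LinearMap.mem_ker]
      change e (N.mkQ x) = 0 ↔ x ∈ N
      rw [e.map_eq_zero_iff, ← LinearMap.mem_ker, Submodule.ker_mkQ]
    have hnt : Nontrivial (S a) := by
      have := hS a
      exact IsSimpleModule.nontrivial R (S a)
    have hφ0 : φ ≠ 0 := by
      intro h0
      obtain ⟨y, hy⟩ := exists_ne (0 : S a)
      obtain ⟨x, hx⟩ := hφs y
      apply hy
      rw [← hx, h0]
      rfl
    have h1 : hl (Subring.center R) R X' (S a) ≠ 0 := by
      rw [← hXX' a, hl_ne_zero_iff]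
      exact ⟨φ, hφ0⟩
    obtain ⟨ψ, hψ⟩ := hl_ne_zero_iff.mp h1
    have hψs : Function.Surjective ψ := by
      have := hS a
      exact LinearMap.surjective_of_ne_zero hψ
    obtain ⟨e1⟩ := exists_split φ hφs
    obtain ⟨e2⟩ := exists_split ψ hψs
    have hNfin : Module.Finite R N := inferInstance
    have hKfin : Module.Finite R (LinearMap.ker φ) := inferInstance
    have hK'fin : Module.Finite R (LinearMap.ker ψ) := inferInstance
    have e0 : N ≃ₗ[R] LinearMap.ker φ := LinearEquiv.ofEq _ _ hφker.symm
    have hNN' : ∀ b, hl (Subring.center R) R N (S b) =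
        hl (Subring.center R) R (LinearMap.ker ψ) (S b) := by
      intro b
      have h2 := hXX' b
      rw [hl_congr_left e1, hl_congr_left e2, hl_prod, hl_prod] at h2
      rw [hl_congr_left e0]
      omega
    obtain ⟨e3⟩ := ih inferInstance (LinearMap.ker ψ) hNN'
    exact ⟨e1.trans (((e0.symm.trans e3).prodCongr (LinearEquiv.refl R (S a))).trans e2.symm)⟩

end QF

end Pool.Agent.Helper426Tach
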