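import Pool.Agent.Helper426_Tach.QF

set_option autoImplicit false
open CategoryTheory

namespace Pool.Agent.Helper426Tach

/-- lifting a surjection modulo the radical -/
theorem exists_surj {R : Type} [Ring R] {P P' : Type} [AddCommGroup P] [Module R P]
    [AddCommGroup P'] [Module R P'] [Module.Finite R P'] (hP : Module.Projective R P)
    (w : (P ⧸ Module.jacobson R P) →ₗ[R] (P' ⧸ Module.jacobson R P'))
    (hw : Function.Surjective w) : ∃ u : P →ₗ[R] P', Function.Surjective u := by
  obtain ⟨u, hu⟩ := Module.projective_lifting_property (Module.jacobson R P').mkQ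
    (w ∘ₗ (Module.jacobson R P).mkQ) (Submodule.mkQ_surjective _)
  refine ⟨u, ?_⟩
  rw [← LinearMap.range_eq_top]
  by_contra hne
  obtain ⟨m, hm, hle⟩ := (eq_top_or_exists_le_coatom (LinearMap.range u)).resolve_left hne
  have h1 : Module.jacobson R P' ≤ m := sInf_le hm
  apply hm.1
  rw [eq_top_iff]
  intro y _
  obtain ⟨z, hz⟩ := hw ((Module.jacobson R P').mkQ y)
  obtain ⟨x, rfl⟩ := Submodule.mkQ_surjective _ z
  have h2 := LinearMap.congr_fun hu x
  simp only [LinearMap.comp_apply] at h2
  rw [hz] at h2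
  have h3 : y - u x ∈ Module.jacobson R P' := by
    rw [← Submodule.ker_mkQ (Module.jacobson R P'), LinearMap.mem_ker, map_sub, h2, sub_self]
  have h4 := m.add_mem (h1 h3) (hle ⟨x, rfl⟩)
  simpa using h4

section QF
variable {R : Type} [Ring R] [hart : IsArtinianRing (Subring.center R)]
  [hfin : Module.Finite (Subring.center R) R]

/-- Hom to a simple module factors through the top -/
theorem hl_top {P T : Type} [AddCommGroup P] [Module R P] [AddCommGroup T] [Module R T]
    [IsSimpleModule R T] :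
    hl (Subring.center R) R (P ⧸ Module.jacobson R P) T = hl (Subring.center R) R P T := by
  unfold hl
  let F : ((P ⧸ Module.jacobson R P) →ₗ[R] T) →ₗ[Subring.center R] (P →ₗ[R] T) :=
    { toFun := fun u => u ∘ₗ (Module.jacobson R P).mkQ
      map_add' := by
        intro u v
        rfl
      map_smul' := by
        intro c u
        rfl }
  refine len_equiv (LinearEquiv.ofBijective F ⟨?_, ?_⟩)
  · intro u v huv
    refine LinearMap.ext fun x => ?_
    obtain ⟨y, rfl⟩ := Submodule.mkQ_surjective _ x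
    exact LinearMap.congr_fun huv y
  · intro v
    have hT : Module.jacobson R T = ⊥ := by
      rw [← IsArtinian.isSemisimpleModule_iff_jacobson]
      infer_instance
    have hle : Module.jacobson R P ≤ LinearMap.ker v := by
      have h1 := Module.le_comap_jacobson v
      rw [hT] at h1
      exact h1
    exact ⟨(Module.jacobson R P).liftQ v hle, LinearMap.ext fun x => rfl⟩

variable {ι : Type} {S : ι → ModuleCat.{0} R} (hS : ∀ a, IsSimpleModule R (S a))
  (hall : ∀ (T : Type) [AddCommGroup T] [Module R T] [IsSimpleModule R T],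
    ∃ a, Nonempty (T ≃ₗ[R] S a))

include hS hall in
/-- finitely generated projective modules are determined by the lengths of the Hom modules to
the simple modules -/
theorem proj_iso {P P' : Type} [AddCommGroup P] [Module R P] [AddCommGroup P'] [Module R P']
    [Module.Finite R P] [Module.Finite R P'] (hP : Module.Projective R P)
    (hP' : Module.Projective R P')
    (h : ∀ a, hl (Subring.center R) R P (S a) = hl (Subring.center R) R P' (S a)) :
    Nonempty (P ≃ₗ[R] P') := by
  have hartR : IsArtinianRing R := IsArtinianRing.of_finite (Subring.center R) R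
  have h1 : IsSemisimpleModule R (P ⧸ Module.jacobson R P) := by
    rw [IsArtinian.isSemisimpleModule_iff_jacobson]
    exact Module.jacobson_quotient_jacobson R P
  have h1' : IsSemisimpleModule R (P' ⧸ Module.jacobson R P') := by
    rw [IsArtinian.isSemisimpleModule_iff_jacobson]
    exact Module.jacobson_quotient_jacobson R P'
  have h2 : IsFiniteLength R (P ⧸ Module.jacobson R P) := by
    rw [isFiniteLength_iff_isNoetherian_isArtinian]
    exact ⟨inferInstance, inferInstance⟩
  obtain ⟨e⟩ := semisimple_iso hS hall h2 h1 (P' ⧸ Module.jacobson R P') (by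
    intro a
    have := hS a
    rw [hl_top, hl_top, h a])
  obtain ⟨u, hu⟩ := exists_surj hP e.toLinearMap e.surjective
  obtain ⟨v, hv⟩ := exists_surj hP' e.symm.toLinearMap e.symm.surjective
  have h3 : Function.Injective (v ∘ₗ u) :=
    IsNoetherian.injective_of_surjective_endomorphism (v ∘ₗ u) (hv.comp hu)
  have h4 : Function.Injective u := Function.Injective.of_comp h3
  exact ⟨LinearEquiv.ofBijective u ⟨h4, hu⟩⟩

end QF

/-- injective hulls inside an injective noetherian module -/
theorem exists_hull {R : Type} [Ring R] {W : Type} [AddCommGroup W] [Module R W]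
    [IsNoetherian R W] (hW : Module.Injective R W) (A : Submodule R W) :
    ∃ U : Submodule R W, A ≤ U ∧ (∀ X : Submodule R W, X ≤ U → X ≠ ⊥ → X ⊓ A ≠ ⊥) ∧
      ∃ r : W →ₗ[R] U, r ∘ₗ U.subtype = LinearMap.id := by
  let E : Set (Submodule R W) :=
    {U | A ≤ U ∧ ∀ X : Submodule R W, X ≤ U → X ≠ ⊥ → X ⊓ A ≠ ⊥}
  have hE : E.Nonempty := ⟨A, le_rfl, fun X hX hne => by rwa [inf_eq_left.mpr hX]⟩
  obtain ⟨U, hUE, hUmax⟩ := set_has_maximal_iff_noetherian.mpr ‹IsNoetherian R W› E hE
  let F : Set (Submodule R W) := {V | V ⊓ U = ⊥}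
  have hF : F.Nonempty := ⟨⊥, bot_inf_eq U⟩
  obtain ⟨V, hVF, hVmax⟩ := set_has_maximal_iff_noetherian.mpr ‹IsNoetherian R W› F hF
  have hVF' : V ⊓ U = ⊥ := hVF
  let q : U →ₗ[R] (W ⧸ V) := V.mkQ ∘ₗ U.subtype
  have hq : Function.Injective q := by
    rw [← LinearMap.ker_eq_bot, eq_bot_iff]
    intro x hx
    have h1 : (x : W) ∈ V := by
      rw [← Submodule.ker_mkQ V]
      exact hx
    have h2 : (x : W) ∈ V ⊓ U := ⟨h1, x.2⟩
    rw [hVF'] at h2
    exact Subtype.ext h2
  obtain ⟨ψ, hψ⟩ := hW.out q hq U.subtype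
  have hψ' : ∀ x : W, x ∈ U → ψ (V.mkQ x) = x := fun x hx => hψ ⟨x, hx⟩
  -- nonzero submodules of W/V meet the image of U
  have hmeet : ∀ K : Submodule R (W ⧸ V), K ≠ ⊥ → ∃ x : W, x ∈ U ∧ x ≠ 0 ∧ V.mkQ x ∈ K := by
    intro K hK
    have hlt : V < K.comap V.mkQ := by
      refine lt_of_le_of_ne ?_ ?_
      · intro v hv
        rw [Submodule.mem_comap]
        have h1 : V.mkQ v = 0 := by
          rw [← LinearMap.mem_ker, Submodule.ker_mkQ]
          exact hv
        rw [h1]
        exact K.zero_mem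
      · intro h
        apply hK
        rw [eq_bot_iff]
        intro y hy
        obtain ⟨w, rfl⟩ := Submodule.mkQ_surjective V y
        have h1 : w ∈ K.comap V.mkQ := hy
        rw [← h, ← Submodule.ker_mkQ V] at h1
        exact h1
    have h2 : K.comap V.mkQ ⊓ U ≠ ⊥ := fun h => hVmax _ h hlt
    obtain ⟨x, hx, hx0⟩ := (Submodule.ne_bot_iff _).mp h2
    exact ⟨x, hx.2, hx0, hx.1⟩
  have hU'E : LinearMap.range ψ ∈ E := by
    refine ⟨?_, ?_⟩
    · intro a ha
      exact ⟨V.mkQ a, hψ' a (hUE.1 ha)⟩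
    · intro X hX hne
      obtain ⟨x, hxX, hx0⟩ := (Submodule.ne_bot_iff _).mp hne
      obtain ⟨y, hy⟩ := hX hxX
      have hK : X.comap ψ ≠ ⊥ := by
        intro h
        have h1 : y ∈ X.comap ψ := by
          rw [Submodule.mem_comap, hy]
          exact hxX
        rw [h] at h1
        have h2 : y = 0 := h1
        apply hx0
        rw [← hy, h2, map_zero]
      obtain ⟨z, hzU, hz0, hzK⟩ := hmeet _ hK
      have hzX : z ∈ X := by
        have h1 : ψ (V.mkQ z) ∈ X := hzK
        rwa [hψ' z hzU] at h1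
      have h3 : X ⊓ U ≠ ⊥ := by
        rw [Submodule.ne_bot_iff]
        exact ⟨z, ⟨hzX, hzU⟩, hz0⟩
      have h4 := hUE.2 (X ⊓ U) inf_le_right h3
      intro h5
      apply h4
      rw [eq_bot_iff, ← h5]
      exact inf_le_inf_right A inf_le_left
  have hUle : U ≤ LinearMap.range ψ := fun x hx => ⟨V.mkQ x, hψ' x hx⟩
  have hUeq : LinearMap.range ψ = U := by
    by_contra hne
    exact hUmax _ hU'E (lt_of_le_of_ne hUle (Ne.symm hne))
  have hmem : ∀ w : W, (ψ ∘ₗ V.mkQ) w ∈ U := by
    intro w
    rw [← hUeq]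
    exact ⟨V.mkQ w, rfl⟩
  refine ⟨U, hUE.1, hUE.2, (ψ ∘ₗ V.mkQ).codRestrict U hmem, ?_⟩
  refine LinearMap.ext fun x => ?_
  apply Subtype.ext
  exact hψ' x x.2

/-- retracts of injective modules are injective -/
theorem inj_of_retract {R : Type} [Ring R] {A B : Type} [AddCommGroup A] [Module R A]
    [AddCommGroup B] [Module R B] (i : A →ₗ[R] B) (r : B →ₗ[R] A) (h : r ∘ₗ i = LinearMap.id)
    (hB : Module.Injective R B) : Module.Injective R A := by
  refine ⟨fun X Y _ _ _ _ f hf u => ?_⟩
  obtain ⟨v, hv⟩ := hB.out f hf (i ∘ₗ u)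
  refine ⟨r ∘ₗ v, fun x => ?_⟩
  rw [LinearMap.comp_apply, hv]
  exact LinearMap.congr_fun h (u x)

end Pool.Agent.Helper426Tach
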