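import Pool.Agent.Helper426_Tach.Poly
import Pool.Agent.Helper426_Tach.ExtS

set_option autoImplicit false
open CategoryTheory

namespace Pool.Agent.Helper426Tach

/-- the space k^e with the R-module structure given by ρ -/
def Tw {k : Type} [Field k] {R : Type} [Ring R] [Algebra k R] {V : Type} [AddCommGroup V]
    [Module k V] (_ρ : R →ₐ[k] Module.End k V) : Type := V

section
variable {k : Type} [Field k] {R : Type} [Ring R] [Algebra k R] {V : Type} [AddCommGroup V]
  [Module k V] (ρ : R →ₐ[k] Module.End k V)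

instance : AddCommGroup (Tw ρ) := inferInstanceAs (AddCommGroup V)

instance : Module R (Tw ρ) where
  smul r v := ρ r v
  one_smul v := by
    change ρ 1 v = v
    rw [map_one]
    rfl
  mul_smul r s v := by
    change ρ (r * s) v = ρ r (ρ s v)
    rw [map_mul]
    rfl
  smul_zero r := (ρ r).map_zero
  smul_add r v w := (ρ r).map_add v w
  add_smul r s v := by
    change ρ (r + s) v = ρ r v + ρ s v
    rw [map_add]
    rfl
  zero_smul v := by
    change ρ 0 v = 0
    rw [map_zero]
    rfl

theorem tw_smul (r : R) (v : Tw ρ) : r • v = ρ r v := rfl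

end

section
variable {k : Type} [Field k] {R : Type} [Ring R] [Algebra k R] {V : Type} [AddCommGroup V]
  [Module k V]

/-- the first differential -/
def dOne (σ ρ : R →ₐ[k] Module.End k V) : Module.End k V →ₗ[k] (R →ₗ[k] Module.End k V) where
  toFun φ := 
    { toFun := fun r => σ r * φ - φ * ρ r
      map_add' := fun r s => by rw [map_add, map_add, add_mul, mul_add]; abel
      map_smul' := fun c r => by
        rw [map_smul, map_smul, smul_mul_assoc, mul_smul_comm, ← smul_sub]; rfl }
  map_add' φ ψ := by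
    refine LinearMap.ext fun r => ?_
    change σ r * (φ + ψ) - (φ + ψ) * ρ r = (σ r * φ - φ * ρ r) + (σ r * ψ - ψ * ρ r)
    rw [add_mul, mul_add]; abel
  map_smul' c φ := by
    refine LinearMap.ext fun r => ?_
    change σ r * (c • φ) - (c • φ) * ρ r = c • (σ r * φ - φ * ρ r)
    rw [smul_mul_assoc, mul_smul_comm, ← smul_sub]

/-- the second differential -/
def dTwo (σ ρ : R →ₐ[k] Module.End k V) :
    (R →ₗ[k] Module.End k V) →ₗ[k] (R × R → Module.End k V) where
  toFun ψ := fun x => σ x.1 * ψ x.2 - ψ (x.1 * x.2) + ψ x.1 * ρ x.2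
  map_add' ψ χ := by
    funext x
    change σ x.1 * (ψ x.2 + χ x.2) - (ψ (x.1 * x.2) + χ (x.1 * x.2)) + (ψ x.1 + χ x.1) * ρ x.2 =
      (σ x.1 * ψ x.2 - ψ (x.1 * x.2) + ψ x.1 * ρ x.2) +
      (σ x.1 * χ x.2 - χ (x.1 * x.2) + χ x.1 * ρ x.2)
    rw [mul_add, add_mul]; abel
  map_smul' c ψ := by
    funext x
    change σ x.1 * (c • ψ x.2) - c • ψ (x.1 * x.2) + (c • ψ x.1) * ρ x.2 =
      c • (σ x.1 * ψ x.2 - ψ (x.1 * x.2) + ψ x.1 * ρ x.2)
    rw [mul_smul_comm, smul_mul_assoc, smul_add, smul_sub]

theorem dTwo_dOne (σ ρ : R →ₐ[k] Module.End k V) (φ : Module.End k V) :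
    dTwo σ ρ (dOne σ ρ φ) = 0 := by
  funext x
  change σ x.1 * (σ x.2 * φ - φ * ρ x.2) - (σ (x.1 * x.2) * φ - φ * ρ (x.1 * x.2)) +
    (σ x.1 * φ - φ * ρ x.1) * ρ x.2 = 0
  rw [map_mul, map_mul]
  noncomm_ring

/-- the action on the extension given by a derivation -/
def tauFun (ρ : R →ₐ[k] Module.End k V) (ψ : R →ₗ[k] Module.End k V) (r : R) :
    Module.End k (V × V) where
  toFun v := (ρ r v.1 + ψ r v.2, ρ r v.2)
  map_add' v w := by
    refine Prod.ext ?_ ?_
    · change ρ r (v.1 + w.1) + ψ r (v.2 + w.2) = (ρ r v.1 + ψ r v.2) + (ρ r w.1 + ψ r w.2)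
      rw [map_add, map_add]; abel
    · exact map_add _ _ _
  map_smul' c v := by
    refine Prod.ext ?_ ?_
    · change ρ r (c • v.1) + ψ r (c • v.2) = c • (ρ r v.1 + ψ r v.2)
      rw [map_smul, map_smul, smul_add]
    · exact map_smul _ _ _

/-- the extension given by a derivation -/
def tau (ρ : R →ₐ[k] Module.End k V) (ψ : R →ₗ[k] Module.End k V)
    (hd : ∀ r s, ψ (r * s) = ρ r * ψ s + ψ r * ρ s) (hψ1 : ψ 1 = 0) :
    R →ₐ[k] Module.End k (V × V) :=
  AlgHom.ofLinearMap
    { toFun := tauFun ρ ψ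
      map_add' := fun r s => LinearMap.ext fun v => by
        refine Prod.ext ?_ ?_
        · change ρ (r + s) v.1 + ψ (r + s) v.2 = (ρ r v.1 + ψ r v.2) + (ρ s v.1 + ψ s v.2)
          rw [map_add, map_add, LinearMap.add_apply, LinearMap.add_apply]; abel
        · change ρ (r + s) v.2 = ρ r v.2 + ρ s v.2
          rw [map_add, LinearMap.add_apply]
      map_smul' := fun c r => LinearMap.ext fun v => by
        refine Prod.ext ?_ ?_
        · change ρ (c • r) v.1 + ψ (c • r) v.2 = c • (ρ r v.1 + ψ r v.2)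
          rw [map_smul, map_smul, LinearMap.smul_apply, LinearMap.smul_apply, smul_add]
        · change ρ (c • r) v.2 = c • ρ r v.2
          rw [map_smul, LinearMap.smul_apply] }
    (LinearMap.ext fun v => by
      refine Prod.ext ?_ ?_
      · change ρ 1 v.1 + ψ 1 v.2 = v.1
        rw [map_one, hψ1, Module.End.one_apply, LinearMap.zero_apply, add_zero]
      · change ρ 1 v.2 = v.2
        rw [map_one, Module.End.one_apply])
    (fun r s => LinearMap.ext fun v => by
      refine Prod.ext ?_ ?_
      · change ρ (r * s) v.1 + ψ (r * s) v.2 = ρ r (ρ s v.1 + ψ s v.2) + ψ r (ρ s v.2)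
        rw [map_mul, hd, LinearMap.add_apply, Module.End.mul_apply, Module.End.mul_apply,
          Module.End.mul_apply, map_add]
        abel
      · change ρ (r * s) v.2 = ρ r (ρ s v.2)
        rw [map_mul, Module.End.mul_apply])

/-- derivations into the endomorphisms of a rigid module are inner -/
theorem inner_of_rigid [HasExt.{0} (ModuleCat.{0} R)] (ρ : R →ₐ[k] Module.End k V)
    (h : Subsingleton (Abelian.Ext.{0} (ModuleCat.of R (Tw ρ)) (ModuleCat.of R (Tw ρ)) 1))
    (ψ : R →ₗ[k] Module.End k V) (hψ : dTwo ρ ρ ψ = 0) : ∃ φ, dOne ρ ρ φ = ψ := by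
  have hd : ∀ r s, ψ (r * s) = ρ r * ψ s + ψ r * ρ s := by
    intro r s
    have h1 : ρ r * ψ s - ψ (r * s) + ψ r * ρ s = 0 := congrFun hψ (r, s)
    have h2 : ρ r * ψ s + ψ r * ρ s - ψ (r * s) = 0 := by rw [← h1]; abel
    exact (sub_eq_zero.mp h2).symm
  have hψ1 : ψ 1 = 0 := by
    have h1 := hd 1 1
    rw [mul_one, map_one ρ, one_mul, mul_one] at h1
    exact (left_eq_add.mp h1)
  let τ : R →ₐ[k] Module.End k (V × V) := tau ρ ψ hd hψ1
  let f : Tw ρ →ₗ[R] Tw τ :=
    { toFun := fun v => ((v : V), (0 : V))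
      map_add' := fun v w => by
        refine Prod.ext rfl ?_
        change (0 : V) = 0 + 0
        rw [add_zero]
      map_smul' := fun r v => by
        refine Prod.ext ?_ ?_
        · change ρ r v = ρ r v + ψ r 0
          rw [map_zero, add_zero]
        · change (0 : V) = ρ r 0
          rw [map_zero] }
  let g : Tw τ →ₗ[R] Tw ρ :=
    { toFun := fun v => (v : V × V).2
      map_add' := fun v w => rfl
      map_smul' := fun r v => rfl }
  have hf : Function.Injective f := by
    intro v w hvw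
    exact congrArg Prod.fst hvw
  have hg : Function.Surjective g := fun v => ⟨((0 : V), (v : V)), rfl⟩
  have hfg : Function.Exact f g := by
    intro v
    constructor
    · intro hv
      refine ⟨(v : V × V).1, ?_⟩
      exact Prod.ext rfl (show (0 : V) = (v : V × V).2 from hv.symm)
    · rintro ⟨w, rfl⟩
      rfl
  obtain ⟨q, hq⟩ := ext_of_ez (A := ModuleCat.of R (Tw ρ)) (B := ModuleCat.of R (Tw τ))
    (C := ModuleCat.of R (Tw ρ)) f g hf hfg hg h LinearMap.id
  have hq1 : ∀ v : V, q ((v, (0 : V)) : V × V) = v := fun v => LinearMap.congr_fun hq v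
  -- the k-linear map y ↦ q (0, y)
  have hqk : ∀ (c : k) (v : V × V), q (c • v : V × V) = c • (show V from q v) := by
    intro c v
    have h1 : q (τ (algebraMap k R c) v : V × V) = ρ (algebraMap k R c) (q (v : V × V)) :=
      q.map_smul (algebraMap k R c) v
    have h3 : ∀ w : V, ρ (algebraMap k R c) w = c • w := by
      intro w
      rw [AlgHom.commutes, Module.algebraMap_end_apply]
    rw [AlgHom.commutes, Module.algebraMap_end_apply] at h1
    exact h1.trans (h3 _)
  have hqa : ∀ (v w : V × V), q (v + w : V × V) = (show V from q v) + (show V from q w) :=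
    fun v w => q.map_add v w
  let φ : Module.End k V :=
    { toFun := fun y => q (((0 : V), y) : V × V)
      map_add' := fun x y => by
        have h2 : (((0 : V), x + y) : V × V) = ((0 : V), x) + ((0 : V), y) := by
          rw [Prod.mk_add_mk, add_zero]
        rw [h2]
        exact hqa _ _
      map_smul' := fun c x => by
        have h2 : (((0 : V), c • x) : V × V) = c • (((0 : V), x) : V × V) := by
          rw [Prod.smul_mk, smul_zero]
        rw [h2]
        exact hqk _ _ }
  refine ⟨φ, LinearMap.ext fun r => LinearMap.ext fun y => ?_⟩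
  change ρ r (φ y) - φ (ρ r y) = ψ r y
  have h1 : q (τ r ((0 : V), y) : V × V) = ρ r (φ y) := q.map_smul r (((0 : V), y) : V × V)
  have h2 : (τ r ((0 : V), y) : V × V) = (ψ r y, (0 : V)) + ((0 : V), ρ r y) := by
    refine Prod.ext ?_ ?_
    · change ρ r 0 + ψ r y = ψ r y + 0
      rw [map_zero, zero_add, add_zero]
    · change ρ r y = 0 + ρ r y
      rw [zero_add]
  rw [h2] at h1
  have h3 := hqa (ψ r y, (0 : V)) ((0 : V), ρ r y)
  have h4 : (show V from q ((ψ r y, (0 : V)) : V × V)) = ψ r y := hq1 (ψ r y)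
  rw [h4] at h3
  have h5 : ψ r y + φ (ρ r y) = ρ r (φ y) := h3.symm.trans h1
  rw [← h5, add_sub_cancel_right]

end

end Pool.Agent.Helper426Tach
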